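import Mathlib

/-!
# Growth of the solutions of the recursion
-/

set_option autoImplicit false

open Finset

namespace Pool.Agent.H66SG.Ana

/-- The binomial lower bound. -/
lemma binom {a : ℕ → ℕ → ℕ} (h : ∀ c d, a c (d + 1) = 2 * a c d + a (c + 1) d) :
    ∀ k m c, (m + k).choose k * 2 ^ m * a (c + k) 0 ≤ a c (m + k) := by
  intro k
  induction k with
  | zero =>
    intro m c
    induction m with
    | zero => simp
    | succ m ih =>
      have h1 := h c (m + 0)
      rw [Nat.choose_zero_right, one_mul, Nat.add_zero] at ih ⊢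
      rw [Nat.add_zero] at h1 ih ⊢
      rw [h1, pow_succ]
      calc 2 ^ m * 2 * a c 0 = 2 * (2 ^ m * a c 0) := by ring
        _ ≤ 2 * a c m := Nat.mul_le_mul_left _ ih
        _ ≤ _ := Nat.le_add_right _ _
  | succ k ihk =>
    intro m
    induction m with
    | zero =>
      intro c
      have h1 := ihk 0 (c + 1)
      rw [Nat.zero_add, Nat.choose_self, pow_zero, one_mul, one_mul] at h1 ⊢
      rw [h c k, show c + (k + 1) = c + 1 + k by ring]
      exact h1.trans (Nat.le_add_left _ _)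
    | succ m ihm =>
      intro c
      have h1 := ihm c
      have h2 := ihk (m + 1) (c + 1)
      rw [show m + 1 + (k + 1) = (m + (k + 1)) + 1 by ring, h c, Nat.choose_succ_succ,
        show c + (k + 1) = c + 1 + k by ring] at *
      rw [show m + 1 + k = m + (k + 1) by ring] at h2
      calc ((m + (k + 1)).choose k + (m + (k + 1)).choose (k + 1)) * 2 ^ (m + 1) *
            a (c + 1 + k) 0 = 2 * ((m + (k + 1)).choose (k + 1) * 2 ^ m * a (c + 1 + k) 0) +
              (m + (k + 1)).choose k * 2 ^ (m + 1) * a (c + 1 + k) 0 := by ring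
        _ ≤ 2 * a c (m + (k + 1)) + a (c + 1) (m + (k + 1)) :=
            Nat.add_le_add (Nat.mul_le_mul_left _ h1) h2

/-- The exponential growth rate of a supermultiplicative sequence. -/
lemma rate {w : ℕ → ℕ} {b : ℕ} (h1 : ∀ M, 1 ≤ w M)
    (hmul : ∀ M M', w M * w M' ≤ w (M + M' + 1)) (hb : ∀ M, w M ≤ b ^ (M + 1)) :
    ∃ L : ℝ, L ≤ Real.log b ∧ (∀ M : ℕ, (w M : ℝ) ≤ Real.exp (L * ((M : ℝ) + 1))) ∧
      ∀ δ : ℝ, 0 < δ → ∃ c : ℝ, 0 < c ∧
        ∀ M : ℕ, c * Real.exp ((L - δ) * ((M : ℝ) + 1)) ≤ (w M : ℝ) := by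
  have hw : ∀ M, (0 : ℝ) < w M := fun M => by exact_mod_cast h1 M
  have hb1 : 1 ≤ b := by
    by_contra h0
    have : b = 0 := by omega
    have h2 := hb 0
    rw [this] at h2
    have := h1 0
    simp at h2
    omega
  have hbR : (0 : ℝ) < b := by exact_mod_cast hb1
  set u : ℕ → ℝ := fun n => -Real.log (w (n - 1)) * (if n = 0 then 0 else 1) with hu
  have hu1 : ∀ n, 1 ≤ n → u n = -Real.log (w (n - 1)) := by
    intro n hn
    rw [hu]
    simp [show n ≠ 0 by omega]
  have hu0 : u 0 = 0 := by rw [hu]; simp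
  have hsub : Subadditive u := by
    intro m n
    rcases Nat.eq_zero_or_pos m with rfl | hm
    · rw [hu0, zero_add, zero_add]
    rcases Nat.eq_zero_or_pos n with rfl | hn
    · rw [hu0, add_zero, add_zero]
    rw [hu1 _ (by omega), hu1 _ hm, hu1 _ hn]
    have h2 := hmul (m - 1) (n - 1)
    rw [show m - 1 + (n - 1) + 1 = m + n - 1 by omega] at h2
    have h3 : Real.log (w (m - 1)) + Real.log (w (n - 1)) ≤ Real.log (w (m + n - 1)) := by
      rw [← Real.log_mul (hw _).ne' (hw _).ne']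
      apply Real.log_le_log (mul_pos (hw _) (hw _))
      exact_mod_cast h2
    linarith
  have hlow : ∀ n, 1 ≤ n → -Real.log b ≤ u n / n := by
    intro n hn
    have hn' : (0 : ℝ) < n := by exact_mod_cast hn
    rw [hu1 n hn, le_div_iff₀ hn']
    have h2 : Real.log (w (n - 1)) ≤ n * Real.log b := by
      rw [← Real.log_pow]
      apply Real.log_le_log (hw _)
      have := hb (n - 1)
      rw [show n - 1 + 1 = n by omega] at this
      exact_mod_cast this
    linarith
  have hlogb : 0 ≤ Real.log b := Real.log_nonneg (by exact_mod_cast hb1)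
  have hbdd : BddBelow (Set.range fun n : ℕ => u n / n) := by
    refine ⟨-Real.log b, ?_⟩
    rintro _ ⟨n, rfl⟩
    rcases Nat.eq_zero_or_pos n with rfl | hn
    · beta_reduce
      rw [hu0]
      simpa using hlogb
    · exact hlow n hn
  have hlim := hsub.tendsto_lim hbdd
  have hle : ∀ n : ℕ, n ≠ 0 → hsub.lim ≤ u n / n := fun n hn => hsub.lim_le_div hbdd hn
  refine ⟨-hsub.lim, ?_, ?_, ?_⟩
  · have : -Real.log b ≤ hsub.lim := by
      apply ge_of_tendsto hlim
      filter_upwards [Filter.eventually_ge_atTop 1] with n hn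
      exact hlow n hn
    linarith
  · intro M
    have h2 := hle (M + 1) (by omega)
    have hM : (0 : ℝ) < (M + 1 : ℕ) := by positivity
    rw [le_div_iff₀ hM, hu1 _ (by omega), Nat.add_sub_cancel] at h2
    push_cast at h2
    calc (w M : ℝ) = Real.exp (Real.log (w M)) := (Real.exp_log (hw M)).symm
      _ ≤ _ := Real.exp_le_exp.2 (by linarith)
  · intro δ hδ
    have h2 : ∀ᶠ n : ℕ in Filter.atTop, u n / n < hsub.lim + δ :=
      hlim.eventually_lt_const (by linarith)
    obtain ⟨n0, hn0⟩ := Filter.eventually_atTop.1 h2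
    set B : ℝ := |(-hsub.lim - δ)| * (n0 + 1) with hB
    refine ⟨Real.exp (-B), Real.exp_pos _, ?_⟩
    intro M
    rw [← Real.exp_add]
    have hM : (0 : ℝ) < (M + 1 : ℕ) := by positivity
    by_cases hMn : n0 ≤ M + 1
    · have h3 := hn0 (M + 1) hMn
      rw [div_lt_iff₀ hM, hu1 _ (by omega), Nat.add_sub_cancel] at h3
      push_cast at h3
      rw [← Real.exp_log (hw M)]
      apply Real.exp_le_exp.2
      have : 0 ≤ B := by positivity
      linarith
    · have h4 : ((M : ℝ) + 1) ≤ n0 + 1 := by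
        have : M ≤ n0 := by omega
        have : (M : ℝ) ≤ n0 := by exact_mod_cast this
        linarith
      have h5 : (-hsub.lim - δ) * ((M : ℝ) + 1) ≤ B := by
        rw [hB]
        calc (-hsub.lim - δ) * ((M : ℝ) + 1) ≤ |(-hsub.lim - δ)| * ((M : ℝ) + 1) :=
              mul_le_mul_of_nonneg_right (le_abs_self _) (by positivity)
          _ ≤ _ := mul_le_mul_of_nonneg_left h4 (abs_nonneg _)
      calc Real.exp (-B + (-hsub.lim - δ) * ((M : ℝ) + 1)) ≤ Real.exp 0 :=
            Real.exp_le_exp.2 (by linarith)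
        _ = 1 := Real.exp_zero
        _ ≤ (w M : ℝ) := by exact_mod_cast h1 M

/-- **The bound.** -/
theorem growth {w : ℕ → ℕ} {b : ℕ} (h1 : ∀ M, 1 ≤ w M)
    (hmul : ∀ M M', w M * w M' ≤ w (M + M' + 1)) (hb : ∀ M, w M ≤ b ^ (M + 1)) {s : ℕ}
    {R : ℕ → ℕ → ℕ} (hR0 : ∀ M, R M 0 = w M)
    (hrec : ∀ N c, c * (s + 1) ≤ N → R (N + s + 1) c = 2 * R N c + R (N + s + 1) (c + 1))
    {ρ : ℝ} (hρ : 0 < ρ) (hρ' : 1 - 2 / (b : ℝ) ^ (s + 1) < ρ ^ (s + 1)) (e : ℕ) :
    ∃ C : ℝ, ∀ K, (R (K * (s + 1) + e) K : ℝ) ≤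
      C * ρ ^ (K * (s + 1)) * w (K * (s + 1) + e) := by
  obtain ⟨L, hLb, hup, hlo⟩ := rate h1 hmul hb
  have hb1 : 1 ≤ b := by
    by_contra h0
    have : b = 0 := by omega
    have h2 := hb 0
    rw [this] at h2
    have := h1 0
    simp at h2
    omega
  have hbR : (0 : ℝ) < b := by exact_mod_cast hb1
  -- the binomial bound
  have hbin : ∀ K m, ((m + K).choose K : ℝ) * 2 ^ m * R (K * (s + 1) + e) K ≤
      w ((m + K) * (s + 1) + e) := by
    intro K m
    have h2 := binom (a := fun c d => R ((c + d) * (s + 1) + e) c) (by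
      intro c d
      beta_reduce
      have h3 := hrec ((c + d) * (s + 1) + e) c (by nlinarith)
      have h4 : (c + (d + 1)) * (s + 1) + e = (c + d) * (s + 1) + e + s + 1 := by ring
      have h5 : (c + 1 + d) * (s + 1) + e = (c + d) * (s + 1) + e + s + 1 := by ring
      rw [h4, h5]
      exact h3) K m 0
    beta_reduce at h2
    rw [zero_add, zero_add, Nat.add_zero, hR0] at h2
    exact_mod_cast h2
  -- the parameters
  set Q := ρ ^ (s + 1) with hQ
  have hQ0 : 0 < Q := by positivity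
  set β : ℝ := (b : ℝ) ^ (s + 1) with hβ
  have hβ0 : 0 < β := by positivity
  set Λ : ℝ := Real.exp (L * (s + 1)) with hΛ
  have hΛ0 : 0 < Λ := Real.exp_pos _
  have hΛβ : Λ ≤ β := by
    rw [hΛ, hβ, ← Real.exp_log (pow_pos hbR (s + 1)), Real.log_pow]
    apply Real.exp_le_exp.2
    push_cast
    have : (0 : ℝ) ≤ (s : ℝ) + 1 := by positivity
    nlinarith
  obtain ⟨G, hG1, hG2, hG3⟩ : ∃ G : ℝ, β < G ∧ 2 < G ∧ 1 - 2 / G < Q := by
    by_cases hq : 1 ≤ Q
    · refine ⟨max β 2 + 1, by linarith [le_max_left β 2], by linarith [le_max_right β 2], ?_⟩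
      have : (0 : ℝ) < 2 / (max β 2 + 1) := by
        have := le_max_right β 2
        positivity
      linarith
    · push Not at hq
      have hq' : 0 < 1 - Q := by linarith
      have h2 : max β 2 < 2 / (1 - Q) := by
        apply max_lt
        · rw [lt_div_iff₀ hq']
          have h3 : 1 - Q < 2 / β := by linarith
          rw [lt_div_iff₀ hβ0] at h3
          linarith
        · rw [lt_div_iff₀ hq']
          linarith
      obtain ⟨G, hG, hG'⟩ := exists_between h2
      have hGβ := lt_of_le_of_lt (le_max_left β 2) hG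
      have hG2 := lt_of_le_of_lt (le_max_right β 2) hG
      refine ⟨G, hGβ, hG2, ?_⟩
      have hG0 : (0 : ℝ) < G := by linarith
      rw [lt_div_iff₀ hq'] at hG'
      have : 1 - Q < 2 / G := by
        rw [lt_div_iff₀ hG0]; linarith
      linarith
  have hG0 : (0 : ℝ) < G := by linarith
  set κ : ℝ := 1 - 2 / G with hκ
  have hκ0 : 0 < κ := by
    have : 2 / G < 1 := by rw [div_lt_one hG0]; exact hG2
    linarith
  have hκ1 : κ < 1 := by
    have : 0 < 2 / G := by positivity
    linarith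
  set y : ℝ := 2 / G with hy
  have hy0 : 0 < y := by positivity
  have hy1 : y < 1 := by rw [hy, div_lt_one hG0]; exact hG2
  set τ : ℝ := Λ / G with hτ
  have hτ0 : 0 < τ := by positivity
  have hτ1 : τ < 1 := by rw [hτ, div_lt_one hG0]; linarith
  set E : ℝ := Real.exp (L * (e + 1)) with hE
  -- the upper bound for the ranks
  have hR : ∀ K, (R (K * (s + 1) + e) K : ℝ) ≤ E * κ / (1 - τ) * (Λ * κ) ^ K := by
    intro K
    have h3 : ∀ m : ℕ, ((m + K).choose K : ℝ) * y ^ m * R (K * (s + 1) + e) K ≤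
        E * Λ ^ K * τ ^ m := by
      intro m
      have h4 := (hbin K m).trans (hup _)
      have h5 : Real.exp (L * (((m + K) * (s + 1) + e : ℕ) + 1)) = E * Λ ^ K * Λ ^ m := by
        rw [hE, hΛ, ← Real.exp_nat_mul, ← Real.exp_nat_mul, ← Real.exp_add, ← Real.exp_add]
        congr 1
        push_cast
        ring
      rw [h5] at h4
      have hGm : (0 : ℝ) < G ^ m := by positivity
      have h6 : ((m + K).choose K : ℝ) * y ^ m * R (K * (s + 1) + e) K =
          ((m + K).choose K : ℝ) * 2 ^ m * R (K * (s + 1) + e) K / G ^ m := by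
        rw [hy, div_pow]; ring
      have h7 : E * Λ ^ K * τ ^ m = E * Λ ^ K * Λ ^ m / G ^ m := by
        rw [hτ, div_pow]; ring
      rw [h6, h7]
      exact div_le_div_of_nonneg_right h4 hGm.le
    have hs1 := hasSum_choose_mul_geometric_of_norm_lt_one (𝕜 := ℝ) K (r := y)
      (by rw [Real.norm_eq_abs, abs_of_pos hy0]; exact hy1)
    have hs2 := hs1.mul_right (R (K * (s + 1) + e) K : ℝ)
    have hs3 := (hasSum_geometric_of_lt_one hτ0.le hτ1).mul_left (E * Λ ^ K)
    have h8 := hasSum_le h3 hs2 hs3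
    have h9 : (1 : ℝ) - y = κ := by rw [hκ]
    rw [h9, one_div, ← div_eq_inv_mul, div_le_iff₀ (by positivity)] at h8
    refine h8.trans (le_of_eq ?_)
    rw [mul_pow, pow_succ]
    field_simp
  -- the lower bound for the total ranks
  set δ : ℝ := Real.log (Q / κ) / (s + 1) with hδ
  have hs0 : (0 : ℝ) < (s : ℝ) + 1 := by positivity
  have hδ0 : 0 < δ := by
    apply div_pos _ hs0
    apply Real.log_pos
    rw [lt_div_iff₀ hκ0]
    linarith
  obtain ⟨c, hc, hlo'⟩ := hlo δ hδ0
  have hδe : Real.exp (δ * (s + 1)) = Q / κ := by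
    rw [hδ, div_mul_cancel₀ _ hs0.ne', Real.exp_log (by positivity)]
  have hW : ∀ K, c * Real.exp ((L - δ) * (e + 1)) * (Λ * (κ / Q)) ^ K ≤
      (w (K * (s + 1) + e) : ℝ) := by
    intro K
    refine le_trans (le_of_eq ?_) (hlo' (K * (s + 1) + e))
    have h5 : Real.exp ((L - δ) * ((K * (s + 1) + e : ℕ) + 1)) =
        Real.exp ((L - δ) * (e + 1)) * (Real.exp ((L - δ) * (s + 1))) ^ K := by
      rw [← Real.exp_nat_mul, ← Real.exp_add]
      congr 1
      push_cast
      ring
    have h6 : Real.exp ((L - δ) * (s + 1)) = Λ * (κ / Q) := by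
      rw [sub_mul, Real.exp_sub, hδe, hΛ]
      field_simp
    rw [h5, h6]
    ring
  set c' : ℝ := c * Real.exp ((L - δ) * (e + 1)) with hc'
  have hc'0 : 0 < c' := by positivity
  refine ⟨E * κ / (1 - τ) / c', ?_⟩
  intro K
  have h10 : ρ ^ (K * (s + 1)) = Q ^ K := by rw [hQ, ← pow_mul, mul_comm]
  rw [h10]
  have hB : 0 ≤ E * κ / (1 - τ) := by
    have : 0 < 1 - τ := by linarith
    positivity
  calc (R (K * (s + 1) + e) K : ℝ) ≤ E * κ / (1 - τ) * (Λ * κ) ^ K := hR K
    _ = E * κ / (1 - τ) / c' * Q ^ K * (c' * (Λ * (κ / Q)) ^ K) := by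
        have h11 : (Λ * (κ / Q)) ^ K * Q ^ K = (Λ * κ) ^ K := by
          rw [← mul_pow]
          congr 1
          field_simp
        rw [← h11]
        field_simp
    _ ≤ _ := mul_le_mul_of_nonneg_left (hW K) (by positivity)

end Pool.Agent.H66SG.Ana
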