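import Pool.Agent.H66SG.CL

/-!
# Insertion and contraction of blocks in the powers of a variety
-/

set_option autoImplicit false

open CategoryTheory AlgebraicGeometry

universe u v w

namespace Pool.Agent.H66SG

open Pool.Agent.H914 Pool.Agent.H914.VarClass Pool.Agent.H914.VarClass.Obj
  Pool.Agent.H914.WeilCohomology Pool.Agent.H281R3.HT Pool.Agent.W552 Pool.Agent.TH720.LB
  Pool.Agent.X310 Pool.Agent.X310.Mom Pool.Agent.W539.Ker

variable {k : Type u} [Field k] {𝒱 : VarClass k} {ops : CycleOps 𝒱}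
  {W : WeilCohomology.{u, v} ops} {X : 𝒱.Obj} {D : X.Cycles} {f : Module.End W.K (W.H X)}

/-- The form on the powers. -/
noncomputable abbrev bp (W : WeilCohomology.{u, v} ops) {X : 𝒱.Obj} (D : X.Cycles)
    (f : Module.End W.K (W.H X)) (M : ℕ) :
    W.H (pw X M) →ₗ[W.K] W.H (pw X M) →ₗ[W.K] W.K :=
  bf W (pw X M) (pwDiv ops D M) (pwLow W f M)

/-- The classes on the powers. -/
abbrev CP (W : WeilCohomology.{u, v} ops) {X : 𝒱.Obj} (D : X.Cycles)
    (f : Module.End W.K (W.H X)) (M : ℕ) : W.H (pw X M) → Prop :=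
  CL W (pw X M) (pwDiv ops D M) (pwLow W f M)

/-- Insertion of the block `b` in position `j`. -/
noncomputable def ins (W : WeilCohomology.{u, v} ops) (X : 𝒱.Obj) (M N s j : ℕ)
    (b : W.H (pw X s)) : W.H (pw X N) →ₗ[W.K] W.H (pw X M) :=
  LinearMap.mulRight W.K (W.map (blk X M s j) b) ∘ₗ (W.map (frg X M N s j)).toLinearMap

/-- Contraction with the block `b` in position `j`. -/
noncomputable def con (W : WeilCohomology.{u, v} ops) {X : 𝒱.Obj} (D : X.Cycles)
    (f : Module.End W.K (W.H X)) (M N s j : ℕ) (b : W.H (pw X s)) :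
    W.H (pw X M) →ₗ[W.K] W.H (pw X N) :=
  W.push (frg X M N s j) ∘ₗ LinearMap.mulRight W.K (W.map (blk X M s j)
    (st W (pw X s) (pwDiv ops D s) (pwLow W f s) b))

lemma ins_apply (M N s j : ℕ) (b : W.H (pw X s)) (a : W.H (pw X N)) :
    ins W X M N s j b a = W.map (frg X M N s j) a * W.map (blk X M s j) b := rfl

lemma con_apply (M N s j : ℕ) (b : W.H (pw X s)) (w : W.H (pw X M)) :
    con W D f M N s j b w = W.push (frg X M N s j) (w * W.map (blk X M s j)
      (st W (pw X s) (pwDiv ops D s) (pwLow W f s) b)) := rfl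

section One

variable (F : Fz W X D f) {N s j : ℕ} (hj : j ≤ N + 1) {b c : W.H (pw X s)}

include F hj

lemma ins_cp (hb : CP W D f s b) {a : W.H (pw X N)} (ha : CP W D f N a) :
    CP W D f (N + s + 1) (ins W X (N + s + 1) N s j b a) :=
  (pl_pw F N s j hj).cl_E ha hb

lemma con_cp (hb : CP W D f s b) {w : W.H (pw X (N + s + 1))} (hw : CP W D f (N + s + 1) w) :
    CP W D f N (con W D f (N + s + 1) N s j b w) :=
  (pl_pw F N s j hj).cl_C hb hw

lemma adj_ins (hb : CP W D f s b) (w : W.H (pw X (N + s + 1))) (a : W.H (pw X N)) :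
    bp W D f (N + s + 1) w (ins W X (N + s + 1) N s j b a) =
      bp W D f N (con W D f (N + s + 1) N s j b w) a :=
  (pl_pw F N s j hj).adj hb w a

lemma ins_form (b c : W.H (pw X s)) (a a' : W.H (pw X N)) :
    bp W D f (N + s + 1) (ins W X (N + s + 1) N s j b a) (ins W X (N + s + 1) N s j c a') =
      bp W D f N a a' * bp W D f s b c :=
  (pl_pw F N s j hj).form a b a' c

lemma con_ins (hb : CP W D f s b) (c : W.H (pw X s)) (a : W.H (pw X N)) :
    con W D f (N + s + 1) N s j b (ins W X (N + s + 1) N s j c a) = bp W D f s c b • a :=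
  (pl_pw F N s j hj).C_E hb a c

end One

section Two

variable {N s i j : ℕ} {b c : W.H (pw X s)}

lemma pos_le (hij : i ≤ j) (hj : j ≤ N + 1) : i ≤ N + s + 1 + 1 ∧ j + s + 1 ≤ N + s + 1 + 1 ∧
    i ≤ N + 1 := ⟨by omega, by omega, by omega⟩

/-- The insertions of two blocks, in the two orders. -/
lemma ins_ins (hij : i ≤ j) (hj : j ≤ N + 1) (hb : AS W (pw X s) b) (c : W.H (pw X s))
    (z : W.H (pw X N)) :
    ins W X (N + s + 1 + s + 1) (N + s + 1) s (j + s + 1) c (ins W X (N + s + 1) N s i b z) =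
      ins W X (N + s + 1 + s + 1) (N + s + 1) s i b (ins W X (N + s + 1) N s j c z) := by
  rw [ins_apply, ins_apply, ins_apply, ins_apply, map_mul, map_mul, ← W.map_comp, ← W.map_comp,
    ← W.map_comp, ← W.map_comp, frg_blk_late N s i j hij hj, frg_blk_early N s i j hij hj,
    frg_frg N s i j hij hj, mul_assoc, mul_assoc, (hb.map _).comm]

variable (F : Fz W X D f)

include F

/-- The contractions of two blocks, in the two orders. -/
lemma con_con (hij : i ≤ j) (hj : j ≤ N + 1) (hb : CP W D f s b) (hc : CP W D f s c)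
    (w : W.H (pw X (N + s + 1 + s + 1))) :
    con W D f (N + s + 1) N s i b (con W D f (N + s + 1 + s + 1) (N + s + 1) s (j + s + 1) c w) =
      con W D f (N + s + 1) N s j c (con W D f (N + s + 1 + s + 1) (N + s + 1) s i b w) := by
  obtain ⟨h1, h2, h3⟩ := pos_le (s := s) hij hj
  rw [← sub_eq_zero]
  apply (pw_fz F N).nondeg'
  intro z
  rw [map_sub, LinearMap.sub_apply]
  have e1 := adj_ins F h3 hb (con W D f (N + s + 1 + s + 1) (N + s + 1) s (j + s + 1) c w) z
  have e2 := adj_ins F h2 hc w (ins W X (N + s + 1) N s i b z)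
  have e3 := adj_ins F hj hc (con W D f (N + s + 1 + s + 1) (N + s + 1) s i b w) z
  have e4 := adj_ins F h1 hb w (ins W X (N + s + 1) N s j c z)
  rw [← e1, ← e2, ← e3, ← e4, ins_ins hij hj hb.as, sub_self]

/-- The contraction of an inserted block. -/
lemma con_ins_late (hij : i ≤ j) (hj : j ≤ N + 1) (hb : CP W D f s b) (c : W.H (pw X s))
    (w : W.H (pw X (N + s + 1))) :
    con W D f (N + s + 1 + s + 1) (N + s + 1) s i b
      (ins W X (N + s + 1 + s + 1) (N + s + 1) s (j + s + 1) c w) =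
      ins W X (N + s + 1) N s j c (con W D f (N + s + 1) N s i b w) := by
  obtain ⟨h1, h2, h3⟩ := pos_le (s := s) hij hj
  rw [← sub_eq_zero]
  apply (pw_fz F (N + s + 1)).nondeg'
  intro y
  rw [map_sub, LinearMap.sub_apply, sub_eq_zero]
  refine (pl_pw F N s j hj).ind (P := fun y => bp W D f (N + s + 1)
    (con W D f (N + s + 1 + s + 1) (N + s + 1) s i b
      (ins W X (N + s + 1 + s + 1) (N + s + 1) s (j + s + 1) c w)) y =
    bp W D f (N + s + 1) (ins W X (N + s + 1) N s j c (con W D f (N + s + 1) N s i b w)) y)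
    ?_ ?_ y
  · intro x y hx hy
    rw [map_add, map_add, hx, hy]
  intro _ _ z _ d _
  have e0 : W.map (frg X (N + s + 1) N s j) z * W.map (blk X (N + s + 1) s j) d =
    ins W X (N + s + 1) N s j d z := rfl
  rw [e0, ← adj_ins F h1 hb, ← ins_ins hij hj hb.as, ins_form F h2, ins_form F hj,
    adj_ins F h3 hb]

end Two

end Pool.Agent.H66SG
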