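import Pool.Agent.H66SG.Twr

/-!
# The algebraic classes all of whose transforms under the Lefschetz operators are algebraic
-/

set_option autoImplicit false

open CategoryTheory AlgebraicGeometry

universe u v w

namespace Pool.Agent.H66SG

open Pool.Agent.H914 Pool.Agent.H914.VarClass Pool.Agent.H914.VarClass.Obj
  Pool.Agent.H914.WeilCohomology Pool.Agent.H281R3.HT Pool.Agent.W552 Pool.Agent.TH720.LB
  Pool.Agent.X310 Pool.Agent.X310.Mom Pool.Agent.W539.Ker

variable {k : Type u} [Field k] {𝒱 : VarClass k} {ops : CycleOps 𝒱}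
  {W : WeilCohomology.{u, v} ops} {X Y V A B : 𝒱.Obj}

/-- The words in the raising and the lowering operator. -/
noncomputable def word (W : WeilCohomology.{u, v} ops) (X : 𝒱.Obj) (D : X.Cycles)
    (f : Module.End W.K (W.H X)) : List Bool → Module.End W.K (W.H X)
  | [] => 1
  | b :: l => word W X D f l * (if b then LinearMap.mulLeft W.K (W.cl X D) else f)

/-- The classes all of whose transforms under words are algebraic. -/
def CL (W : WeilCohomology.{u, v} ops) (X : 𝒱.Obj) (D : X.Cycles)
    (f : Module.End W.K (W.H X)) (x : W.H X) : Prop :=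
  ∀ l, AS W X (word W X D f l x)

namespace CL

variable {D : X.Cycles} {f : Module.End W.K (W.H X)} {x y : W.H X}

lemma word_true (l : List Bool) (x : W.H X) : word W X D f (true :: l) x =
    word W X D f l (W.cl X D * x) := rfl

lemma word_false (l : List Bool) (x : W.H X) : word W X D f (false :: l) x =
    word W X D f l (f x) := rfl

lemma coind {P : W.H X → Prop} (h1 : ∀ x, P x → AS W X x) (h2 : ∀ x, P x → P (W.cl X D * x))
    (h3 : ∀ x, P x → P (f x)) {x : W.H X} (hx : P x) : CL W X D f x := by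
  intro l
  induction l generalizing x with
  | nil => exact h1 x hx
  | cons b l ih =>
    cases b with
    | true => rw [word_true]; exact ih (h2 x hx)
    | false => rw [word_false]; exact ih (h3 x hx)

lemma as (h : CL W X D f x) : AS W X x := h []

lemma e (h : CL W X D f x) : CL W X D f (W.cl X D * x) := fun l => h (true :: l)

lemma low (h : CL W X D f x) : CL W X D f (f x) := fun l => h (false :: l)

lemma zero : CL W X D f 0 := fun l => by rw [map_zero]; exact AS.zero

lemma add (hx : CL W X D f x) (hy : CL W X D f y) : CL W X D f (x + y) :=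
  fun l => by rw [map_add]; exact (hx l).add (hy l)

lemma smul (q : ℚ) (hx : CL W X D f x) : CL W X D f ((q : W.K) • x) :=
  fun l => by rw [map_smul]; exact (hx l).smul q

lemma ratSub : RatSub W.K (CL W X D f) where
  zero := zero
  add := add
  smul q _ hx := smul q hx

/-- The operators which preserve these classes. -/
def CO (W : WeilCohomology.{u, v} ops) (X : 𝒱.Obj) (D : X.Cycles)
    (f : Module.End W.K (W.H X)) (g : Module.End W.K (W.H X)) : Prop :=
  ∀ x, CL W X D f x → CL W X D f (g x)

lemma CO.ratSub : RatSub W.K (CO W X D f) where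
  zero := fun x _ => zero
  add := fun hg hg' x hx => (hg x hx).add (hg' x hx)
  smul q _ hg := fun x hx => (hg x hx).smul q

lemma CO.mul {g g' : Module.End W.K (W.H X)} (h : CO W X D f g) (h' : CO W X D f g') :
    CO W X D f (g * g') := fun x hx => h _ (h' x hx)

lemma CO.pow {g : Module.End W.K (W.H X)} (h : CO W X D f g) (m : ℕ) : CO W X D f (g ^ m) := by
  induction m with
  | zero => intro x hx; simpa using hx
  | succ m ih => rw [pow_succ]; exact ih.mul h

lemma CO.wey {e g : Module.End W.K (W.H X)} (he : CO W X D f e) (hf : CO W X D f g)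
    (hne : IsNilpotent e) (hnf : IsNilpotent g) : CO W X D f (H914.wey e g) := by
  let _ : Module ℚ (Module.End W.K (W.H X)) :=
    Module.compHom (Module.End W.K (W.H X)) (algebraMap ℚ W.K)
  have hexp : ∀ {g : Module.End W.K (W.H X)}, CO W X D f g → IsNilpotent g →
      CO W X D f (IsNilpotent.exp g) := by
    intro g hg hng
    obtain ⟨N, hN⟩ := hng
    rw [IsNilpotent.exp_eq_sum hN]
    apply ratSub.sum
    intro i _
    have h1 : ((i.factorial : ℚ)⁻¹ • g ^ i) = (((i.factorial : ℚ)⁻¹ : ℚ) : W.K) • g ^ i := rfl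
    rw [h1]
    exact CO.ratSub.smul _ (hg.pow i)
  change CO W X D f (weyl e g)
  rw [weyl]
  have hf' : CO W X D f (-g) := CO.ratSub.neg hf
  exact ((hexp he hne).mul (hexp hf' hnf.neg)).mul (hexp he hne)

omit x y in
lemma proj_e (F : Fz W X D f) (i : ℕ) (x : W.H X) : W.cl X D * proj (W.isInternal X) i x =
    proj (W.isInternal X) (i + 2) (W.cl X D * x) := by
  refine gr_induction (W.isInternal X) (p := fun x => W.cl X D * proj (W.isInternal X) i x =
    proj (W.isInternal X) (i + 2) (W.cl X D * x)) ?_ ?_ x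
  · intro j x hx
    by_cases hij : j = i
    · subst hij
      rw [proj_same _ hx, proj_same _ (F.e_gr hx)]
    · rw [proj_ne _ hx hij, proj_ne _ (F.e_gr hx) (by omega), mul_zero]
  · intro a b ha hb
    rw [map_add, mul_add, ha, hb, mul_add, map_add]

lemma proj_f (F : Fz W X D f) (i : ℕ) (x : W.H X) : f (proj (W.isInternal X) (i + 2) x) =
    proj (W.isInternal X) i (f x) := by
  refine gr_induction (W.isInternal X) (p := fun x => f (proj (W.isInternal X) (i + 2) x) =
    proj (W.isInternal X) i (f x)) ?_ ?_ x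
  · intro j x hx
    have h1 := F.f_gr hx
    by_cases hij : j = i + 2
    · subst hij
      rw [proj_same _ hx, proj_same _ (h1.1 i rfl)]
    · rw [proj_ne _ hx hij, map_zero]
      rcases lt_or_ge j 2 with hj | hj
      · rw [h1.2 hj, map_zero]
      · obtain ⟨j', rfl⟩ : ∃ j', j = j' + 2 := ⟨j - 2, by omega⟩
        rw [proj_ne _ (h1.1 j' rfl) (by omega)]
  · intro a b ha hb
    rw [map_add, map_add, ha, hb, map_add, map_add]

lemma as_odd {x : W.H X} (hx : AS W X x) (j : ℕ) : proj (W.isInternal X) (2 * j + 1) x = 0 := by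
  refine AS.ind (p := fun x => proj (W.isInternal X) (2 * j + 1) x = 0) ?_ ?_ hx
  · intro i x hx
    exact proj_ne _ (alg_gr hx) (by omega)
  · intro a b ha hb
    rw [map_add, ha, hb, add_zero]

lemma proj (F : Fz W X D f) (h : CL W X D f x) (i : ℕ) :
    CL W X D f (H914.proj (W.isInternal X) i x) := by
  refine coind (P := fun y => ∃ i x, CL W X D f x ∧ y = H914.proj (W.isInternal X) i x) ?_ ?_ ?_
    ⟨i, x, h, rfl⟩
  · rintro _ ⟨i, x, hx, rfl⟩
    rcases Nat.even_or_odd i with ⟨j, hj⟩ | ⟨j, hj⟩
    · rw [show i = 2 * j by omega]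
      exact AS.of (hx.as.proj j)
    · rw [hj, as_odd hx.as]; exact AS.zero
  · rintro _ ⟨i, x, hx, rfl⟩
    exact ⟨i + 2, _, hx.e, proj_e F i x⟩
  · rintro _ ⟨i, x, hx, rfl⟩
    rcases lt_or_ge i 2 with hi | hi
    · refine ⟨0, 0, zero, ?_⟩
      rw [(F.f_gr (proj_mem _ i x)).2 hi, map_zero]
    · obtain ⟨j, rfl⟩ : ∃ j, i = j + 2 := ⟨i - 2, by omega⟩
      exact ⟨j, _, hx.low, proj_f F j x⟩

lemma co_e : CO W X D f (LinearMap.mulLeft W.K (W.cl X D)) := fun _ hx => hx.e

lemma co_f : CO W X D f f := fun _ hx => hx.low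

lemma co_wop (F : Fz W X D f) : CO W X D f (wop W X D f) :=
  CO.wey co_e co_f F.sl2.nil_e F.sl2.nil_f

lemma st (F : Fz W X D f) (h : CL W X D f x) : CL W X D f (W552.st W X D f x) := by
  rw [Fr.AS_sum h.as, map_sum]
  apply ratSub.sum
  intro j _
  rw [st_apply (proj_mem _ _ _)]
  have := (co_wop F _ (h.proj F (2 * j))).smul (sg (2 * j) : ℚ)
  simpa using this

/-- The form is rational on these classes. -/
lemma rat (F : Fz W X D f) (hx : AS W X x) (hy : CL W X D f y) :
    ∃ q : ℚ, bf W X D f x y = q := by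
  rw [bf_apply]
  exact (hx.mul (hy.st F).as).tr

lemma pow_e (h : CL W X D f x) (j : ℕ) :
    CL W X D f ((LinearMap.mulLeft W.K (W.cl X D) ^ j) x) := co_e.pow j x h

/-- Primitive algebraic classes. -/
lemma prim (F : Fz W X D f) {n : ℕ} (hn : 2 * n ≤ X.dim) {z : X.Cycles}
    (hz : Primitive W X D n z) : CL W X D f (W.cl X z) := by
  set L := LinearMap.mulLeft W.K (W.cl X D) with hL
  have hwt : wt (W.isInternal X) X.dim (W.cl X z) =
      -((X.dim - 2 * n : ℕ) : W.K) • W.cl X z := by
    rw [Fr.wt_gr (W.cl_mem hz.1), Nat.cast_sub hn]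
    congr 1
    push_cast
    ring
  have hfz : f (W.cl X z) = 0 := by
    apply F.sl2.f_eq_zero hwt
    rw [← cl_divPow]
    exact hz.2
  refine coind (P := fun y => ∃ (q : ℚ) (i : ℕ), y = (q : W.K) • (L ^ i) (W.cl X z)) ?_ ?_ ?_
    ⟨1, 0, by simp⟩
  · rintro _ ⟨q, i, rfl⟩
    apply AS.smul
    rw [← cl_divPow]
    exact AS.of ⟨_, divPow_mem F.hD i hz.1, rfl⟩
  · rintro _ ⟨q, i, rfl⟩
    refine ⟨q, i + 1, ?_⟩
    rw [pow_succ', Module.End.mul_apply, mul_smul_comm]
    rfl
  · rintro _ ⟨q, i, rfl⟩
    cases i with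
    | zero =>
      refine ⟨0, 0, ?_⟩
      rw [map_smul, pow_zero, Module.End.one_apply, hfz]
      simp
    | succ i =>
      refine ⟨q * (((i : ℚ) + 1) * ((X.dim - 2 * n : ℕ) - i)), i, ?_⟩
      rw [map_smul, Sl2.f_e_pow F.sl2 hfz hwt, smul_smul]
      push_cast
      rfl

end CL

namespace PL

variable {p : V ⟶ A} {q : V ⟶ B} {DV : V.Cycles} {fV : Module.End W.K (W.H V)} {DA : A.Cycles}
  {fA : Module.End W.K (W.H A)} {DB : B.Cycles} {fB : Module.End W.K (W.H B)}
  (h : PL W p q DV fV DA fA DB fB)

include h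

lemma he (a : W.H A) (b : W.H B) : W.cl V DV * (W.map p a * W.map q b) =
    W.map p (W.cl A DA * a) * W.map q b + W.map p a * W.map q (W.cl B DB * b) := by
  have h1 : W.cl B DB ∈ W.gr B (2 * 1) := W.cl_mem h.FB.hD
  rw [h.hL, add_mul, map_mul, map_mul, ← mul_assoc, ← mul_assoc,
    W.even_comm (W.map_mem q h1) (W.map p a), mul_assoc (W.map p a)]

/-- External products of these classes. -/
lemma cl_E {a : W.H A} {b : W.H B} (ha : CL W A DA fA a) (hb : CL W B DB fB b) :
    CL W V DV fV (W.map p a * W.map q b) := by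
  intro l
  induction l generalizing a b with
  | nil => exact (ha.as.map p).mul (hb.as.map q)
  | cons c l ih =>
    cases c with
    | true =>
      rw [CL.word_true, h.he, map_add]
      exact (ih ha.e hb).add (ih ha hb.e)
    | false =>
      rw [CL.word_false, h.hf, map_add]
      exact (ih ha.low hb).add (ih ha hb.low)

/-- The star operator on an external product. -/
lemma st_E {b : W.H B} (hb : AS W B b) (a : W.H A) : st W V DV fV (W.map p a * W.map q b) =
    W.map p (st W A DA fA a) * W.map q (st W B DB fB b) := by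
  refine AS.ind (p := fun b => st W V DV fV (W.map p a * W.map q b) =
    W.map p (st W A DA fA a) * W.map q (st W B DB fB b)) ?_ ?_ hb
  swap
  · intro b c hb hc
    rw [map_add, mul_add, map_add, hb, hc, map_add, map_add, mul_add]
  intro l b hb
  refine gr_induction (W.isInternal A) (p := fun a => st W V DV fV (W.map p a * W.map q b) =
    W.map p (st W A DA fA a) * W.map q (st W B DB fB b)) ?_ ?_ a
  swap
  · intro a c ha hc
    rw [map_add, add_mul, map_add, ha, hc, map_add, map_add, add_mul]
  intro i a ha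
  by_cases hi : i ≤ 2 * A.dim
  swap
  · rw [W.gr_eq_bot A i (by omega)] at ha
    rw [(Submodule.mem_bot _).1 ha]; simp
  rw [← sub_eq_zero]
  apply nondeg_right
  intro v
  rw [mul_sub, map_sub, sub_eq_zero]
  refine h.ind (P := fun v => W.tr V (v * st W V DV fV (W.map p a * W.map q b)) =
    W.tr V (v * (W.map p (st W A DA fA a) * W.map q (st W B DB fB b)))) ?_ ?_ v
  · intro x y hx hy
    rw [add_mul, map_add, hx, hy, add_mul, map_add]
  intro i' j' a' ha' b' hb'
  have h1 := h.form a' b' a b
  rw [bf_apply, bf_apply, bf_apply] at h1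
  rw [h1]
  have hst : st W A DA fA a ∈ W.gr A (2 * A.dim - i) := by
    rw [st_apply ha]
    exact Submodule.smul_mem _ _ (h.FA.w_mem hi ha)
  have h2 : W.map p a' * W.map q b' * (W.map p (st W A DA fA a) * W.map q (st W B DB fB b)) =
      (-1 : W.K) ^ (j' * (2 * A.dim - i)) • (W.map p (a' * st W A DA fA a) *
        W.map q (b' * st W B DB fB b)) := by
    rw [mul_assoc, ← mul_assoc (W.map q b'), W.comm (W.map_mem q hb') (W.map_mem p hst),
      smul_mul_assoc, mul_smul_comm, map_mul, map_mul]
    simp only [mul_assoc]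
  rw [h2, map_smul, h.tr, smul_eq_mul]
  by_cases hj : j' = 2 * l
  · rw [hj, show 2 * l * (2 * A.dim - i) = 2 * (l * (2 * A.dim - i)) by ring, pow_mul]
    simp
  · have h3 := h.FB.bf_deg hb' (alg_gr hb) hj
    rw [bf_apply] at h3
    rw [h3]
    ring

/-- Contraction is adjoint to the external product. -/
lemma adj {b : W.H B} (hb : CL W B DB fB b) (w : W.H V) (a : W.H A) :
    bf W V DV fV w (W.map p a * W.map q b) =
      bf W A DA fA (W.push p (w * W.map q (st W B DB fB b))) a := by
  rw [bf_apply, bf_apply, h.st_E hb.as, W.tr_push, mul_assoc,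
    ((hb.st h.FB).as.map q).comm (W.map p (st W A DA fA a))]

/-- Contraction and the raising operator. -/
lemma e_C {b : W.H B} (hb : CL W B DB fB b) (w : W.H V) :
    W.cl A DA * W.push p (w * W.map q (st W B DB fB b)) =
      W.push p ((W.cl V DV * w) * W.map q (st W B DB fB b)) -
        W.push p (w * W.map q (st W B DB fB (fB b))) := by
  rw [← sub_eq_zero]
  apply h.FA.nondeg'
  intro a
  rw [map_sub, LinearMap.sub_apply, map_sub, LinearMap.sub_apply, h.FA.bf_e_left, ← h.adj hb,
    ← h.adj hb, ← h.adj hb.low, h.FV.bf_e_left, h.hf, map_add]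
  ring

/-- Contraction and the lowering operator. -/
lemma f_C {b : W.H B} (hb : CL W B DB fB b) (w : W.H V) :
    fA (W.push p (w * W.map q (st W B DB fB b))) =
      W.push p ((fV w) * W.map q (st W B DB fB b)) -
        W.push p (w * W.map q (st W B DB fB (W.cl B DB * b))) := by
  rw [← sub_eq_zero]
  apply h.FA.nondeg'
  intro a
  rw [map_sub, LinearMap.sub_apply, map_sub, LinearMap.sub_apply, h.FA.bf_f_left, ← h.adj hb,
    ← h.adj hb, ← h.adj hb.e, h.FV.bf_f_left, h.he, map_add]
  ring

/-- Contraction of these classes. -/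
lemma cl_C {b : W.H B} {w : W.H V} (hb : CL W B DB fB b) (hw : CL W V DV fV w) :
    CL W A DA fA (W.push p (w * W.map q (st W B DB fB b))) := by
  intro l
  induction l generalizing b w with
  | nil => exact (hw.as.mul ((hb.st h.FB).as.map q)).push p
  | cons c l ih =>
    have hs : ∀ x y : W.H A, AS W A x → AS W A y → AS W A (x - y) := fun x y hx hy =>
      AS.ratSub.sub hx hy
    cases c with
    | true =>
      rw [CL.word_true, h.e_C hb, map_sub]
      exact hs _ _ (ih hb hw.e) (ih hb.low hw)
    | false =>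
      rw [CL.word_false, h.f_C hb, map_sub]
      exact hs _ _ (ih hb hw.low) (ih hb.e hw)

/-- Contraction of an external product. -/
lemma C_E {b : W.H B} (hb : CL W B DB fB b) (a : W.H A) (c : W.H B) :
    W.push p ((W.map p a * W.map q c) * W.map q (st W B DB fB b)) = bf W B DB fB c b • a := by
  rw [← sub_eq_zero]
  apply h.FA.nondeg'
  intro z
  rw [map_sub, LinearMap.sub_apply, ← h.adj hb, h.form, map_smul, LinearMap.smul_apply,
    smul_eq_mul]
  ring

end PL

end Pool.Agent.H66SG
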