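import Pool.Agent.H66SG.Rec
import Pool.Agent.H66SG.Ana

/-!
# The pair of classes, and the counts
-/

set_option autoImplicit false

open CategoryTheory AlgebraicGeometry Finset

universe u v

namespace Pool.Agent.H66SG

open Pool.Agent.H914 Pool.Agent.H914.VarClass Pool.Agent.H914.VarClass.Obj
  Pool.Agent.H914.WeilCohomology Pool.Agent.H281R3.HT Pool.Agent.W552 Pool.Agent.TH720.LB
  Pool.Agent.X310 Pool.Agent.X310.Mom Pool.Agent.W539.Ker

variable {k : Type u} [Field k] {𝒱 : VarClass k} {ops : CycleOps 𝒱}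
  {W : WeilCohomology.{u, v} ops} {X V A B : 𝒱.Obj} {D : X.Cycles}
  {f : Module.End W.K (W.H X)}

/-- The fundamental cycle is primitive. -/
lemma prim_fund (F : Fz W X D f) : Primitive W X D 0 X.V.fundCycle := by
  refine ⟨X.V.fundCycle_mem, ?_⟩
  rw [cl_divPow, W.cl_fund]
  have h1 := pow_L_mem (mulLeft_isHom F.hD) (W.one_mem X) (X.dim - 2 * 0 + 1)
  rw [W_hbd _ (by omega)] at h1
  exact (Submodule.mem_bot _).1 h1

lemma cl_one (F : Fz W X D f) : CL W X D f 1 := by
  rw [← W.cl_fund X]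
  exact CL.prim F (by omega) (prim_fund F)

/-- The square of the unit. -/
lemma one_sq (F : Fz W X D f) : bf W X D f 1 1 =
    ((((X.dim).factorial : ℚ)⁻¹ * pairing ops X D 0 X.V.fundCycle X.V.fundCycle : ℚ) : W.K) := by
  have h := F.form_prim (j := 0) (by omega) (prim_fund F).1 (prim_fund F).2
  rw [W.cl_fund] at h
  rw [h, pairing]
  congr 1
  simp

lemma one_sq_pos (F : Fz W X D f) (hdeg : 0 < X.V.degCycle (divPow ops D X.dim X.V.fundCycle)) :
    ∃ q : ℚ, 0 < q ∧ bf W X D f 1 1 = (q : W.K) := by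
  refine ⟨_, ?_, one_sq F⟩
  apply mul_pos (by positivity)
  have h1 : ((pairing ops X D 0 X.V.fundCycle X.V.fundCycle : ℚ) : W.K) =
      ((X.V.degCycle (divPow ops D X.dim X.V.fundCycle) : ℚ) : W.K) := by
    have h2 := divPow_mem (ops := ops) F.hD X.dim X.V.fundCycle_mem
    rw [zero_add] at h2
    rw [pairing_cast F.hD (by omega) X.V.fundCycle_mem X.V.fundCycle_mem, W.cl_fund, one_mul,
      pow_zero, one_mul, ← W.tr_cl h2, cl_divPow, W.cl_fund]
    rfl
  have h3 : pairing ops X D 0 X.V.fundCycle X.V.fundCycle =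
      X.V.degCycle (divPow ops D X.dim X.V.fundCycle) := by exact_mod_cast h1
  rw [h3]
  exact hdeg

/-- The square of the unit on the powers. -/
lemma one_sq_pw (F : Fz W X D f) (h1 : ∃ q : ℚ, 0 < q ∧ bf W X D f 1 1 = (q : W.K)) (M : ℕ) :
    ∃ q : ℚ, 0 < q ∧ bp W D f M 1 1 = (q : W.K) := by
  induction M with
  | zero => exact h1
  | succ M ih =>
    obtain ⟨q, hq, hq'⟩ := h1
    obtain ⟨r, hr, hr'⟩ := ih
    refine ⟨r * q, mul_pos hr hq, ?_⟩
    have h2 := (pl_pw F M 0 0 (by omega)).form 1 1 1 1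
    simp only [map_one, mul_one] at h2
    change bp W D f (M + 0 + 1) 1 1 = _
    rw [h2, Rat.cast_mul, ← hr', ← hq']
    rfl

/-- The pair given by a primitive class with negative square. -/
theorem exists_pair (F : Fz W X D f) (h1 : ∃ q : ℚ, 0 < q ∧ bf W X D f 1 1 = (q : W.K))
    {s n : ℕ} (hn : 2 * n ≤ (pw X s).dim) {z : (pw X s).Cycles}
    (hz : Primitive W (pw X s) (pwDiv ops D s) n z)
    (hneg : pairing ops (pw X s) (pwDiv ops D s) n z z < 0) :
    ∃ b l μ, Pair W D f s b l μ := by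
  have G := pw_fz F s
  set x := W.cl (pw X s) z with hx
  have hxc : CP W D f s x := CL.prim G hn hz
  obtain ⟨lx, hlx, hlx'⟩ : ∃ q : ℚ, q < 0 ∧ bp W D f s x x = (q : W.K) := by
    refine ⟨_, ?_, G.form_prim hn hz.1 hz.2⟩
    rw [mul_left_comm]
    exact mul_neg_of_pos_of_neg (by positivity) hneg
  set y0 := (LinearMap.mulLeft W.K (W.cl (pw X s) (pwDiv ops D s)) ^ n) (1 : W.H (pw X s))
    with hy0
  have hyc : CP W D f s y0 := (cl_one G).pow_e n
  obtain ⟨ly, hly, hly'⟩ : ∃ q : ℚ, 0 < q ∧ bp W D f s y0 y0 = (q : W.K) := by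
    obtain ⟨q, hq, hq'⟩ := one_sq_pw F h1 s
    have h2 := one_sq G
    have h3 : 0 < pairing ops (pw X s) (pwDiv ops D s) 0 (pw X s).V.fundCycle
        (pw X s).V.fundCycle := by
      have h4 : q = (((pw X s).dim).factorial : ℚ)⁻¹ *
          pairing ops (pw X s) (pwDiv ops D s) 0 (pw X s).V.fundCycle
            (pw X s).V.fundCycle := by
        have : (q : W.K) = _ := hq'.symm.trans h2
        exact_mod_cast this
      rw [h4] at hq
      exact (mul_pos_iff_of_pos_left (by positivity)).1 hq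
    have h5 := bf_same G (n := 0) (by omega) (prim_fund G) (prim_fund G) (j := n) (by omega)
    rw [W.cl_fund] at h5
    exact ⟨_, mul_pos (by positivity) h3, h5⟩
  obtain ⟨c, hc⟩ := CL.rat G hyc.as hxc
  have hc' : bp W D f s y0 x = (c : W.K) := hc
  set y := y0 + ((-(c / lx) : ℚ) : W.K) • x with hy
  have hlxK : (lx : W.K) ≠ 0 := by exact_mod_cast hlx.ne
  have hyx : bp W D f s y x = 0 := by
    rw [hy, map_add, LinearMap.add_apply, map_smul, LinearMap.smul_apply, hc', hlx',
      smul_eq_mul]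
    push_cast
    field_simp
    ring
  have hxy : bp W D f s x y = 0 := by
    have hyas : CP W D f s y := hyc.add (hxc.smul _)
    rw [G.symm_as hxc.as hyas.as]
    exact hyx
  have hyy : bp W D f s y y = ((ly - c * c / lx : ℚ) : W.K) := by
    have h6 : bp W D f s y y = bp W D f s y y0 + ((-(c / lx) : ℚ) : W.K) • bp W D f s y x := by
      conv_lhs => rw [hy]
      rw [← hy, map_add, map_smul]
    have h7 : bp W D f s x y0 = (c : W.K) := by
      rw [← hc']; exact G.symm_as hxc.as hyc.as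
    rw [h6, hyx, smul_zero, add_zero, hy, map_add, LinearMap.add_apply, map_smul,
      LinearMap.smul_apply, hly', h7, smul_eq_mul]
    push_cast
    ring
  have hwx : wt (W.isInternal (pw X s)) (pw X s).dim x =
      ((2 * (n : ℤ) - (pw X s).dim : ℤ) : W.K) • x := by
    rw [Fr.wt_gr (W.cl_mem hz.1)]
    push_cast
    rfl
  have hwy : wt (W.isInternal (pw X s)) (pw X s).dim y0 =
      ((2 * (n : ℤ) - (pw X s).dim : ℤ) : W.K) • y0 := by
    have h8 := pow_L_mem (mulLeft_isHom G.hD) (W.one_mem (pw X s)) n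
    rw [Fr.wt_gr h8]
    push_cast
    rw [zero_add]
  refine ⟨fun ε => if ε then y else x, fun ε => if ε then ly - c * c / lx else lx,
    2 * (n : ℤ) - (pw X s).dim, ?_, ?_, ?_, ?_, ?_, ?_⟩
  · intro ε
    cases ε
    · exact hxc
    · exact hyc.add (hxc.smul _)
  · intro ε
    cases ε
    · exact hwx
    · change wt (W.isInternal (pw X s)) (pw X s).dim y = _ • y
      rw [hy, map_add, map_smul, hwx, hwy, smul_add, smul_comm]
  · intro ε
    cases ε
    · exact hlx'
    · exact hyy
  · intro ε ε' hne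
    cases ε <;> cases ε'
    · exact absurd rfl hne
    · exact hxy
    · exact hyx
    · exact absurd rfl hne
  · change 0 < ly - c * c / lx
    have : c * c / lx ≤ 0 := div_nonpos_of_nonneg_of_nonpos (mul_self_nonneg c) hlx.le
    linarith
  · exact hlx

/-- The dimension of the cohomology of a product. -/
lemma finrank_prod (X Y : 𝒱.Obj) : Module.finrank W.K (W.H (X.prod Y)) =
    Module.finrank W.K (W.H X) * Module.finrank W.K (W.H Y) := by
  rw [← Module.finrank_tensorProduct]
  exact (LinearEquiv.ofBijective _ (W.kunneth X Y)).finrank_eq.symm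

lemma finrank_pw (X : 𝒱.Obj) (M : ℕ) : Module.finrank W.K (W.H (pw X M)) =
    Module.finrank W.K (W.H X) ^ (M + 1) := by
  induction M with
  | zero => rw [zero_add, pow_one]; rfl
  | succ M ih =>
    change Module.finrank W.K (W.H (X.prod (pw X M))) = _
    rw [finrank_prod, ih, pow_succ' _ (M + 1)]

end Pool.Agent.H66SG
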