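import Pool.Agent.W539.Ker.Defs
import Pool.Agent.X310.Mom5

/-!
# Positive and negative squares on the powers of a variety: definitions
-/

set_option autoImplicit false

open CategoryTheory AlgebraicGeometry Finset

universe u v

namespace Pool.Agent.H66SG

open Pool.Agent.H914 Pool.Agent.H914.VarClass Pool.Agent.H914.VarClass.Obj
  Pool.Agent.H914.WeilCohomology Pool.Agent.X310 Pool.Agent.X310.Mom Pool.Agent.W539.Ker

variable {k : Type u} [Field k] {𝒱 : VarClass k} {ops : CycleOps 𝒱}

/-- The number of positive squares in codimension `n`: the largest number of pairwise orthogonal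
primitive cycles of codimension `n` on `Y` with positive squares. -/
noncomputable def posSq (W : WeilCohomology.{u, v} ops) (Y : 𝒱.Obj) (E : Y.Cycles) (n : ℕ) : ℕ :=
  sSup {r | HasFamily W Y E n 1 r}

/-- The number of negative squares in codimension `n`. -/
noncomputable def negSq (W : WeilCohomology.{u, v} ops) (Y : 𝒱.Obj) (E : Y.Cycles) (n : ℕ) : ℕ :=
  sSup {r | HasFamily W Y E n (-1) r}

/-- The number of positive squares on `Y`, in all codimensions `n ≤ dim Y / 2`. -/
noncomputable def positives (W : WeilCohomology.{u, v} ops) (Y : 𝒱.Obj) (E : Y.Cycles) : ℕ :=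
  ∑ n ∈ range (Y.dim / 2 + 1), posSq W Y E n

/-- The number of squares, positive or negative, on `Y`. -/
noncomputable def squares (W : WeilCohomology.{u, v} ops) (Y : 𝒱.Obj) (E : Y.Cycles) : ℕ :=
  ∑ n ∈ range (Y.dim / 2 + 1), (posSq W Y E n + negSq W Y E n)

/-- The sum over the codimensions `n ≤ dim Y / 2` of the absolute value of the signature. -/
noncomputable def imbalance (W : WeilCohomology.{u, v} ops) (Y : 𝒱.Obj) (E : Y.Cycles) : ℤ :=
  ∑ n ∈ range (Y.dim / 2 + 1), |(posSq W Y E n : ℤ) - negSq W Y E n|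

/-- The pairing is nonnegative: no primitive cycle of codimension `n ≤ dim Y / 2` has a negative
square. -/
def NoNegative (W : WeilCohomology.{u, v} ops) (Y : 𝒱.Obj) (E : Y.Cycles) : Prop :=
  ∀ n z, 2 * n ≤ Y.dim → Primitive W Y E n z → 0 ≤ pairing ops Y E n z z

/-- The pairing is nondegenerate on the classes of the primitive cycles of each codimension
`n ≤ dim Y / 2`. -/
def Nondegenerate (W : WeilCohomology.{u, v} ops) (Y : 𝒱.Obj) (E : Y.Cycles) : Prop :=
  ∀ n z, 2 * n ≤ Y.dim → Primitive W Y E n z →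
    (∀ w, Primitive W Y E n w → pairing ops Y E n z w = 0) → W.cl Y z = 0

/-- On the powers `X ^ (M + 1)` the positive and the negative squares balance up to an exponentially
small proportion: for every `ρ > 0` with `ρ ^ (s + 1) > 1 - 2 / b ^ (s + 1)`, `b = dim H(X)`, the
sum of the absolute values of the signatures is at most `C ρ ^ M` times the number of squares. -/
def Balanced (W : WeilCohomology.{u, v} ops) (X : 𝒱.Obj) (D : X.Cycles) (s : ℕ) : Prop :=
  ∀ ρ : ℝ, 0 < ρ → 1 - 2 / (Module.finrank W.K (W.H X) : ℝ) ^ (s + 1) < ρ ^ (s + 1) →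
    ∃ C : ℝ, ∀ M, (imbalance W (pw X M) (pwDiv ops D M) : ℝ) ≤
      C * ρ ^ M * squares W (pw X M) (pwDiv ops D M)

/-- For some `ε > 0`, on infinitely many powers of `X` at least `(1 / 2 + ε)` of the squares are
positive. -/
def Majority (W : WeilCohomology.{u, v} ops) (X : 𝒱.Obj) (D : X.Cycles) : Prop :=
  ∃ ε : ℝ, 0 < ε ∧ ∀ M₀, ∃ M, M₀ ≤ M ∧
    (1 / 2 + ε) * squares W (pw X M) (pwDiv ops D M) ≤ positives W (pw X M) (pwDiv ops D M)

/-- A class of pairs `(Y, E)` (for example all varieties with an ample divisor `E`), closed under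
the powers, in which `E` has codimension one, satisfies hard Lefschetz and has `E ^ dim Y` of
positive degree. -/
structure IsAmpleClass (W : WeilCohomology.{u, v} ops) (P : ∀ Y : 𝒱.Obj, Y.Cycles → Prop) :
    Prop where
  div : ∀ {Y : 𝒱.Obj} {E : Y.Cycles}, P Y E → Y.IsCyc 1 E
  hard : ∀ {Y : 𝒱.Obj} {E : Y.Cycles}, P Y E → HardLefschetz W Y E
  degree : ∀ {Y : 𝒱.Obj} {E : Y.Cycles}, P Y E →
    0 < Y.V.degCycle (divPow ops E Y.dim Y.V.fundCycle)
  powers : ∀ {Y : 𝒱.Obj} {E : Y.Cycles}, P Y E → ∀ M, P (pw Y M) (pwDiv ops E M)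

end Pool.Agent.H66SG
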