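import Pool.Agent.W552.RatBasis
import Pool.Agent.W539.Ker.Inertia

/-!
# Rational forms on rational subspaces: rank and signature
-/

set_option autoImplicit false

open Finset

namespace Pool.Agent.H66SG

open Pool.Agent.W552 Pool.Agent.W539.Ker

section OMs

variable {M : Type*} [AddCommGroup M] [Module ℚ M] {B : M →ₗ[ℚ] M →ₗ[ℚ] ℚ}

/-- The number of vectors in an orthogonal family of vectors with positive squares. -/
lemma om_pos_le (hB : ∀ x y, B x y = B y x) {ι κ : Type*} [Fintype ι] [Fintype κ] {x : ι → M}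
    (h : OM B x) {z : κ → M} (hz0 : ∀ i j, i ≠ j → B (z i) (z j) = 0) :
    (univ.filter (fun i => 0 < B (z i) (z i))).card ≤
      (univ.filter (fun i => 0 < B (x i) (x i))).card := by
  classical
  let e := Fintype.equivFinOfCardEq (α := {i // 0 < B (z i) (z i)})
    (Fintype.card_subtype (fun i => 0 < B (z i) (z i)))
  exact h.sylvester hB (z := fun i => z (e.symm i).1) (fun i => (e.symm i).2)
    (fun i j hij => hz0 _ _ (fun h0 => hij (e.symm.injective (Subtype.ext h0))))

lemma card_split {κ : Type*} [Fintype κ] {z : κ → M} (hz : ∀ i, B (z i) (z i) ≠ 0) :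
    Fintype.card κ = (univ.filter (fun i => 0 < B (z i) (z i))).card +
      (univ.filter (fun i => 0 < (-B) (z i) (z i))).card := by
  classical
  rw [← Finset.card_univ, ← Finset.card_filter_add_card_filter_not
    (s := univ) (fun i => 0 < B (z i) (z i))]
  congr 2
  ext i
  rw [Finset.mem_filter, Finset.mem_filter, LinearMap.neg_apply, LinearMap.neg_apply, neg_pos,
    not_lt]
  constructor
  · rintro ⟨h1, h2⟩
    exact ⟨h1, lt_of_le_of_ne h2 (hz i)⟩
  · rintro ⟨h1, h2⟩
    exact ⟨h1, h2.le⟩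

lemma neg_symm (hB : ∀ x y, B x y = B y x) (x y : M) : (-B) x y = (-B) y x := by
  rw [LinearMap.neg_apply, LinearMap.neg_apply, LinearMap.neg_apply, LinearMap.neg_apply, hB]

/-- A maximal orthogonal family has the largest cardinality. -/
lemma om_card_le (hB : ∀ x y, B x y = B y x) {ι κ : Type*} [Fintype ι] [Fintype κ] {x : ι → M}
    (h : OM B x) {z : κ → M} (hz : ∀ i, B (z i) (z i) ≠ 0)
    (hz0 : ∀ i j, i ≠ j → B (z i) (z j) = 0) : Fintype.card κ ≤ Fintype.card ι := by
  rw [card_split hz, card_split h.ne]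
  refine add_le_add (om_pos_le hB h hz0) (om_pos_le (neg_symm hB) h.neg ?_)
  intro i j hij
  rw [LinearMap.neg_apply, LinearMap.neg_apply, hz0 i j hij, neg_zero]

end OMs

variable {K : Type*} [Field K] [CharZero K] {V : Type*} [AddCommGroup V] [Module K V]

/-- A rational subspace with a rational symmetric form. -/
structure RF (β : V →ₗ[K] V →ₗ[K] K) (P : V → Prop) : Prop where
  sub : RatSub K P
  rat : ∀ x y, P x → P y → ∃ q : ℚ, β x y = q
  symm : ∀ x y, P x → P y → β x y = β y x

/-- A maximal orthogonal family of anisotropic vectors. -/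
structure OF (β : V →ₗ[K] V →ₗ[K] K) (P : V → Prop) {ι : Type*} (y : ι → V) (t : ι → ℚ) :
    Prop where
  mem : ∀ i, P (y i)
  ne : ∀ i, t i ≠ 0
  sq : ∀ i, β (y i) (y i) = (t i : K)
  orth : ∀ i j, i ≠ j → β (y i) (y j) = 0
  max : ∀ u, P u → (∀ i, β u (y i) = 0) → β u u = 0

/-- The form on `P` has rank `r` and signature `σ`. -/
def Sz (β : V →ₗ[K] V →ₗ[K] K) (P : V → Prop) (r : ℕ) (σ : ℤ) : Prop :=
  ∃ (ι : Type) (_ : Fintype ι) (y : ι → V) (t : ι → ℚ), OF β P y t ∧ Fintype.card ι = r ∧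
    ∑ i, ((SignType.sign (t i) : SignType) : ℤ) = σ

section Mod

variable {β : V →ₗ[K] V →ₗ[K] K} {P : V → Prop}

/-- The rational vector space. -/
noncomputable def ratModule (K : Type*) [Field K] [CharZero K] (V : Type*) [AddCommGroup V]
    [Module K V] : Module ℚ V := Module.compHom V (algebraMap ℚ K)

/-- The rational subspace as a submodule. -/
noncomputable def RF.S (h : RF β P) : @Submodule ℚ V _ _ (ratModule K V) :=
  letI := ratModule K V
  { carrier := {x | P x}
    add_mem' := fun hx hy => h.sub.add hx hy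
    zero_mem' := h.sub.zero
    smul_mem' := fun q _ hx => h.sub.smul q hx }

/-- The rational form. -/
theorem RF.exists_form (h : RF β P) : letI := ratModule K V
    ∃ B : h.S →ₗ[ℚ] h.S →ₗ[ℚ] ℚ, (∀ x y : h.S, ((B x y : ℚ) : K) = β (x : V) (y : V)) ∧
      ∀ x y, B x y = B y x := by
  letI := ratModule K V
  choose b hb using fun x y : h.S => h.rat x y x.2 y.2
  have hinj : Function.Injective (fun q : ℚ => (q : K)) := Rat.cast_injective
  have hsm : ∀ (q : ℚ) (x : V), q • x = (q : K) • x := fun q x => rfl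
  refine ⟨LinearMap.mk₂ ℚ b ?_ ?_ ?_ ?_, fun x y => (hb x y).symm, ?_⟩
  · intro x x' y
    apply hinj
    beta_reduce
    rw [Rat.cast_add, ← hb, ← hb, ← hb, Submodule.coe_add, map_add, LinearMap.add_apply]
  · intro q x y
    apply hinj
    beta_reduce
    rw [smul_eq_mul, Rat.cast_mul, ← hb, ← hb, Submodule.coe_smul, hsm, map_smul,
      LinearMap.smul_apply, smul_eq_mul]
  · intro x y y'
    apply hinj
    beta_reduce
    rw [Rat.cast_add, ← hb, ← hb, ← hb, Submodule.coe_add, map_add]
  · intro q x y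
    apply hinj
    beta_reduce
    rw [smul_eq_mul, Rat.cast_mul, ← hb, ← hb, Submodule.coe_smul, hsm, map_smul, smul_eq_mul]
  · intro x y
    apply hinj
    change (b x y : K) = b y x
    rw [← hb, ← hb, h.symm _ _ x.2 y.2]

/-- Comparison with the maximal orthogonal families of the rational form. -/
lemma RF.om_of (h : RF β P) {ι : Type*} {y : ι → V} {t : ι → ℚ} (hy : OF β P y t) :
    letI := ratModule K V
    ∀ B : h.S →ₗ[ℚ] h.S →ₗ[ℚ] ℚ, (∀ x y : h.S, ((B x y : ℚ) : K) = β (x : V) (y : V)) →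
      OM B (fun i => (⟨y i, hy.mem i⟩ : h.S)) ∧ ∀ i, B ⟨y i, hy.mem i⟩ ⟨y i, hy.mem i⟩ = t i := by
  intro B hB
  have hinj : Function.Injective (fun q : ℚ => (q : K)) := Rat.cast_injective
  have h1 : ∀ i, B ⟨y i, hy.mem i⟩ ⟨y i, hy.mem i⟩ = t i := by
    intro i
    apply hinj
    beta_reduce
    rw [hB, hy.sq]
  refine ⟨⟨?_, ?_, ?_⟩, h1⟩
  · intro i
    rw [h1]
    exact hy.ne i
  · intro i j hij
    apply hinj
    beta_reduce
    rw [hB, hy.orth i j hij, Rat.cast_zero]
  · intro u hu
    apply hinj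
    beta_reduce
    rw [hB, hy.max u u.2 ?_, Rat.cast_zero]
    intro i
    have := hB u ⟨y i, hy.mem i⟩
    rw [hu i, Rat.cast_zero] at this
    exact this.symm

/-- **Any orthogonal family of anisotropic vectors is at most as large.** -/
theorem RF.le (h : RF β P) {r : ℕ} {σ : ℤ} (hs : Sz β P r σ) {κ : Type*} [Fintype κ]
    {z : κ → V} {s : κ → ℚ} (hz : ∀ i, P (z i)) (hs0 : ∀ i, s i ≠ 0)
    (hsq : ∀ i, β (z i) (z i) = (s i : K)) (hz0 : ∀ i j, i ≠ j → β (z i) (z j) = 0) :
    Fintype.card κ ≤ r := by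
  letI := ratModule K V
  obtain ⟨ι, _, y, t, hy, rfl, -⟩ := hs
  obtain ⟨B, hB, hBs⟩ := h.exists_form
  have hinj : Function.Injective (fun q : ℚ => (q : K)) := Rat.cast_injective
  obtain ⟨h1, -⟩ := h.om_of hy B hB
  refine om_card_le hBs h1 (z := fun i => (⟨z i, hz i⟩ : h.S)) ?_ ?_
  · intro i hi
    apply hs0 i
    apply hinj
    beta_reduce
    rw [← hsq, ← hB ⟨z i, hz i⟩ ⟨z i, hz i⟩, hi]
  · intro i j hij
    apply hinj
    beta_reduce
    rw [hB, hz0 i j hij, Rat.cast_zero]

/-- Uniqueness of the rank and the signature. -/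
theorem RF.unique (h : RF β P) {r r' : ℕ} {σ σ' : ℤ} (hs : Sz β P r σ) (hs' : Sz β P r' σ') :
    r = r' ∧ σ = σ' := by
  constructor
  · apply le_antisymm
    · obtain ⟨ι, _, y, t, hy, rfl, -⟩ := hs
      exact h.le hs' hy.mem hy.ne hy.sq hy.orth
    · obtain ⟨ι, _, y, t, hy, rfl, -⟩ := hs'
      exact h.le hs hy.mem hy.ne hy.sq hy.orth
  · letI := ratModule K V
    obtain ⟨ι, _, y, t, hy, -, rfl⟩ := hs
    obtain ⟨ι', _, y', t', hy', -, rfl⟩ := hs'
    obtain ⟨B, hB, hBs⟩ := h.exists_form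
    obtain ⟨h1, h2⟩ := h.om_of hy B hB
    obtain ⟨h1', h2'⟩ := h.om_of hy' B hB
    have e1 := h1.signature_eq hBs
    have e2 := h1'.signature_eq hBs
    simp only [h2, h2'] at e1 e2
    rw [← e1, ← e2]

/-- Existence of the rank and the signature. -/
theorem RF.exists_sz [Module.Finite K V] (h : RF β P) : ∃ r σ, Sz β P r σ := by
  letI := ratModule K V
  obtain ⟨B, hB, hBs⟩ := h.exists_form
  have hinj : Function.Injective (fun q : ℚ => (q : K)) := Rat.cast_injective
  obtain ⟨m, x, hx⟩ := exists_OM hBs (N := Module.finrank K V) (by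
    intro m x h1 h2
    have hli : LinearIndependent K (fun i => (x i : V)) := by
      rw [Fintype.linearIndependent_iff]
      intro g hg i
      have h3 := congrArg (fun a => β a (x i : V)) hg
      simp only [map_sum, map_smul, LinearMap.sum_apply, LinearMap.smul_apply, smul_eq_mul,
        map_zero, LinearMap.zero_apply] at h3
      rw [Finset.sum_eq_single i] at h3
      · rcases mul_eq_zero.1 h3 with h | h'
        · exact h
        · exfalso
          apply h1 i
          apply hinj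
          beta_reduce
          rw [hB, h', Rat.cast_zero]
      · intro j _ hj
        rw [← hB, h2 j i hj, Rat.cast_zero, mul_zero]
      · intro h; exact absurd (Finset.mem_univ _) h
    have := hli.fintype_card_le_finrank
    rwa [Fintype.card_fin] at this)
  refine ⟨m, _, Fin m, inferInstance, fun i => (x i : V), fun i => B (x i) (x i),
    ⟨fun i => (x i).2, hx.ne, fun i => (hB _ _).symm, ?_, ?_⟩, by simp, rfl⟩
  · intro i j hij
    rw [← hB, hx.orth i j hij, Rat.cast_zero]
  · intro u hu hu'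
    have := hB ⟨u, hu⟩ ⟨u, hu⟩
    rw [hx.max ⟨u, hu⟩ ?_, Rat.cast_zero] at this
    · exact this.symm
    · intro i
      apply hinj
      beta_reduce
      rw [hB, Rat.cast_zero]
      exact hu' i

/-- The rank is at most the dimension. -/
lemma Sz.le_finrank [Module.Finite K V] {r : ℕ} {σ : ℤ} (hs : Sz β P r σ) :
    r ≤ Module.finrank K V := by
  obtain ⟨ι, _, y, t, hy, rfl, -⟩ := hs
  have hli : LinearIndependent K y := by
    rw [Fintype.linearIndependent_iff]
    intro g hg i
    have h3 := congrArg (fun a => β a (y i)) hg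
    simp only [map_sum, map_smul, LinearMap.sum_apply, LinearMap.smul_apply, smul_eq_mul,
      map_zero, LinearMap.zero_apply] at h3
    rw [Finset.sum_eq_single i] at h3
    · rcases mul_eq_zero.1 h3 with h | h'
      · exact h
      · exfalso
        rw [hy.sq] at h'
        exact hy.ne i (by exact_mod_cast h')
    · intro j _ hj
      rw [hy.orth j i hj, mul_zero]
    · intro h; exact absurd (Finset.mem_univ _) h
  exact hli.fintype_card_le_finrank

lemma Sz.abs_le {r : ℕ} {σ : ℤ} (hs : Sz β P r σ) : |σ| ≤ r := by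
  obtain ⟨ι, _, y, t, hy, rfl, rfl⟩ := hs
  refine (Finset.abs_sum_le_sum_abs _ _).trans ?_
  rw [Finset.sum_congr rfl (g := fun _ => (1 : ℤ))]
  · simp
  · intro i _
    rcases lt_or_gt_of_ne (hy.ne i) with h | h
    · rw [sign_neg h]; simp
    · rw [sign_pos h]; simp

/-- The vectors orthogonal to a maximal orthogonal family are orthogonal to everything. -/
lemma OF.rad (h : RF β P) {ι : Type*} [Fintype ι] {y : ι → V} {t : ι → ℚ} (hy : OF β P y t)
    {v w : V} (hv : P v) (hw : P w) (hvy : ∀ i, β v (y i) = 0) : β v w = 0 := by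
  classical
  have ht : ∀ i, (t i : K) ≠ 0 := fun i => by exact_mod_cast hy.ne i
  choose q hq using fun i => h.rat w (y i) hw (hy.mem i)
  set p : V := ∑ i, ((q i / t i : ℚ) : K) • y i with hp
  have hpP : P p := h.sub.sum _ (fun i _ => h.sub.smul _ (hy.mem i))
  have hpy : ∀ i, β p (y i) = β w (y i) := by
    intro i
    rw [hp, map_sum, LinearMap.sum_apply, Finset.sum_eq_single i]
    · rw [map_smul, LinearMap.smul_apply, hy.sq, hq, smul_eq_mul, Rat.cast_div,
        div_mul_cancel₀ _ (ht i)]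
    · intro j _ hj
      rw [map_smul, LinearMap.smul_apply, hy.orth j i hj, smul_zero]
    · intro h; exact absurd (Finset.mem_univ _) h
  have hvp : β v p = 0 := by
    rw [hp, map_sum]
    apply Finset.sum_eq_zero
    intro i _
    rw [map_smul, hvy, smul_zero]
  have hw' : P (w - p) := h.sub.sub hw hpP
  have h1 : ∀ i, β (w - p) (y i) = 0 := by
    intro i
    rw [map_sub, LinearMap.sub_apply, hpy, sub_self]
  have h2 : ∀ i, β (v + (w - p)) (y i) = 0 := by
    intro i
    rw [map_add, LinearMap.add_apply, h1, hvy, add_zero]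
  have e1 := hy.max _ hv hvy
  have e2 := hy.max _ hw' h1
  have e3 := hy.max _ (h.sub.add hv hw') h2
  rw [map_add β, LinearMap.add_apply, map_add, map_add, e1, e2, zero_add, add_zero,
    h.symm _ _ hw' hv] at e3
  have e4 : β v (w - p) = 0 := by
    have : (2 : K) * β v (w - p) = 0 := by rw [two_mul]; exact e3
    rcases mul_eq_zero.1 this with h | h
    · exact absurd h two_ne_zero
    · exact h
  rw [map_sub, hvp, sub_zero] at e4
  exact e4

end Mod

section Split

variable {A : Type*} [AddCommGroup A] [Module K A] {β : V →ₗ[K] V →ₗ[K] K}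
  {α : A →ₗ[K] A →ₗ[K] K} {P P' : V → Prop} {Q : A → Prop}

/-- **Splitting off two copies of a form, with opposite signs.** -/
theorem sz_split (hP : RF β P) (hQ : RF α Q) (e : Bool → (A →ₗ[K] V)) (c : Bool → (V →ₗ[K] A))
    (l : Bool → ℚ) (hl1 : 0 < l true) (hl2 : l false < 0)
    (he : ∀ b a, Q a → P (e b a)) (hc : ∀ b w, P w → Q (c b w))
    (hadj : ∀ b w a, P w → Q a → β w (e b a) = α (c b w) a)
    (hee : ∀ b a a', β (e b a) (e b a') = (l b : K) * α a a')
    (hee' : ∀ b b' a a', b ≠ b' → β (e b a) (e b' a') = 0)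
    (hce : ∀ b a, c b (e b a) = (l b : K) • a)
    (hce' : ∀ b b' a, b ≠ b' → c b (e b' a) = 0)
    (hP' : ∀ w, P' w ↔ P w ∧ ∀ b, c b w = 0)
    {r r' : ℕ} {σ σ' : ℤ} (hs : Sz α Q r σ) (hs' : Sz β P' r' σ') :
    Sz β P (2 * r + r') σ' := by
  classical
  obtain ⟨ι, _, y, t, hy, rfl, hσ⟩ := hs
  obtain ⟨κ, _, y', t', hy', rfl, rfl⟩ := hs'
  have hl : ∀ b, l b ≠ 0 := by
    intro b
    cases b
    · exact hl2.ne
    · exact hl1.ne'
  have hl' : ∀ b, (l b : K) ≠ 0 := fun b => by exact_mod_cast hl b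
  have horth : ∀ k b i, β (y' k) (e b (y i)) = 0 := by
    intro k b i
    have h1 := (hP' _).1 (hy'.mem k)
    rw [hadj b _ _ h1.1 (hy.mem i), h1.2 b, map_zero, LinearMap.zero_apply]
  refine ⟨(Bool × ι) ⊕ κ, inferInstance, Sum.elim (fun x => e x.1 (y x.2)) y',
    Sum.elim (fun x => l x.1 * t x.2) t', ⟨?_, ?_, ?_, ?_, ?_⟩, ?_, ?_⟩
  · rintro (⟨b, i⟩ | k)
    · exact he b _ (hy.mem i)
    · exact ((hP' _).1 (hy'.mem k)).1
  · rintro (⟨b, i⟩ | k)
    · exact mul_ne_zero (hl b) (hy.ne i)
    · exact hy'.ne k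
  · rintro (⟨b, i⟩ | k)
    · change β (e b (y i)) (e b (y i)) = ((l b * t i : ℚ) : K)
      rw [hee, hy.sq, Rat.cast_mul]
    · exact hy'.sq k
  · rintro (⟨b, i⟩ | k) (⟨b', i'⟩ | k') hne
    · change β (e b (y i)) (e b' (y i')) = 0
      by_cases hb : b = b'
      · subst hb
        have hi : i ≠ i' := by rintro rfl; exact hne rfl
        rw [hee, hy.orth i i' hi, mul_zero]
      · exact hee' b b' _ _ hb
    · change β (e b (y i)) (y' k') = 0
      rw [hP.symm _ _ (he b _ (hy.mem i)) ((hP' _).1 (hy'.mem k')).1]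
      exact horth k' b i
    · exact horth k b' i'
    · exact hy'.orth k k' (fun h => hne (by rw [h]))
  · intro u hu huy
    have h1 : ∀ b i, α (c b u) (y i) = 0 := by
      intro b i
      rw [← hadj b u _ hu (hy.mem i)]
      exact huy (Sum.inl (b, i))
    have h2 : ∀ b w, Q w → α (c b u) w = 0 := fun b w hw =>
      OF.rad hQ hy (hc b u hu) hw (h1 b)
    set z : V := ∑ b, (((l b)⁻¹ : ℚ) : K) • e b (c b u) with hz
    have hzP : P z := hP.sub.sum _ (fun b _ => hP.sub.smul _ (he b _ (hc b u hu)))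
    have hcz : ∀ b, c b z = c b u := by
      intro b
      rw [hz, map_sum, Finset.sum_eq_single b]
      · rw [map_smul, hce, smul_smul, Rat.cast_inv, inv_mul_cancel₀ (hl' b), one_smul]
      · intro b' _ hb
        rw [map_smul, hce' b b' _ (Ne.symm hb), smul_zero]
      · intro h; exact absurd (Finset.mem_univ _) h
    have hu' : P' (u - z) := by
      rw [hP']
      refine ⟨hP.sub.sub hu hzP, fun b => ?_⟩
      rw [map_sub, hcz, sub_self]
    have hw0 : ∀ w, P w → β w z = ∑ b, (((l b)⁻¹ : ℚ) : K) * α (c b w) (c b u) := by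
      intro w hw
      rw [hz, map_sum]
      apply Finset.sum_congr rfl
      intro b _
      rw [map_smul, hadj b w _ hw (hc b u hu), smul_eq_mul]
    have h3 : β (u - z) (u - z) = 0 := by
      apply hy'.max _ hu'
      intro k
      have hk := (hP' _).1 (hy'.mem k)
      have h4 : β z (y' k) = 0 := by
        rw [hP.symm _ _ hzP hk.1, hw0 _ hk.1]
        apply Finset.sum_eq_zero
        intro b _
        rw [hk.2 b, map_zero, LinearMap.zero_apply, mul_zero]
      rw [map_sub, LinearMap.sub_apply, h4, sub_zero]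
      exact huy (Sum.inr k)
    have h4 : β u z = 0 := by
      rw [hw0 u hu]
      apply Finset.sum_eq_zero
      intro b _
      rw [h2 b _ (hc b u hu), mul_zero]
    have h5 : β z z = 0 := by
      rw [hw0 z hzP]
      apply Finset.sum_eq_zero
      intro b _
      rw [hcz, h2 b _ (hc b u hu), mul_zero]
    rw [map_sub β, LinearMap.sub_apply, map_sub, map_sub, h4, h5, hP.symm _ _ hzP hu, h4,
      sub_zero, sub_zero, sub_zero] at h3
    exact h3
  · rw [Fintype.card_sum, Fintype.card_prod, Fintype.card_bool]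
  · rw [Fintype.sum_sum_type, Fintype.sum_prod_type, Fintype.sum_bool]
    simp only [Sum.elim_inl, Sum.elim_inr]
    have h1 : ∑ i, ((SignType.sign (l true * t i) : SignType) : ℤ) +
        ∑ i, ((SignType.sign (l false * t i) : SignType) : ℤ) = 0 := by
      rw [← Finset.sum_add_distrib]
      apply Finset.sum_eq_zero
      intro i _
      rw [sign_mul, sign_mul, sign_pos hl1, sign_neg hl2]
      simp
    rw [h1, zero_add]

end Split

section Sum

variable {β : V →ₗ[K] V →ₗ[K] K} {P : V → Prop}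

/-- Orthogonal sums. -/
theorem sz_sum {κ : Type} [Fintype κ] {Pl : κ → V → Prop} (hPl : ∀ l, RF β (Pl l))
    (hsub : ∀ l w, Pl l w → P w)
    (hdec : ∀ w, P w → ∃ u : κ → V, (∀ l, Pl l (u l)) ∧ w = ∑ l, u l)
    (horth : ∀ l l' w w', l ≠ l' → Pl l w → Pl l' w' → β w w' = 0)
    {r : κ → ℕ} {σ : κ → ℤ} (hs : ∀ l, Sz β (Pl l) (r l) (σ l)) :
    Sz β P (∑ l, r l) (∑ l, σ l) := by
  classical
  choose ι hf y t hy hr hσ using hs
  refine ⟨Σ l, ι l, inferInstance, fun x => y x.1 x.2, fun x => t x.1 x.2, ⟨?_, ?_, ?_, ?_, ?_⟩,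
    ?_, ?_⟩
  · rintro ⟨l, i⟩; exact hsub l _ ((hy l).mem i)
  · rintro ⟨l, i⟩; exact (hy l).ne i
  · rintro ⟨l, i⟩; exact (hy l).sq i
  · rintro ⟨l, i⟩ ⟨l', i'⟩ hne
    by_cases hl : l = l'
    · subst hl
      exact (hy l).orth i i' (fun h => hne (by rw [h]))
    · exact horth l l' _ _ hl ((hy l).mem i) ((hy l').mem i')
  · intro w hw hwy
    obtain ⟨u, hu, rfl⟩ := hdec w hw
    have h1 : ∀ l v, Pl l v → β (∑ l, u l) v = β (u l) v := by
      intro l v hv
      rw [map_sum, LinearMap.sum_apply, Finset.sum_eq_single l]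
      · intro l' _ hl
        exact horth l' l _ _ hl (hu l') hv
      · intro h; exact absurd (Finset.mem_univ _) h
    rw [map_sum (β (∑ l, u l))]
    apply Finset.sum_eq_zero
    intro l _
    rw [h1 l _ (hu l)]
    apply (hy l).max _ (hu l)
    intro i
    rw [← h1 l _ ((hy l).mem i)]
    exact hwy ⟨l, i⟩
  · rw [Fintype.card_sigma]
    exact Finset.sum_congr rfl (fun l _ => hr l)
  · rw [Fintype.sum_sigma]
    exact Finset.sum_congr rfl (fun l _ => hσ l)

end Sum

end Pool.Agent.H66SG
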