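import Pool.Agent.H66SG.Blk
import Pool.Agent.H66SG.Lin

/-!
# The rank and the signature in a given weight
-/

set_option autoImplicit false

open CategoryTheory AlgebraicGeometry Finset

universe u v

namespace Pool.Agent.H66SG

open Pool.Agent.H914 Pool.Agent.H914.VarClass Pool.Agent.H914.VarClass.Obj
  Pool.Agent.H914.WeilCohomology Pool.Agent.H281R3.HT Pool.Agent.W552 Pool.Agent.W539.Ker

variable {k : Type u} [Field k] {𝒱 : VarClass k} {ops : CycleOps 𝒱}
  {W : WeilCohomology.{u, v} ops} {X : 𝒱.Obj} {D : X.Cycles} {f : Module.End W.K (W.H X)}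

/-- The largest number of pairwise orthogonal primitive cycles of codimension `n` with positive
squares, plus the same number for negative squares. -/
noncomputable def cnt (W : WeilCohomology.{u, v} ops) (X : 𝒱.Obj) (D : X.Cycles) (n : ℕ) : ℕ :=
  sSup {r | HasFamily W X D n 1 r} + sSup {r | HasFamily W X D n (-1) r}

/-- The sum over the codimensions which contribute in weight `m`. -/
def nsum (d : ℕ) (σ : ℕ → ℕ) (m : ℤ) : ℕ :=
  ∑ n ∈ range (d / 2 + 1), if |m| ≤ (d : ℤ) - 2 * n ∧ (2 : ℤ) ∣ d + m then σ n else 0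

lemma cnt_eq (hD : X.IsCyc 1 D) {n : ℕ} (hn : 2 * n ≤ X.dim) {ι : Type*} [Fintype ι]
    {x : ι → PM W X D n} (h : OM (BP W hD n hn) x) : cnt W X D n = Fintype.card ι := by
  classical
  have h1 : sSup {r | HasFamily W X D n 1 r} =
      (univ.filter (fun i => 0 < BP W hD n hn (x i) (x i))).card := by
    rw [← h.posIdx_eq (BP_symm hD hn), posIdx]
    congr 1
    ext r; exact hasFamily_one hD hn r
  have h2 : sSup {r | HasFamily W X D n (-1) r} =
      (univ.filter (fun i => 0 < (-BP W hD n hn) (x i) (x i))).card := by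
    rw [← h.neg.posIdx_eq (neg_symm (BP_symm hD hn)), posIdx]
    congr 1
    ext r; exact hasFamily_neg hD hn r
  rw [cnt, h1, h2, ← card_split h.ne]

section Form

variable (F : Fz W X D f)

include F

lemma bf_L_pow {n : ℕ} (hn : 2 * n ≤ X.dim) {x : W.H X} (hx : x ∈ W.gr X (2 * n))
    (hp : ((LinearMap.mulLeft W.K (W.cl X D)) ^ (X.dim - 2 * n + 1)) x = 0) {j : ℕ}
    (hj : j ≤ X.dim - 2 * n) (u : W.H X) :
    bf W X D f u (((LinearMap.mulLeft W.K (W.cl X D)) ^ j) x) =
      ((j.factorial * ((X.dim - 2 * n - j).factorial : ℚ)⁻¹ : ℚ) : W.K) * ((-1 : W.K) ^ n *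
        W.tr X (u * ((LinearMap.mulLeft W.K (W.cl X D)) ^ (X.dim - 2 * n - j)) x)) := by
  set L := LinearMap.mulLeft W.K (W.cl X D) with hL
  have h2 : wt (W.isInternal X) X.dim x = -((X.dim - 2 * n : ℕ) : W.K) • x := by
    rw [Fr.wt_gr hx, Nat.cast_sub hn]
    congr 1
    push_cast
    ring
  have h1 : f x = 0 := F.sl2.f_eq_zero h2 hp
  have h3 : wop W X D f ((L ^ j) x) =
      ((-1 : W.K) ^ j * (j.factorial * ((X.dim - 2 * n - j).factorial : W.K)⁻¹)) •
        (L ^ (X.dim - 2 * n - j)) x := by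
    rw [wop, weyl_pow (wey_e F.sl2), wey_lowest F.sl2 h1 h2, map_smul,
      Sl2.f_pow_e_pow F.sl2 h1 h2 hj, smul_smul, smul_smul]
    congr 1
    have h3 : ((X.dim - 2 * n).factorial : W.K) ≠ 0 := by
      exact_mod_cast Nat.factorial_ne_zero _
    field_simp
  have h4 : (L ^ j) x ∈ W.gr X (2 * n + 2 * j) := pow_L_mem (mulLeft_isHom F.hD) hx j
  rw [bf_apply, st_apply h4, h3, smul_smul, mul_smul_comm, map_smul, smul_eq_mul, ← mul_add,
    sg_two_mul]
  have h5 : (-1 : W.K) ^ (n + j) * (-1 : W.K) ^ j = (-1) ^ n := by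
    rw [pow_add, mul_assoc, ← mul_pow]; simp
  push_cast
  linear_combination ((j.factorial : W.K) * ((X.dim - 2 * n - j).factorial : W.K)⁻¹ *
    W.tr X (u * (L ^ (X.dim - 2 * n - j)) x)) * h5

lemma bf_same {n : ℕ} (hn : 2 * n ≤ X.dim) {z z' : X.Cycles} (hz : Primitive W X D n z)
    (hz' : Primitive W X D n z') {j : ℕ} (hj : j ≤ X.dim - 2 * n) :
    bf W X D f (((LinearMap.mulLeft W.K (W.cl X D)) ^ j) (W.cl X z))
      (((LinearMap.mulLeft W.K (W.cl X D)) ^ j) (W.cl X z')) =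
      ((j.factorial * ((X.dim - 2 * n - j).factorial : ℚ)⁻¹ * pairing ops X D n z z' : ℚ) :
        W.K) := by
  rw [bf_L_pow F hn (W.cl_mem hz'.1) (by rw [← cl_divPow]; exact hz'.2) hj, L_pow_self F.hD,
    ← Module.End.mul_apply, ← pow_add, show j + (X.dim - 2 * n - j) = X.dim - 2 * n by omega,
    ← pairing_cast F.hD hn hz.1 hz'.1, ← Rat.cast_mul]

lemma bf_cross {n n' : ℕ} (hn : 2 * n ≤ X.dim) (hn' : 2 * n' ≤ X.dim) (hnn : n ≠ n')
    {z z' : X.Cycles} (hz : Primitive W X D n z) (hz' : Primitive W X D n' z') {j j' : ℕ}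
    (hjj : n + j = n' + j') (hj' : j' ≤ X.dim - 2 * n') :
    bf W X D f (((LinearMap.mulLeft W.K (W.cl X D)) ^ j) (W.cl X z))
      (((LinearMap.mulLeft W.K (W.cl X D)) ^ j') (W.cl X z')) = 0 := by
  have h1 : ((LinearMap.mulLeft W.K (W.cl X D)) ^ (X.dim - 2 * n + 1)) (W.cl X z) = 0 := by
    rw [← cl_divPow]; exact hz.2
  have h2 : ((LinearMap.mulLeft W.K (W.cl X D)) ^ (X.dim - 2 * n' + 1)) (W.cl X z') = 0 := by
    rw [← cl_divPow]; exact hz'.2
  rw [bf_L_pow F hn' (W.cl_mem hz'.1) h2 hj']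
  have h3 : W.tr X (((LinearMap.mulLeft W.K (W.cl X D)) ^ j) (W.cl X z) *
      ((LinearMap.mulLeft W.K (W.cl X D)) ^ (X.dim - 2 * n' - j')) (W.cl X z')) = 0 := by
    rcases lt_or_gt_of_ne hnn with h | h
    · rw [L_pow_self F.hD, ← Module.End.mul_apply, ← pow_add,
        L_pow_gt (n := X.dim) (i := 2 * n') h2 (by omega), mul_zero, map_zero]
    · rw [← L_pow_self F.hD, ← Module.End.mul_apply, ← pow_add,
        L_pow_gt (n := X.dim) (i := 2 * n) h1 (by omega), zero_mul, map_zero]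
  rw [h3, mul_zero, mul_zero]

/-- The closed algebraic classes form a rational Lefschetz structure. -/
lemma ap_cl : AP (W.gr X) X.dim (LinearMap.mulLeft W.K (W.cl X D))
    (fun l => {x | x ∈ algClasses W X l ∧ CL W X D f x}) where
  sub := fun l c hc => alg_gr hc.1
  zero l := ⟨alg_zero l, CL.zero⟩
  add := fun l c hc d hd => ⟨alg_add hc.1 hd.1, hc.2.add hd.2⟩
  neg := fun l c hc => ⟨alg_neg hc.1, CL.ratSub.neg hc.2⟩
  map_L := by
    rintro l c ⟨⟨z, hz, rfl⟩, hc⟩
    refine ⟨⟨ops.mul D z, ?_, by rw [W.cl_mul]; rfl⟩, hc.e⟩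
    rw [add_comm]
    exact ops.mul_mem F.hD hz
  hl := by
    rintro j hj c ⟨hc, hc'⟩
    set P : ℤ → W.H X → Prop := fun d x => x = 0 ∨
      ∃ c : ℕ, (2 * c : ℤ) = X.dim + d ∧ x ∈ algClasses W X c ∧ CL W X D f x with hP
    obtain ⟨x, hx, hxz⟩ := exists_preimage' F.sl2 (P := P) (fun d => Or.inl rfl)
      (by
        rintro d x y (rfl | ⟨c, hc, hx, hx'⟩) (rfl | ⟨c', hc', hy, hy'⟩)
        · exact Or.inl (add_zero 0)
        · rw [zero_add]; exact Or.inr ⟨c', hc', hy, hy'⟩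
        · rw [add_zero]; exact Or.inr ⟨c, hc, hx, hx'⟩
        · obtain rfl : c = c' := by omega
          exact Or.inr ⟨c, hc, alg_add hx hy, hx'.add hy'⟩)
      (by
        rintro q d x (rfl | ⟨c, hc, hx, hx'⟩)
        · exact Or.inl (smul_zero _)
        · exact Or.inr ⟨c, hc, alg_smul q hx, hx'.smul q⟩)
      (by
        rintro d x (rfl | ⟨c, hc, hx, hx'⟩)
        · exact Or.inl (map_zero _)
        · refine Or.inr ⟨c + 1, by push_cast; omega, ?_, hx'.e⟩
          rw [add_comm c 1]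
          exact alg_mul ⟨D, F.hD, rfl⟩ hx)
      (by
        rintro d x (rfl | ⟨c, hc, hx, hx'⟩)
        · exact Or.inl (map_zero _)
        · have h1 := F.f_gr (alg_gr hx)
          rcases Nat.eq_zero_or_pos c with rfl | h0
          · exact Or.inl (h1.2 (by omega))
          · exact Or.inr ⟨c - 1, by omega, hx'.low.as.alg (h1.1 (2 * (c - 1)) (by omega)),
              hx'.low⟩)
      (by
        rintro d x (rfl | ⟨c, hc, hx, hx'⟩)
        · rw [map_zero, smul_zero]
        · rw [Fr.wt_gr (alg_gr hx)]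
          congr 1
          have : ((2 * c : ℤ) : W.K) = ((X.dim + d : ℤ) : W.K) := by rw [hc]
          push_cast at this ⊢
          linear_combination this)
      (X.dim - 2 * j) (y := c)
      (Or.inr ⟨X.dim - j, by omega, hc, hc'⟩)
    rcases hx with rfl | ⟨c', h1, h2, h3⟩
    · exact ⟨0, ⟨alg_zero _, CL.zero⟩, hxz⟩
    · obtain rfl : c' = j := by omega
      exact ⟨x, ⟨h2, h3⟩, hxz⟩

theorem exists_fam0 (m : ℤ) : Sz (bf W X D f)
    (fun u => CL W X D f u ∧ wt (W.isInternal X) X.dim u = (m : W.K) • u)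
    (nsum X.dim (cnt W X D) m) (wsum X.dim (sig W X D) m) := by
  classical
  have hle : ∀ n : Fin (X.dim / 2 + 1), 2 * (n : ℕ) ≤ X.dim := fun n => by omega
  choose M x hx using fun n : Fin (X.dim / 2 + 1) => exists_prim W F.hD (hle n)
  set L := LinearMap.mulLeft W.K (W.cl X D) with hL
  let C : Fin (X.dim / 2 + 1) → Prop := fun n => |m| ≤ (X.dim : ℤ) - 2 * (n : ℕ) ∧
    (2 : ℤ) ∣ X.dim + m
  let j : Fin (X.dim / 2 + 1) → ℕ := fun n => ((m + X.dim - 2 * (n : ℕ)) / 2).toNat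
  have hj : ∀ n, C n → (2 * (j n : ℤ) = m + X.dim - 2 * (n : ℕ)) ∧ j n ≤ X.dim - 2 * (n : ℕ) := by
    rintro n ⟨h1, h2⟩
    have h3 := abs_le.1 h1
    have h4 := hle n
    have h5 : (2 * (j n : ℤ) = m + X.dim - 2 * (n : ℕ)) := by
      change 2 * (((m + X.dim - 2 * (n : ℕ)) / 2).toNat : ℤ) = _
      omega
    exact ⟨h5, by omega⟩
  have hpm : ∀ (n : Fin (X.dim / 2 + 1)) (t : Fin (M n)),
      Primitive W X D n (x n t : X.Cycles) := fun n t => (x n t).2
  have hpne : ∀ (n : Fin (X.dim / 2 + 1)) (t : Fin (M n)),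
      pairing ops X D n (x n t : X.Cycles) (x n t : X.Cycles) ≠ 0 := by
    intro n t
    have := (hx n).ne t
    rwa [BP_apply] at this
  have hgr : ∀ n : Fin (X.dim / 2 + 1), C n → ∀ z : X.Cycles, Primitive W X D n z →
      (L ^ (j n)) (W.cl X z) ∈ algClasses W X (n + j n) ∧
        CL W X D f ((L ^ (j n)) (W.cl X z)) := fun n _ z hz =>
    (ap_cl F).map_L_pow (j n) ⟨⟨z, hz.1, rfl⟩, CL.prim F (hle n) hz⟩
  have hc : ∀ n, (0 : ℚ) < (j n).factorial * ((X.dim - 2 * (n : ℕ) - j n).factorial : ℚ)⁻¹ := by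
    intro n; positivity
  refine ⟨Σ n : {n : Fin (X.dim / 2 + 1) // C n}, Fin (M n.1), inferInstance,
    fun p => (L ^ (j p.1.1)) (W.cl X (x p.1.1 p.2 : X.Cycles)),
    fun p => (j p.1.1).factorial * ((X.dim - 2 * (p.1.1 : ℕ) - j p.1.1).factorial : ℚ)⁻¹ *
      pairing ops X D p.1.1 (x p.1.1 p.2 : X.Cycles) (x p.1.1 p.2 : X.Cycles),
    ⟨fun p => ⟨?_, ?_⟩, ?_, ?_, ?_, ?_⟩, ?_, ?_⟩
  · obtain ⟨⟨n, hn⟩, t⟩ := p
    exact (hgr n hn _ (hpm n t)).2
  · obtain ⟨⟨n, hn⟩, t⟩ := p
    have h1 := alg_gr (hgr n hn _ (hpm n t)).1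
    rw [Fr.wt_gr h1]
    congr 1
    have h2 := (hj n hn).1
    have h3 : ((2 * (j n : ℤ) : ℤ) : W.K) = ((m + X.dim - 2 * (n : ℕ) : ℤ) : W.K) := by rw [h2]
    push_cast at h3 ⊢
    linear_combination h3
  · rintro ⟨⟨n, hn⟩, t⟩
    exact mul_ne_zero (hc n).ne' (hpne n t)
  · rintro ⟨⟨n, hn⟩, t⟩
    exact bf_same F (hle n) (hpm n t) (hpm n t) (hj n hn).2
  · rintro ⟨⟨n, hn⟩, t⟩ ⟨⟨n', hn'⟩, t'⟩ hne
    by_cases hnn : n = n'
    · subst hnn
      have htt : t ≠ t' := by rintro rfl; exact hne rfl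
      have h1 := bf_same F (hle n) (hpm n t) (hpm n t') (hj n hn).2
      have h2 : pairing ops X D n (x n t : X.Cycles) (x n t' : X.Cycles) = 0 := by
        have := (hx n).orth t t' htt
        rwa [BP_apply] at this
      rw [h2, mul_zero, Rat.cast_zero] at h1
      exact h1
    · refine bf_cross F (hle n) (hle n') (fun h => hnn (Fin.ext h)) (hpm n t) (hpm n' t') ?_
        (hj n' hn').2
      have h1 := (hj n hn).1
      have h2 := (hj n' hn').1
      change (n : ℕ) + j n = (n' : ℕ) + j n'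
      omega
  · rintro w ⟨hw, hwm⟩ hwy
    rcases AS_wt hw.as hwm with rfl | ⟨l, hl, hwl⟩
    · simp
    obtain ⟨v, hv, hs⟩ := (ap_cl F).decomp (mulLeft_isHom F.hD) W_hbd ⟨hwl, hw⟩
    rw [← hL] at hv hs
    -- the primitive components
    have key : ∀ b ∈ range (l + 1), (L ^ b) (v b) = 0 ∨ ∃ n : Fin (X.dim / 2 + 1),
        (n : ℕ) = l - b ∧ C n ∧ j n = b ∧ ∃ z, Primitive W X D n z ∧ v b = W.cl X z := by
      intro b hb
      rw [Finset.mem_range] at hb
      obtain ⟨h1, h2, h3⟩ := hv b (by omega)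
      by_cases h0 : (L ^ b) (v b) = 0
      · exact Or.inl h0
      right
      have hv0 : v b ≠ 0 := by rintro h; apply h0; rw [h, map_zero]
      have h4 := h2 hv0
      have h5 : b ≤ X.dim - 2 * (l - b) := by
        by_contra h6
        exact h0 (L_pow_gt (n := X.dim) (i := 2 * (l - b)) h3 (by omega))
      obtain ⟨z, hz, hz'⟩ := h1.1
      have hC : C ⟨l - b, by omega⟩ := by
        refine ⟨abs_le.2 ⟨?_, ?_⟩, ?_⟩
        · change -((X.dim : ℤ) - 2 * ((l - b : ℕ) : ℤ)) ≤ m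
          omega
        · change m ≤ (X.dim : ℤ) - 2 * ((l - b : ℕ) : ℤ)
          omega
        · omega
      refine ⟨⟨l - b, by omega⟩, rfl, hC, ?_, z, ⟨hz, ?_⟩, hz'.symm⟩
      · have h6 := (hj _ hC).1
        change 2 * (j ⟨l - b, _⟩ : ℤ) = m + X.dim - 2 * ((l - b : ℕ) : ℤ) at h6
        omega
      · rw [cl_divPow, hz']; exact h3
    -- orthogonality of the components
    have hcross : ∀ b ∈ range (l + 1), ∀ b' ∈ range (l + 1), b ≠ b' →
        bf W X D f ((L ^ b) (v b)) ((L ^ b') (v b')) = 0 := by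
      intro b hb b' hb' hne
      rcases key b hb with h0 | ⟨n, hn, hC, hjn, z, hz, hvz⟩
      · rw [h0, map_zero, LinearMap.zero_apply]
      rcases key b' hb' with h0 | ⟨n', hn', hC', hjn', z', hz', hvz'⟩
      · rw [h0, map_zero]
      rw [hvz, hvz']
      rw [Finset.mem_range] at hb hb'
      refine bf_cross F (hle n) (hle n') (by omega) hz hz' (by omega) ?_
      rw [← hjn']
      exact (hj n' hC').2
    have hdiag : ∀ b ∈ range (l + 1), bf W X D f ((L ^ b) (v b)) ((L ^ b) (v b)) = 0 := by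
      intro b hb
      rcases key b hb with h0 | ⟨n, hn, hC, hjn, z, hz, hvz⟩
      · rw [h0, map_zero]
      have hbj : b ≤ X.dim - 2 * (n : ℕ) := by rw [← hjn]; exact (hj n hC).2
      have h1 : ∀ t, BP W F.hD n (hle n) ⟨z, hz⟩ (x n t) = 0 := by
        intro t
        have h2 := hwy ⟨⟨n, hC⟩, t⟩
        change bf W X D f w ((L ^ (j n)) (W.cl X (x n t : X.Cycles))) = 0 at h2
        have h3 : bf W X D f w ((L ^ (j n)) (W.cl X (x n t : X.Cycles))) =
            bf W X D f ((L ^ b) (v b)) ((L ^ (j n)) (W.cl X (x n t : X.Cycles))) := by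
          rw [hs, map_sum (bf W X D f), LinearMap.sum_apply, Finset.sum_eq_single b]
          · intro b' hb' hne
            rcases key b' hb' with h0 | ⟨n', hn', hC', hjn', z', hz', hvz'⟩
            · rw [h0, map_zero, LinearMap.zero_apply]
            rw [hvz']
            rw [Finset.mem_range] at hb hb'
            exact bf_cross F (hle n') (hle n) (by omega) hz' (hpm n t) (by omega) (hj n hC).2
          · intro h0; exact absurd hb h0
        rw [h2, hjn, hvz, bf_same F (hle n) hz (hpm n t) hbj] at h3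
        have h4 : (0 : ℚ) = b.factorial * ((X.dim - 2 * (n : ℕ) - b).factorial : ℚ)⁻¹ *
            pairing ops X D n z (x n t : X.Cycles) := by exact_mod_cast h3
        rw [← hjn] at h4
        rcases mul_eq_zero.1 h4.symm with h5 | h5
        · exact absurd h5 (hc n).ne'
        · rw [BP_apply]; exact h5
      have h2 : pairing ops X D n z z = 0 := by
        have := (hx n).max ⟨z, hz⟩ h1
        rwa [BP_apply] at this
      rw [hvz, bf_same F (hle n) hz hz hbj, h2, mul_zero, Rat.cast_zero]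
    have h1 : bf W X D f w w = ∑ b ∈ range (l + 1), ∑ b' ∈ range (l + 1),
        bf W X D f ((L ^ b) (v b)) ((L ^ b') (v b')) := by
      conv_lhs => rw [hs]
      rw [map_sum (bf W X D f), LinearMap.sum_apply]
      apply Finset.sum_congr rfl
      intro b _
      rw [map_sum]
    rw [h1]
    apply Finset.sum_eq_zero
    intro b hb
    apply Finset.sum_eq_zero
    intro b' hb'
    by_cases hbb : b = b'
    · subst hbb; exact hdiag b hb
    · exact hcross b hb b' hb' hbb
  · rw [Fintype.card_sigma]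
    have h1 : ∀ n : {n : Fin (X.dim / 2 + 1) // C n}, Fintype.card (Fin (M n.1)) =
        cnt W X D n.1 := fun n => (cnt_eq F.hD (hle n.1) (hx n.1)).symm
    rw [Finset.sum_congr rfl (fun n _ => h1 n), nsum, Finset.sum_range, ← Finset.sum_filter]
    exact (Finset.sum_subtype (univ.filter C) (by simp) (fun n => cnt W X D n)).symm
  · rw [Fintype.sum_sigma]
    have h1 : ∀ n : {n : Fin (X.dim / 2 + 1) // C n}, ∑ t : Fin (M n.1),
        ((SignType.sign ((j n.1).factorial * ((X.dim - 2 * (n.1 : ℕ) - j n.1).factorial : ℚ)⁻¹ *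
          pairing ops X D n.1 (x n.1 t : X.Cycles) (x n.1 t : X.Cycles)) : SignType) : ℤ) =
        sig W X D n.1 := by
      intro n
      rw [sig_eq F.hD (hle n.1) (hx n.1)]
      apply Finset.sum_congr rfl
      intro t _
      rw [sign_mul, sign_pos (hc n.1), one_mul, BP_apply]
    rw [Finset.sum_congr rfl (fun n _ => h1 n), wsum, Finset.sum_range, ← Finset.sum_filter]
    exact (Finset.sum_subtype (univ.filter C) (by simp) (fun n => sig W X D n)).symm


end Form

end Pool.Agent.H66SG
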