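import Pool.Agent.H66SG.Main
import Pool.Agent.H66SG.Defs

/-!
# Half or all
-/

set_option autoImplicit false

open CategoryTheory AlgebraicGeometry Finset

universe u v

namespace Pool.Agent.H66SG

open Pool.Agent.H914 Pool.Agent.H914.VarClass Pool.Agent.H914.VarClass.Obj
  Pool.Agent.H914.WeilCohomology Pool.Agent.H281R3.HT Pool.Agent.W552 Pool.Agent.TH720.LB
  Pool.Agent.X310 Pool.Agent.X310.Mom Pool.Agent.W539.Ker

variable {k : Type u} [Field k] {𝒱 : VarClass k} {ops : CycleOps 𝒱}
  {W : WeilCohomology.{u, v} ops} {X Y : 𝒱.Obj} {D : X.Cycles} {E : Y.Cycles}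

lemma tot_eq (W : WeilCohomology.{u, v} ops) (Y : 𝒱.Obj) (E : Y.Cycles) :
    tot W Y E = squares W Y E := rfl

lemma sig_eq' (n : ℕ) : sig W Y E n = (posSq W Y E n : ℤ) - negSq W Y E n := rfl

/-- There is at least one square. -/
lemma squares_pos (hE : Y.IsCyc 1 E) (hH : HardLefschetz W Y E)
    (hdeg : 0 < Y.V.degCycle (divPow ops E Y.dim Y.V.fundCycle)) : 1 ≤ squares W Y E := by
  obtain ⟨g, G⟩ := exists_fz hE hH
  obtain ⟨q, hq, hq'⟩ := one_sq_pos G hdeg
  obtain ⟨r, σ, hs⟩ := (rf_cl G).exists_sz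
  have h1 := (rf_cl G).le hs (κ := Unit) (z := fun _ => 1) (s := fun _ => q)
    (fun _ => cl_one G) (fun _ => hq.ne') (fun _ => hq') (fun i j hij => absurd rfl hij)
  have h2 := rank_le G hs
  rw [tot_eq] at h2
  rw [Fintype.card_unit] at h1
  by_contra h3
  have h4 : squares W Y E = 0 := by omega
  rw [h4, mul_zero] at h2
  omega

lemma squares_pw_pos (hD : X.IsCyc 1 D) (hH : HardLefschetz W X D)
    (hdeg : 0 < X.V.degCycle (divPow ops D X.dim X.V.fundCycle)) (M : ℕ) :
    1 ≤ squares W (pw X M) (pwDiv ops D M) := by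
  obtain ⟨f, F⟩ := exists_fz hD hH
  obtain ⟨q, hq, hq'⟩ := one_sq_pw F (one_sq_pos F hdeg) M
  have G := pw_fz F M
  obtain ⟨r, σ, hs⟩ := (rf_cl G).exists_sz
  have h1 := (rf_cl G).le hs (κ := Unit) (z := fun _ => 1) (s := fun _ => q)
    (fun _ => cl_one G) (fun _ => hq.ne') (fun _ => hq') (fun i j hij => absurd rfl hij)
  have h2 := rank_le G hs
  rw [tot_eq] at h2
  rw [Fintype.card_unit] at h1
  by_contra h3
  have h4 : squares W (pw X M) (pwDiv ops D M) = 0 := by omega
  rw [h4, mul_zero] at h2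
  omega

/-- **One negative square balances the squares.** -/
theorem balanced (hD : X.IsCyc 1 D) (hH : HardLefschetz W X D)
    (hdeg : 0 < X.V.degCycle (divPow ops D X.dim X.V.fundCycle)) {s : ℕ}
    (hs : ¬ NoNegative W (pw X s) (pwDiv ops D s)) : Balanced W X D s := by
  intro ρ hρ hρ'
  obtain ⟨f, F⟩ := exists_fz hD hH
  rw [NoNegative] at hs
  push Not at hs
  obtain ⟨n, z, hn, hz, hneg⟩ := hs
  obtain ⟨b, l, μ, H⟩ := exists_pair F (one_sq_pos F hdeg) hn hz hneg
  exact bound F (one_sq_pos F hdeg) H hρ hρ'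

/-- Without negative cycles there are no negative squares. -/
lemma negSq_zero (h : NoNegative W Y E) {n : ℕ} (hn : 2 * n ≤ Y.dim) : negSq W Y E n = 0 := by
  rw [negSq]
  have h1 : {r | HasFamily W Y E n (-1) r} ⊆ {0} := by
    rintro r ⟨z, hz, hz', -⟩
    rw [Set.mem_singleton_iff]
    by_contra h0
    have h2 := hz' ⟨0, Nat.pos_of_ne_zero h0⟩
    have h3 := h n _ hn (hz ⟨0, Nat.pos_of_ne_zero h0⟩)
    linarith
  apply Nat.le_zero.1
  apply csSup_le'
  intro r hr
  have := h1 hr
  rw [Set.mem_singleton_iff] at this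
  omega

lemma positives_eq (h : NoNegative W Y E) : positives W Y E = squares W Y E := by
  apply Finset.sum_congr rfl
  intro n hn
  rw [Finset.mem_range] at hn
  rw [negSq_zero h (by omega), add_zero]

/-- A majority of positive squares makes the signatures large. -/
lemma majority_imbalance {ε : ℝ} (h : (1 / 2 + ε) * squares W Y E ≤ positives W Y E) :
    2 * ε * squares W Y E ≤ imbalance W Y E := by
  have h1 : (2 * (positives W Y E : ℤ) - squares W Y E) ≤ imbalance W Y E := by
    rw [positives, squares, imbalance]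
    push_cast
    rw [Finset.mul_sum, ← Finset.sum_sub_distrib]
    apply Finset.sum_le_sum
    intro n _
    refine le_trans (le_of_eq ?_) (le_abs_self _)
    ring
  have h2 : (2 * (positives W Y E : ℝ) - squares W Y E) ≤ imbalance W Y E := by
    exact_mod_cast h1
  linarith

/-- **The criterion for the sign.** -/
theorem nonneg_iff (hD : X.IsCyc 1 D) (hH : HardLefschetz W X D)
    (hdeg : 0 < X.V.degCycle (divPow ops D X.dim X.V.fundCycle)) :
    (∀ M, NoNegative W (pw X M) (pwDiv ops D M)) ↔ Majority W X D := by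
  constructor
  · intro h
    refine ⟨1 / 2, by norm_num, fun M₀ => ⟨M₀, le_rfl, ?_⟩⟩
    rw [positives_eq (h M₀)]
    norm_num
  · rintro ⟨ε, hε, hM⟩
    by_contra hno
    push Not at hno
    obtain ⟨s, hs⟩ := hno
    have hB := balanced hD hH hdeg hs
    set b : ℝ := (Module.finrank W.K (W.H X) : ℝ) ^ (s + 1) with hb
    have hfin : 0 < Module.finrank W.K (W.H X) := by
      obtain ⟨f, F⟩ := exists_fz hD hH
      obtain ⟨q, hq, hq'⟩ := one_sq_pos F hdeg
      have hne : (1 : W.H X) ≠ 0 := by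
        intro h0
        rw [h0, map_zero] at hq'
        have : (q : W.K) = 0 := hq'.symm
        exact hq.ne' (by exact_mod_cast this)
      have : Nontrivial (W.H X) := ⟨1, 0, hne⟩
      exact Module.finrank_pos
    have hb0 : 0 < b := by
      have : (0 : ℝ) < (Module.finrank W.K (W.H X) : ℝ) := by exact_mod_cast hfin
      positivity
    -- choose the rate
    obtain ⟨ρ, hρ1, hρ0, hρ⟩ : ∃ ρ : ℝ, ρ < 1 ∧ 0 < ρ ∧ 1 - 2 / b < ρ ^ (s + 1) := by
      have h1 : 1 - 2 / b < (1 : ℝ) ^ (s + 1) := by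
        rw [one_pow]
        have : 0 < 2 / b := by positivity
        linarith
      have e1 : ∀ᶠ x in nhds (1 : ℝ), 1 - 2 / b < x ^ (s + 1) :=
        (continuous_pow (s + 1)).continuousAt.eventually (lt_mem_nhds h1)
      obtain ⟨x, hx, hx', hx''⟩ := (e1.and (lt_mem_nhds (zero_lt_one' ℝ))).exists_lt
      exact ⟨x, hx, hx'', hx'⟩
    obtain ⟨C, hC⟩ := hB ρ hρ0 hρ
    have hlim : Filter.Tendsto (fun M : ℕ => |C| * ρ ^ M) Filter.atTop (nhds (|C| * 0)) :=
      (tendsto_pow_atTop_nhds_zero_of_lt_one hρ0.le hρ1).const_mul _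
    rw [mul_zero] at hlim
    obtain ⟨M₀, hM₀⟩ := Filter.eventually_atTop.1
      (hlim.eventually_lt_const (show (0 : ℝ) < 2 * ε by positivity))
    obtain ⟨M, hMM, hmaj⟩ := hM M₀
    have h1 := majority_imbalance hmaj
    have h2 := hC M
    have h3 : (1 : ℝ) ≤ squares W (pw X M) (pwDiv ops D M) := by
      exact_mod_cast squares_pw_pos hD hH hdeg M
    have h4 := hM₀ M hMM
    have h5 : C * ρ ^ M ≤ |C| * ρ ^ M :=
      mul_le_mul_of_nonneg_right (le_abs_self C) (by positivity)
    have h6 : C * ρ ^ M * squares W (pw X M) (pwDiv ops D M) <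
        2 * ε * squares W (pw X M) (pwDiv ops D M) :=
      mul_lt_mul_of_pos_right (lt_of_le_of_lt h5 h4) (by linarith)
    linarith

/-- The standard conjecture of Hodge type is positivity and nondegeneracy. -/
theorem hodge_iff (hE : Y.IsCyc 1 E) :
    HodgeType W Y E ↔ NoNegative W Y E ∧ Nondegenerate W Y E := by
  constructor
  · intro h
    constructor
    · intro n z hn hz
      by_cases h0 : W.cl Y z = 0
      · have h1 : ((pairing ops Y E n z z : ℚ) : W.K) = 0 := by
          rw [pairing_cast hE hn hz.1 hz.1, h0, zero_mul, map_zero, mul_zero]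
        have h2 : pairing ops Y E n z z = 0 := by exact_mod_cast h1
        rw [h2]
      · exact (h n hn z hz.1 hz.2 h0).le
    · intro n z hn hz hw
      by_contra h0
      have h1 := h n hn z hz.1 hz.2 h0
      have h2 := hw z hz
      rw [pairing] at h2
      linarith
  · rintro ⟨h1, h2⟩ n hn z hz hz' h0
    by_contra hle
    apply h0
    apply h2 n z hn ⟨hz, hz'⟩
    intro w hw
    -- the Cauchy-Schwarz inequality
    let z' : PM W Y E n := ⟨z, hz, hz'⟩
    let w' : PM W Y E n := ⟨w, hw⟩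
    have hzz : BP W hE n hn z' z' = 0 := by
      apply le_antisymm
      · exact not_lt.1 hle
      · exact h1 n z hn ⟨hz, hz'⟩
    have hpos : ∀ x : PM W Y E n, 0 ≤ BP W hE n hn x x := fun x => h1 n x hn x.2
    have hsym : BP W hE n hn w' z' = BP W hE n hn z' w' := BP_symm hE hn w' z'
    have key : ∀ t : ℚ, 0 ≤ 2 * t * BP W hE n hn z' w' + BP W hE n hn w' w' := by
      intro t
      have h3 := hpos (t • z' + w')
      rw [map_add (BP W hE n hn), LinearMap.add_apply, map_add, map_add, map_smul, map_smul,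
        LinearMap.smul_apply, LinearMap.smul_apply, map_smul, hzz, hsym] at h3
      simp only [smul_eq_mul] at h3
      linarith
    have h4 : BP W hE n hn z' w' = 0 := by
      by_contra hne
      have h5 := key (-(BP W hE n hn w' w' + 1) / (2 * BP W hE n hn z' w'))
      have h6 : 2 * (-(BP W hE n hn w' w' + 1) / (2 * BP W hE n hn z' w')) *
          BP W hE n hn z' w' = -(BP W hE n hn w' w' + 1) := by
        field_simp
      rw [h6] at h5
      linarith
    exact h4

/-- The class of a primitive cycle on a variety of dimension zero. -/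
lemma noNegative_dim_zero (hE : Y.IsCyc 1 E)
    (hdeg : 0 < Y.V.degCycle (divPow ops E Y.dim Y.V.fundCycle)) (h0 : Y.dim = 0) :
    NoNegative W Y E := by
  intro n z hn hz
  obtain rfl : n = 0 := by omega
  have h1 : W.cl Y z ∈ W.gr Y 0 := W.cl_mem hz.1
  rw [W.gr_zero, Submodule.mem_span_singleton] at h1
  obtain ⟨c, hc⟩ := h1
  have h2 := W.tr_cl (X := Y) (z := z) (by rw [h0]; exact hz.1)
  have h3 := W.tr_cl (X := Y) (z := Y.V.fundCycle) (by rw [h0]; exact Y.V.fundCycle_mem)
  rw [W.cl_fund] at h3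
  rw [← hc, map_smul, h3, smul_eq_mul] at h2
  have h4 : divPow ops E Y.dim Y.V.fundCycle = Y.V.fundCycle := by rw [h0]; rfl
  rw [h4] at hdeg
  set d := Y.V.degCycle Y.V.fundCycle with hd
  have hdK : (d : W.K) ≠ 0 := by exact_mod_cast hdeg.ne'
  have h5 : c = ((Y.V.degCycle z / d : ℚ) : W.K) := by
    rw [Rat.cast_div, eq_div_iff hdK]
    exact h2
  have h6 : ((pairing ops Y E 0 z z : ℚ) : W.K) =
      (((Y.V.degCycle z / d) * (Y.V.degCycle z / d) * d : ℚ) : W.K) := by
    rw [pairing_cast hE hn hz.1 hz.1, h0, ← hc, h5]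
    simp only [Nat.mul_zero, Nat.sub_zero, pow_zero, Module.End.one_apply, one_mul,
      smul_mul_smul_comm, mul_one, map_smul, smul_eq_mul]
    rw [h3]
    push_cast
    ring
  have h7 : pairing ops Y E 0 z z = (Y.V.degCycle z / d) * (Y.V.degCycle z / d) * d := by
    exact_mod_cast h6
  rw [h7]
  exact mul_nonneg (mul_self_nonneg _) hdeg.le

/-- **The criterion for a whole class.** -/
theorem class_iff {P : ∀ Y : 𝒱.Obj, Y.Cycles → Prop} (hP : IsAmpleClass W P) {ε : ℝ}
    (hε : 0 < ε) (hε' : ε ≤ 1 / 2) (N : ℕ) :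
    (∀ Y E, P Y E → NoNegative W Y E) ↔
      ∀ Y E, P Y E → N ≤ Y.dim → (1 / 2 + ε) * squares W Y E ≤ positives W Y E := by
  constructor
  · intro h Y E hY _
    rw [positives_eq (h Y E hY)]
    have h1 : (0 : ℝ) ≤ squares W Y E := Nat.cast_nonneg _
    nlinarith
  · intro h Y E hY
    by_cases h0 : Y.dim = 0
    · exact noNegative_dim_zero (hP.div hY) (hP.degree hY) h0
    · have h1 : Majority W Y E := by
        refine ⟨ε, hε, fun M₀ => ⟨M₀ + N, by omega, h _ _ (hP.powers hY _) ?_⟩⟩
        rw [pw_dim]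
        have : 1 ≤ Y.dim := by omega
        nlinarith
      exact (nonneg_iff (hP.div hY) (hP.hard hY) (hP.degree hY)).2 h1 0

end Pool.Agent.H66SG
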