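import Pool.Agent.W539.Ker.Fam
import Pool.Agent.X310.Mom5

/-!
# Polarized varieties with hard Lefschetz, without the Lefschetz standard conjecture
-/

set_option autoImplicit false

open CategoryTheory AlgebraicGeometry

universe u v w

namespace Pool.Agent.H66SG

open Pool.Agent.H914 Pool.Agent.H914.VarClass Pool.Agent.H914.VarClass.Obj
  Pool.Agent.H914.WeilCohomology Pool.Agent.H281R3.HT Pool.Agent.W552 Pool.Agent.TH720.LB

variable {k : Type u} [Field k] {𝒱 : VarClass k} {ops : CycleOps 𝒱}
  {W : WeilCohomology.{u, v} ops} {X Y Z : 𝒱.Obj}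

/-- A variety with a divisor with hard Lefschetz, and the lowering operator. -/
structure Fz (W : WeilCohomology.{u, v} ops) (X : 𝒱.Obj) (D : X.Cycles)
    (f : Module.End W.K (W.H X)) : Prop where
  hD : X.IsCyc 1 D
  ls : LefStr (W.isInternal X) X.dim (LinearMap.mulLeft W.K (W.cl X D)) f

/-- Existence of the lowering operator. -/
lemma exists_fz {D : X.Cycles} (hD : X.IsCyc 1 D) (hHL : HardLefschetz W X D) :
    ∃ f, Fz W X D f := by
  have hLh : IsHom (W.gr X) 2 (LinearMap.mulLeft W.K (W.cl X D)) := mulLeft_isHom hD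
  obtain ⟨f, t, hf, hfv⟩ := exists_sl2 (W.isInternal X) hLh W_hbd hHL
  exact ⟨f, hD, ⟨hLh, W_hbd, hHL, t⟩⟩

namespace Fz

variable {D : X.Cycles} {f : Module.End W.K (W.H X)} (F : Fz W X D f)

include F

lemma sl2 : Sl2 (wt (W.isInternal X) X.dim) (LinearMap.mulLeft W.K (W.cl X D)) f := F.ls.sl2

lemma hHL : HardLefschetz W X D := F.ls.hHL

lemma wt_w : wop W X D f * wt (W.isInternal X) X.dim =
    -(wt (W.isInternal X) X.dim * wop W X D f) := by
  exact wt_w_aux F.sl2.ef (wey_e F.sl2) (wey_f F.sl2)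

lemma w_mem {i : ℕ} (hi : i ≤ 2 * X.dim) {a : W.H X} (ha : a ∈ W.gr X i) :
    wop W X D f a ∈ W.gr X (2 * X.dim - i) := by
  have h1 := congrArg (fun G => G a) F.wt_w
  simp only [Module.End.mul_apply, LinearMap.neg_apply, Fr.wt_gr ha, map_smul] at h1
  have h2 : wt (W.isInternal X) X.dim (wop W X D f a) =
      ((X.dim : W.K) - i) • wop W X D f a := by
    rw [← neg_neg (wt (W.isInternal X) X.dim _), ← h1, ← neg_smul, neg_sub]
  refine (mem_gr_of_wt (W.isInternal X) W_hbd h2).1 _ ?_
  rw [Nat.cast_sub hi]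
  push_cast
  ring

lemma f_gr {i : ℕ} {a : W.H X} (ha : a ∈ W.gr X i) :
    (∀ j, j + 2 = i → f a ∈ W.gr X j) ∧ (i < 2 → f a = 0) := by
  have h1 := congrArg (fun G => G a) F.sl2.hf
  simp only [LinearMap.sub_apply, Module.End.mul_apply, LinearMap.neg_apply, Fr.wt_gr ha,
    map_smul] at h1
  have h2 : (2 : Module.End W.K (W.H X)) (f a) = (2 : W.K) • f a := by
    rw [ofNat_smul_eq_nsmul]; rfl
  have h3 : wt (W.isInternal X) X.dim (f a) = ((i : W.K) - X.dim - 2) • f a := by
    rw [h2, sub_eq_iff_eq_add] at h1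
    rw [h1, ← neg_smul, ← add_smul]
    congr 1
    ring
  have h4 := mem_gr_of_wt (W.isInternal X) W_hbd h3
  constructor
  · intro j hj
    apply h4.1
    rw [← hj]
    push_cast
    ring
  · intro hi
    apply h4.2
    intro j h0
    have : (i : W.K) = (j + 2 : ℕ) := by push_cast; linear_combination h0
    have : i = j + 2 := by exact_mod_cast this
    omega

lemma e_gr {i : ℕ} {a : W.H X} (ha : a ∈ W.gr X i) : W.cl X D * a ∈ W.gr X (i + 2) := by
  rw [add_comm]
  exact W.mul_mem (W.cl_mem F.hD) ha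

lemma bf_deg {i j : ℕ} {a b : W.H X} (ha : a ∈ W.gr X i) (hb : b ∈ W.gr X j) (hij : i ≠ j) :
    bf W X D f a b = 0 := by
  by_cases hj : j ≤ 2 * X.dim
  · rw [bf_apply, st_apply hb, mul_smul_comm, map_smul,
      W.tr_eq_zero (W.mul_mem ha (F.w_mem hj hb)) (by omega), smul_zero]
  · rw [W.gr_eq_bot X j (by omega)] at hb
    rw [(Submodule.mem_bot _).1 hb, map_zero]

/-- The form on a product. -/
theorem bf_ext {E : Y.Cycles} {f' : Module.End W.K (W.H Y)} (G : Fz W Y E f') (a a' : W.H X)
    (b b' : W.H Y) :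
    bf W (X.prod Y) (ops.pull (fst X Y) D + ops.pull (snd X Y) E) (extSum W f f')
      (ext W a b) (ext W a' b') = bf W X D f a a' * bf W Y E f' b b' := by
  refine gr_induction (W.isInternal Y) (p := fun b => bf W (X.prod Y)
    (ops.pull (fst X Y) D + ops.pull (snd X Y) E) (extSum W f f')
      (ext W a b) (ext W a' b') = bf W X D f a a' * bf W Y E f' b b') ?_ ?_ b
  swap
  · intro b c hb hc
    rw [show ext W a (b + c) = ext W a b + ext W a c by simp only [ext, map_add, mul_add],
      map_add, LinearMap.add_apply, hb, hc, map_add, LinearMap.add_apply, mul_add]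
  intro j b hb
  refine gr_induction (W.isInternal X) (p := fun a' => bf W (X.prod Y)
    (ops.pull (fst X Y) D + ops.pull (snd X Y) E) (extSum W f f')
      (ext W a b) (ext W a' b') = bf W X D f a a' * bf W Y E f' b b') ?_ ?_ a'
  swap
  · intro a' c hb hc
    rw [show ext W (a' + c) b' = ext W a' b' + ext W c b' by simp only [ext, map_add, add_mul],
      map_add, hb, hc, map_add, add_mul]
  intro i' a' ha'
  refine gr_induction (W.isInternal Y) (p := fun b' => bf W (X.prod Y)
    (ops.pull (fst X Y) D + ops.pull (snd X Y) E) (extSum W f f')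
      (ext W a b) (ext W a' b') = bf W X D f a a' * bf W Y E f' b b') ?_ ?_ b'
  swap
  · intro b' c hb hc
    rw [show ext W a' (b' + c) = ext W a' b' + ext W a' c by simp only [ext, map_add, mul_add],
      map_add, hb, hc, map_add, mul_add]
  intro j' b' hb'
  have hmem : ext W a' b' ∈ W.gr (X.prod Y) (i' + j') :=
    W.mul_mem (W.map_mem _ ha') (W.map_mem _ hb')
  by_cases hi' : i' ≤ 2 * X.dim
  swap
  · rw [W.gr_eq_bot X i' (by omega)] at ha'
    rw [(Submodule.mem_bot _).1 ha']
    simp [ext]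
  by_cases hjj : j = j'
  · subst hjj
    rw [bf_apply, st_apply hmem, mul_smul_comm, map_smul, ext, ext,
      form_mul F.sl2 G.sl2 G.hD hb (F.w_mem hi' ha'), bf_apply, bf_apply, st_apply ha',
      st_apply hb', mul_smul_comm, mul_smul_comm, map_smul, map_smul, sg_add]
    simp only [smul_eq_mul]
    have h1 : (-1 : W.K) ^ (j * (2 * X.dim - i')) = (-1) ^ (i' * j) := by
      have h2 : (-1 : W.K) ^ (j * (2 * X.dim - i')) * (-1) ^ (i' * j) = 1 := by
        rw [← pow_add, show j * (2 * X.dim - i') + i' * j = j * (2 * X.dim - i' + i') by ring,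
          show 2 * X.dim - i' + i' = 2 * X.dim by omega, mul_left_comm, pow_mul]
        simp
      have h3 : (-1 : W.K) ^ (i' * j) * (-1) ^ (i' * j) = 1 := by rw [← mul_pow]; simp
      calc (-1 : W.K) ^ (j * (2 * X.dim - i')) =
          (-1 : W.K) ^ (j * (2 * X.dim - i')) * ((-1 : W.K) ^ (i' * j) * (-1) ^ (i' * j)) := by
            rw [h3, mul_one]
        _ = _ := by rw [← mul_assoc, h2, one_mul]
    rw [h1]
    push_cast
    have h3 : (-1 : W.K) ^ (i' * j) * (-1) ^ (i' * j) = 1 := by rw [← mul_pow]; simp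
    linear_combination ((sg i' : W.K) * (sg j : W.K) * (W.tr X (a * wop W X D f a') *
      W.tr Y (b * wop W Y E f' b'))) * h3
  · rw [G.bf_deg hb hb' hjj, mul_zero, bf_apply, st_apply hmem, mul_smul_comm, map_smul, ext,
      ext, form_mul F.sl2 G.sl2 G.hD hb (F.w_mem hi' ha')]
    have h0 := G.bf_deg hb hb' hjj
    rw [bf_apply, st_apply hb', mul_smul_comm, map_smul, smul_eq_mul] at h0
    rcases mul_eq_zero.1 h0 with h1 | h1
    · exfalso
      have h2 : (sg j' : W.K) * (sg j' : W.K) = 1 := by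
        have := congrArg (Int.cast (R := W.K)) (sg_sq j')
        push_cast at this
        exact this
      rw [h1, mul_zero] at h2
      exact zero_ne_one h2
    · rw [h1]; simp

/-- The value of the form on a primitive algebraic class. -/
lemma form_prim {j : ℕ} (hj : 2 * j ≤ X.dim) {z : X.Cycles} (hz : X.IsCyc j z)
    (hprim : W.cl X (divPow ops D (X.dim - 2 * j + 1) z) = 0) :
    bf W X D f (W.cl X z) (W.cl X z) = (((-1) ^ j * (((X.dim - 2 * j).factorial : ℚ)⁻¹ *
        X.V.degCycle (ops.mul z (divPow ops D (X.dim - 2 * j) z))) : ℚ) : W.K) := by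
  set L : Module.End W.K (W.H X) := LinearMap.mulLeft W.K (W.cl X D) with hLdef
  have hcg : W.cl X z ∈ W.gr X (2 * j) := W.cl_mem hz
  have hwt : wt (W.isInternal X) X.dim (W.cl X z) =
      -((X.dim - 2 * j : ℕ) : W.K) • W.cl X z := by
    rw [wt, scal_apply _ _ hcg, node]
    congr 1
    rw [Nat.cast_sub hj]
    push_cast
    ring
  have hfz : f (W.cl X z) = 0 := by
    apply F.sl2.f_eq_zero hwt
    rw [← cl_divPow]
    exact hprim
  have h4 := wey_lowest F.sl2 hfz hwt
  rw [bf_apply, st_apply hcg, wop, h4, smul_comm, mul_smul_comm, map_smul, mul_smul_comm,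
    map_smul, ← cl_divPow, ← W.cl_mul, W.tr_cl, sg_two_mul]
  · simp only [smul_eq_mul]
    push_cast
    ring
  · have := ops.mul_mem hz (divPow_mem (ops := ops) F.hD (X.dim - 2 * j) hz)
    rwa [show j + (j + (X.dim - 2 * j)) = X.dim by omega] at this


/-- The product of two frames. -/
lemma prod {E : Y.Cycles} {f' : Module.End W.K (W.H Y)} (G : Fz W Y E f') :
    Fz W (X.prod Y) (sumDiv ops D E) (extSum W f f') where
  hD := isCyc_sumDiv F.hD G.hD
  ls := by
    refine ⟨mulLeft_isHom (isCyc_sumDiv F.hD G.hD), W_hbd,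
      TH125.Gal.hardLefschetz_prod F.hD G.hD F.hHL G.hHL, ?_⟩
    rw [wt_prod, sumDiv, mulLeft_prod G.hD]
    exact sl2_prod F.sl2 G.sl2

lemma st_st : st W X D f * st W X D f = 1 := F.ls.star_star

lemma st_st_apply (x : W.H X) : st W X D f (st W X D f x) = x := by
  rw [← Module.End.mul_apply, F.st_st, Module.End.one_apply]

lemma symm {i j : ℕ} {p q : W.H X} (hp : p ∈ W.gr X i)
    (hq : q ∈ W.gr X j) : bf W X D f q p = (-1 : W.K) ^ i * bf W X D f p q := by
  exact F.ls.form_symm (B := bil W X) (fun p q => RSys.bil_self F.hD p q)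
    (fun i j a ha b hb hij => W.tr_eq_zero (W.mul_mem ha hb) hij)
    (fun i j a ha b hb => by
      rw [bil_apply, bil_apply, W.comm ha hb, map_smul, smul_eq_mul]) hp hq

lemma nondeg {z : W.H X} (h : ∀ y, bf W X D f y z = 0) : z = 0 := by
  have h1 : st W X D f z = 0 := nondeg_right (fun b => h b)
  have h2 := congrArg (st W X D f) h1
  rwa [F.st_st_apply, map_zero] at h2

/-- Nondegeneracy on the other side. -/
lemma nondeg' {z : W.H X} (h : ∀ y, bf W X D f z y = 0) : z = 0 := by
  apply W.nondeg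
  intro b
  have := h (st W X D f b)
  rwa [bf_apply, F.st_st_apply] at this

/-- The star operator exchanges the lowering and the raising operator. -/
lemma st_f (b : W.H X) : st W X D f (f b) = W.cl X D * st W X D f b := by
  refine gr_induction (W.isInternal X) (p := fun b => st W X D f (f b) =
    W.cl X D * st W X D f b) ?_ ?_ b
  swap
  · intro b c hb hc
    rw [map_add, map_add, hb, hc, map_add, mul_add]
  intro i b hb
  have h1 : wop W X D f (f b) = -(W.cl X D * wop W X D f b) :=
    congrArg (fun G => G b) (wey_f F.sl2)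
  have h2 := F.f_gr hb
  rcases lt_or_ge i 2 with hi | hi
  · rw [h2.2 hi, map_zero] at h1
    rw [h2.2 hi, map_zero, st_apply hb, mul_smul_comm, ← neg_neg (W.cl X D * _), ← h1, neg_zero,
      smul_zero]
  · obtain ⟨j, rfl⟩ : ∃ j, i = j + 2 := ⟨i - 2, by omega⟩
    rw [st_apply hb, st_apply (h2.1 j rfl), h1, sg_add, mul_smul_comm, smul_neg, ← neg_smul]
    congr 1
    have : sg 2 = -1 := by simp [sg]
    rw [this]
    have h3 : (-1 : ℤ) ^ (j * 2) = 1 := by rw [mul_comm, pow_mul]; simp
    rw [h3]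
    push_cast
    ring

lemma st_e (b : W.H X) : st W X D f (W.cl X D * b) = f (st W X D f b) := by
  have h1 := F.st_f (st W X D f b)
  have h2 := congrArg (st W X D f) h1
  rw [F.st_st_apply, F.st_st_apply] at h2
  exact h2.symm

/-- The raising and the lowering operator are adjoint. -/
lemma bf_e_left (a b : W.H X) : bf W X D f (W.cl X D * a) b = bf W X D f a (f b) := by
  rw [bf_apply, bf_apply, F.st_f]
  exact RSys.bil_self (W := W) F.hD a (st W X D f b)

lemma bf_f_left (a b : W.H X) : bf W X D f (f a) b = bf W X D f a (W.cl X D * b) := by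
  refine gr_induction (W.isInternal X) (p := fun a => bf W X D f (f a) b =
    bf W X D f a (W.cl X D * b)) ?_ ?_ a
  swap
  · intro a c hb hc
    rw [map_add, map_add, LinearMap.add_apply, hb, hc, map_add, LinearMap.add_apply]
  intro i a ha
  refine gr_induction (W.isInternal X) (p := fun b => bf W X D f (f a) b =
    bf W X D f a (W.cl X D * b)) ?_ ?_ b
  swap
  · intro b c hb hc
    rw [map_add, hb, hc, mul_add, map_add]
  intro j b hb
  have h2 := F.f_gr ha
  rcases lt_or_ge i 2 with hi | hi
  · rw [h2.2 hi, map_zero, LinearMap.zero_apply, F.bf_deg ha (F.e_gr hb) (by omega)]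
  · obtain ⟨i', rfl⟩ : ∃ i', i = i' + 2 := ⟨i - 2, by omega⟩
    rw [F.symm hb (h2.1 i' rfl), ← F.bf_e_left, F.symm (F.e_gr hb) ha]
    congr 1
    rw [pow_add]; simp

/-- The weight operator is self-adjoint. -/
lemma wt_self (a b : W.H X) :
    bf W X D f (wt (W.isInternal X) X.dim a) b = bf W X D f a (wt (W.isInternal X) X.dim b) := by
  refine gr_induction (W.isInternal X) (p := fun a => bf W X D f (wt (W.isInternal X) X.dim a) b =
    bf W X D f a (wt (W.isInternal X) X.dim b)) ?_ ?_ a
  swap
  · intro a a' ha ha'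
    rw [map_add, map_add, LinearMap.add_apply, ha, ha', map_add, LinearMap.add_apply]
  intro i a ha
  refine gr_induction (W.isInternal X) (p := fun b => bf W X D f (wt (W.isInternal X) X.dim a) b =
    bf W X D f a (wt (W.isInternal X) X.dim b)) ?_ ?_ b
  swap
  · intro b b' hb hb'
    rw [map_add, hb, hb', map_add, map_add]
  intro j b hb
  rw [Fr.wt_gr ha, Fr.wt_gr hb, map_smul, LinearMap.smul_apply, map_smul]
  by_cases hij : i = j
  · rw [hij]
  · rw [F.bf_deg ha hb hij, smul_zero, smul_zero]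

end Fz

end Pool.Agent.H66SG
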