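import Pool.Agent.H66SG.Cnt

/-!
# The signature is exponentially small compared with the rank
-/

set_option autoImplicit false

open CategoryTheory AlgebraicGeometry Finset

universe u v

namespace Pool.Agent.H66SG

open Pool.Agent.H914 Pool.Agent.H914.VarClass Pool.Agent.H914.VarClass.Obj
  Pool.Agent.H914.WeilCohomology Pool.Agent.H281R3.HT Pool.Agent.W552 Pool.Agent.TH720.LB
  Pool.Agent.X310 Pool.Agent.X310.Mom Pool.Agent.W539.Ker

variable {k : Type u} [Field k] {𝒱 : VarClass k} {ops : CycleOps 𝒱}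
  {W : WeilCohomology.{u, v} ops} {X V A B : 𝒱.Obj} {D : X.Cycles}
  {f : Module.End W.K (W.H X)}

/-- The number of squares. -/
noncomputable def tot (W : WeilCohomology.{u, v} ops) (X : 𝒱.Obj) (D : X.Cycles) : ℕ :=
  ∑ n ∈ range (X.dim / 2 + 1), cnt W X D n

lemma nsum_le (d : ℕ) (σ : ℕ → ℕ) (m : ℤ) : nsum d σ m ≤ ∑ n ∈ range (d / 2 + 1), σ n := by
  apply Finset.sum_le_sum
  intro n _
  split_ifs
  · exact le_rfl
  · exact Nat.zero_le _

/-- The rank is at most `dim + 1` times the number of squares. -/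
lemma rank_le (F : Fz W X D f) {r : ℕ} {σ : ℤ} (hs : Sz (bf W X D f) (CL W X D f) r σ) :
    r ≤ (X.dim + 1) * tot W X D := by
  classical
  have h1 := sz_sum (β := bf W X D f) (P := CL W X D f) (κ := Fin (X.dim + 1))
    (Pl := fun l u => CL W X D f u ∧ wt (W.isInternal X) X.dim u =
      ((2 * (l : ℕ) - X.dim : ℤ) : W.K) • u)
    (fun l => rf_sub (rf_cl F) (by rw [map_zero, smul_zero])
      (fun x y hx hy => by rw [map_add, hx, hy, smul_add])
      (fun q x hx => by rw [map_smul, hx, smul_comm]))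
    (fun l w hw => hw.1) ?_ ?_ (fun l => exists_fam0 F _)
  · have h2 := ((rf_cl F).unique hs h1).1
    rw [h2]
    calc ∑ l : Fin (X.dim + 1), nsum X.dim (cnt W X D) (2 * (l : ℕ) - X.dim) ≤
          ∑ _l : Fin (X.dim + 1), tot W X D := Finset.sum_le_sum (fun l _ => nsum_le _ _ _)
      _ = _ := by rw [Finset.sum_const, Finset.card_univ, Fintype.card_fin, smul_eq_mul]
  · intro w hw
    refine ⟨fun l => H914.proj (W.isInternal X) (2 * (l : ℕ)) w, fun l => ⟨hw.proj F _, ?_⟩, ?_⟩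
    · rw [Fr.wt_gr (proj_mem _ _ _)]
      push_cast
      rfl
    · conv_lhs => rw [Fr.AS_sum hw.as]
      rw [Finset.sum_range]
  · intro l l' w w' hne hw hw'
    have h2 := F.wt_self w w'
    rw [hw.2, hw'.2, map_smul, LinearMap.smul_apply, map_smul, smul_eq_mul, smul_eq_mul,
      ← sub_eq_zero, ← sub_mul] at h2
    rcases mul_eq_zero.1 h2 with h3 | h3
    · exfalso
      have h4 : ((2 * (l : ℕ) - X.dim : ℤ) : W.K) = ((2 * (l' : ℕ) - X.dim : ℤ) : W.K) :=
        sub_eq_zero.1 h3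
      have h5 : (2 * (l : ℕ) - X.dim : ℤ) = (2 * (l' : ℕ) - X.dim : ℤ) := by exact_mod_cast h4
      apply hne
      apply Fin.ext
      omega
    · exact h3

lemma wsum_low (d : ℕ) (σ : ℕ → ℤ) {n : ℕ} (hn : 2 * n ≤ d) :
    wsum d σ (2 * n - d) = ∑ i ∈ range (n + 1), σ i := by
  rw [wsum, ← Finset.sum_filter]
  apply Finset.sum_congr _ (fun _ _ => rfl)
  ext i
  rw [Finset.mem_filter, Finset.mem_range, Finset.mem_range]
  constructor
  · rintro ⟨h1, h2, h3⟩
    have h4 := (abs_le.1 h2).1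
    omega
  · intro h1
    refine ⟨by omega, abs_le.2 ⟨by omega, by omega⟩, ?_⟩
    exact ⟨n, by ring⟩

lemma sig_le {d : ℕ} {σ : ℕ → ℤ} {B : ℤ} (hB : ∀ m, |wsum d σ m| ≤ B) {n : ℕ}
    (hn : 2 * n ≤ d) : |σ n| ≤ 2 * B := by
  have h1 := hB (2 * n - d)
  rw [wsum_low d σ hn, Finset.sum_range_succ] at h1
  rcases Nat.eq_zero_or_pos n with rfl | h0
  · rw [Finset.sum_range_zero, zero_add] at h1
    have := abs_nonneg (σ 0)
    linarith
  · obtain ⟨n', rfl⟩ : ∃ n', n = n' + 1 := ⟨n - 1, by omega⟩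
    have h2 := hB (2 * n' - d)
    rw [wsum_low d σ (by omega)] at h2
    rw [abs_le] at h1 h2 ⊢
    constructor <;> linarith [h1.1, h1.2, h2.1, h2.2]

/-- A sequence with polynomial growth times a decreasing geometric sequence is bounded. -/
lemma poly_geom (d : ℕ) {r : ℝ} (hr0 : 0 < r) (hr1 : r < 1) :
    ∃ B : ℝ, 0 ≤ B ∧ ∀ M : ℕ, ((((M + 1) * d : ℕ) : ℝ) + 2) * ((((M + 1) * d : ℕ) : ℝ) + 1) *
      r ^ M ≤ B := by
  have h1 := tendsto_pow_const_mul_const_pow_of_abs_lt_one 2 (r := r)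
    (by rw [abs_of_pos hr0]; exact hr1)
  obtain ⟨B0, hB0⟩ := h1.bddAbove_range
  have hB : ∀ n : ℕ, (n : ℝ) ^ 2 * r ^ n ≤ B0 := fun n => hB0 ⟨n, rfl⟩
  have hB00 : 0 ≤ B0 := by
    have := hB 0
    simpa using this
  refine ⟨((d : ℝ) + 2) ^ 2 * (B0 / r), by positivity, ?_⟩
  intro M
  have h2 := hB (M + 1)
  have h3 : ((M : ℝ) + 1) ^ 2 * r ^ M ≤ B0 / r := by
    rw [le_div_iff₀ hr0]
    push_cast at h2
    calc ((M : ℝ) + 1) ^ 2 * r ^ M * r = ((M : ℝ) + 1) ^ 2 * r ^ (M + 1) := by rw [pow_succ]; ring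
      _ ≤ B0 := h2
  have h4 : ((((M + 1) * d : ℕ) : ℝ) + 2) ≤ ((d : ℝ) + 2) * ((M : ℝ) + 1) := by
    push_cast
    have : (0 : ℝ) ≤ M := Nat.cast_nonneg M
    nlinarith
  have h5 : ((((M + 1) * d : ℕ) : ℝ) + 1) ≤ ((d : ℝ) + 2) * ((M : ℝ) + 1) := by linarith
  have h6 : (0 : ℝ) ≤ (((M + 1) * d : ℕ) : ℝ) := Nat.cast_nonneg _
  calc ((((M + 1) * d : ℕ) : ℝ) + 2) * ((((M + 1) * d : ℕ) : ℝ) + 1) * r ^ M ≤
        (((d : ℝ) + 2) * ((M : ℝ) + 1)) * (((d : ℝ) + 2) * ((M : ℝ) + 1)) * r ^ M := by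
        apply mul_le_mul_of_nonneg_right _ (by positivity)
        exact mul_le_mul h4 h5 (by positivity) (by positivity)
    _ = ((d : ℝ) + 2) ^ 2 * (((M : ℝ) + 1) ^ 2 * r ^ M) := by ring
    _ ≤ _ := mul_le_mul_of_nonneg_left h3 (by positivity)

/-- **The signature of the powers is exponentially smaller than the rank.** -/
theorem bound (F : Fz W X D f) (h1 : ∃ q : ℚ, 0 < q ∧ bf W X D f 1 1 = (q : W.K)) {s : ℕ}
    {b : Bool → W.H (pw X s)} {l : Bool → ℚ} {μ : ℤ} (H : Pair W D f s b l μ) {ρ : ℝ}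
    (hρ : 0 < ρ)
    (hρ' : 1 - 2 / (Module.finrank W.K (W.H X) : ℝ) ^ (s + 1) < ρ ^ (s + 1)) :
    ∃ C : ℝ, ∀ M, ((∑ n ∈ range ((pw X M).dim / 2 + 1),
      |sig W (pw X M) (pwDiv ops D M) n| : ℤ) : ℝ) ≤
        C * ρ ^ M * tot W (pw X M) (pwDiv ops D M) := by
  classical
  choose R S hR using fun M c => (rf_ts (s := s) (b := b) F M c).exists_sz
  choose Rm Sm hRm using fun M c m => (rf_tw (s := s) (b := b) F M c m).exists_sz
  have hTS0 : ∀ M, TS W D f s b M 0 = CP W D f M := by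
    intro M
    funext w
    apply propext
    exact ⟨fun h => h.1, fun h => ⟨h, fun _ _ i hi => absurd hi (by omega)⟩⟩
  have hrec : ∀ N c, c * (s + 1) ≤ N →
      R (N + s + 1) c = 2 * R N c + R (N + s + 1) (c + 1) := fun N c hc =>
    ((rf_ts F _ _).unique (hR _ _) (ts_rec F H hc (hR N c) (hR _ _))).1
  have hsg : ∀ N c m, c * (s + 1) ≤ N →
      Sm (N + s + 1) c m = Sm (N + s + 1) (c + 1) m := fun N c m hc =>
    ((rf_tw F _ _ m).unique (hRm _ _ m) (tw_rec F H hc (hRm N c (m - μ)) (hRm _ _ m))).2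
  have hsgK : ∀ K e m, ∀ c ≤ K, Sm (K * (s + 1) + e) 0 m = Sm (K * (s + 1) + e) c m := by
    intro K e m c
    induction c with
    | zero => intro _; rfl
    | succ c ih =>
      intro hc
      obtain ⟨K', rfl⟩ : ∃ K', K = K' + 1 := ⟨K - 1, by omega⟩
      rw [ih (by omega), show (K' + 1) * (s + 1) + e = (K' * (s + 1) + e) + s + 1 by ring]
      apply hsg
      have := Nat.mul_le_mul_right (s + 1) (show c ≤ K' by omega)
      omega
  have hSm : ∀ M c m, |Sm M c m| ≤ R M c := by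
    intro M c m
    refine (hRm M c m).abs_le.trans ?_
    obtain ⟨ι, _, y, t, hy, hcard, _⟩ := hRm M c m
    have := (rf_ts F M c).le (hR M c) (fun i => (hy.mem i).1) hy.ne hy.sq hy.orth
    rw [hcard] at this
    exact_mod_cast this
  have hSw : ∀ M m, Sm M 0 m = wsum (pw X M).dim (sig W (pw X M) (pwDiv ops D M)) m := by
    intro M m
    have e1 := hRm M 0 m
    have e2 : TW W D f s b M 0 m = (fun u => CP W D f M u ∧
        wt (W.isInternal (pw X M)) (pw X M).dim u = (m : W.K) • u) := by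
      funext w
      rw [TW, hTS0]
    rw [e2] at e1
    refine (RF.unique ?_ e1 (exists_fam0 (pw_fz F M) m)).2
    have := rf_tw (s := s) (b := b) F M 0 m
    rwa [e2] at this
  have hR0 : ∀ M, Sz (bp W D f M) (CP W D f M) (R M 0) (S M 0) := by
    intro M
    have := hR M 0
    rwa [hTS0] at this
  have w1 : ∀ M, 1 ≤ R M 0 := by
    intro M
    obtain ⟨q, hq, hq'⟩ := one_sq_pw F h1 M
    have := (rf_cl (pw_fz F M)).le (hR0 M) (κ := Unit) (z := fun _ => 1) (s := fun _ => q)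
      (fun _ => cl_one (pw_fz F M)) (fun _ => hq.ne') (fun _ => hq')
      (fun i j hij => absurd rfl hij)
    simpa using this
  have w2 : ∀ M M', R M 0 * R M' 0 ≤ R (M + M' + 1) 0 := by
    intro M M'
    obtain ⟨ι, _, y, t, hy, hcard, _⟩ := hR0 M
    obtain ⟨ι', _, y', t', hy', hcard', _⟩ := hR0 M'
    have hpl := pl_pw F M M' 0 (by omega)
    have := (rf_cl (pw_fz F (M + M' + 1))).le (hR0 (M + M' + 1)) (κ := ι × ι')
      (z := fun x => W.map (frg X (M + M' + 1) M M' 0) (y x.1) *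
        W.map (blk X (M + M' + 1) M' 0) (y' x.2)) (s := fun x => t x.1 * t' x.2)
      (fun x => hpl.cl_E (hy.mem x.1) (hy'.mem x.2))
      (fun x => mul_ne_zero (hy.ne x.1) (hy'.ne x.2))
      (fun x => by rw [hpl.form, hy.sq, hy'.sq, Rat.cast_mul])
      (fun x x' hne => by
        rw [hpl.form]
        by_cases h : x.1 = x'.1
        · rw [hy'.orth x.2 x'.2 (fun h' => hne (Prod.ext h h')), mul_zero]
        · rw [hy.orth x.1 x'.1 h, zero_mul])
    rwa [Fintype.card_prod, hcard, hcard'] at this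
  have w3 : ∀ M, R M 0 ≤ (Module.finrank W.K (W.H X)) ^ (M + 1) := by
    intro M
    rw [← finrank_pw]
    exact (hR0 M).le_finrank
  -- a smaller rate
  obtain ⟨ρ0, hρ0, hρ00, hρ0'⟩ : ∃ ρ0 : ℝ, ρ0 < ρ ∧ 0 < ρ0 ∧
      1 - 2 / (Module.finrank W.K (W.H X) : ℝ) ^ (s + 1) < ρ0 ^ (s + 1) := by
    have e1 : ∀ᶠ x in nhds ρ, 1 - 2 / (Module.finrank W.K (W.H X) : ℝ) ^ (s + 1) <
        x ^ (s + 1) := (continuous_pow (s + 1)).continuousAt.eventually (lt_mem_nhds hρ')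
    have e2 := (e1.and (lt_mem_nhds hρ)).exists_lt
    obtain ⟨x, hx, hx', hx''⟩ := e2
    exact ⟨x, hx, hx'', hx'⟩
  choose Cf hCf using fun e => Ana.growth w1 w2 w3 (R := R) (fun M => rfl) hrec hρ00 hρ0' e
  obtain ⟨B, hB0, hB⟩ := poly_geom X.dim (r := ρ0 / ρ) (by positivity)
    ((div_lt_one hρ).2 hρ0)
  set C1 : ℝ := ∑ e ∈ range (s + 1), |Cf e| * (ρ0 ^ e)⁻¹ with hC1
  have hC1' : ∀ e < s + 1, |Cf e| * (ρ0 ^ e)⁻¹ ≤ C1 := fun e he =>
    Finset.single_le_sum (f := fun e => |Cf e| * (ρ0 ^ e)⁻¹) (fun i _ => by positivity)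
      (Finset.mem_range.2 he)
  have hC10 : 0 ≤ C1 := Finset.sum_nonneg (fun i _ => by positivity)
  refine ⟨C1 * B, ?_⟩
  intro M
  obtain ⟨K, e, he, rfl⟩ : ∃ K e, e < s + 1 ∧ M = K * (s + 1) + e :=
    ⟨M / (s + 1), M % (s + 1), Nat.mod_lt _ (by omega), (Nat.div_add_mod' M (s + 1)).symm⟩
  set M := K * (s + 1) + e with hM
  -- the signatures
  have e1 : ∀ m, |wsum (pw X M).dim (sig W (pw X M) (pwDiv ops D M)) m| ≤ (R M K : ℤ) := by
    intro m
    rw [← hSw, hsgK K e m K le_rfl]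
    exact hSm _ _ m
  have e2 : ∑ n ∈ range ((pw X M).dim / 2 + 1), |sig W (pw X M) (pwDiv ops D M) n| ≤
      (((pw X M).dim : ℤ) + 2) * R M K := by
    calc ∑ n ∈ range ((pw X M).dim / 2 + 1), |sig W (pw X M) (pwDiv ops D M) n| ≤
          ∑ _n ∈ range ((pw X M).dim / 2 + 1), 2 * (R M K : ℤ) := by
            apply Finset.sum_le_sum
            intro n hn
            rw [Finset.mem_range] at hn
            exact sig_le e1 (by omega)
      _ = ((((pw X M).dim / 2 : ℕ) : ℤ) + 1) * (2 * (R M K : ℤ)) := by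
          rw [Finset.sum_const, Finset.card_range, nsmul_eq_mul]
          push_cast
          ring
      _ ≤ _ := by
          have h3 : ((((pw X M).dim / 2 : ℕ) : ℤ) + 1) * 2 ≤ ((pw X M).dim : ℤ) + 2 := by omega
          have h4 : (0 : ℤ) ≤ R M K := by positivity
          calc ((((pw X M).dim / 2 : ℕ) : ℤ) + 1) * (2 * (R M K : ℤ)) =
              (((((pw X M).dim / 2 : ℕ) : ℤ) + 1) * 2) * R M K := by ring
            _ ≤ _ := mul_le_mul_of_nonneg_right h3 h4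
  have e3 : ((∑ n ∈ range ((pw X M).dim / 2 + 1),
      |sig W (pw X M) (pwDiv ops D M) n| : ℤ) : ℝ) ≤ (((pw X M).dim : ℝ) + 2) * R M K := by
    exact_mod_cast e2
  have e4 := rank_le (pw_fz F M) (hR0 M)
  have e5 : (R M 0 : ℝ) ≤ (((pw X M).dim : ℝ) + 1) * tot W (pw X M) (pwDiv ops D M) := by
    exact_mod_cast e4
  have e6 := hCf e K
  have e7 : (R M K : ℝ) ≤ C1 * ρ0 ^ M * R M 0 := by
    refine e6.trans ?_
    apply mul_le_mul_of_nonneg_right _ (by positivity)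
    calc Cf e * ρ0 ^ (K * (s + 1)) ≤ |Cf e| * ρ0 ^ (K * (s + 1)) :=
          mul_le_mul_of_nonneg_right (le_abs_self _) (by positivity)
      _ = |Cf e| * (ρ0 ^ e)⁻¹ * ρ0 ^ M := by
          rw [hM, pow_add]
          field_simp
      _ ≤ C1 * ρ0 ^ M := mul_le_mul_of_nonneg_right (hC1' e he) (by positivity)
  have e8 : ((pw X M).dim : ℝ) = (((M + 1) * X.dim : ℕ) : ℝ) := by rw [pw_dim]
  have e9 := hB M
  rw [← e8, div_pow] at e9
  set T : ℝ := (tot W (pw X M) (pwDiv ops D M) : ℝ) with hT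
  have hT0 : 0 ≤ T := Nat.cast_nonneg _
  have hd0 : (0 : ℝ) ≤ ((pw X M).dim : ℝ) := Nat.cast_nonneg _
  calc ((∑ n ∈ range ((pw X M).dim / 2 + 1),
      |sig W (pw X M) (pwDiv ops D M) n| : ℤ) : ℝ) ≤ (((pw X M).dim : ℝ) + 2) * R M K := e3
    _ ≤ (((pw X M).dim : ℝ) + 2) * (C1 * ρ0 ^ M * R M 0) :=
        mul_le_mul_of_nonneg_left e7 (by positivity)
    _ ≤ (((pw X M).dim : ℝ) + 2) * (C1 * ρ0 ^ M * ((((pw X M).dim : ℝ) + 1) * T)) := by
        apply mul_le_mul_of_nonneg_left _ (by positivity)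
        exact mul_le_mul_of_nonneg_left e5 (by positivity)
    _ = C1 * ((((pw X M).dim : ℝ) + 2) * (((pw X M).dim : ℝ) + 1) * (ρ0 ^ M / ρ ^ M)) *
        ρ ^ M * T := by
        field_simp
    _ ≤ C1 * B * ρ ^ M * T := by
        apply mul_le_mul_of_nonneg_right _ hT0
        apply mul_le_mul_of_nonneg_right _ (by positivity)
        exact mul_le_mul_of_nonneg_left e9 hC10

end Pool.Agent.H66SG
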