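import Pool.Agent.H66SG.Frm

/-!
# Morphisms to two factors which behave like the projections of a product
-/

set_option autoImplicit false

open CategoryTheory AlgebraicGeometry

universe u v w

namespace Pool.Agent.H66SG

open Pool.Agent.H914 Pool.Agent.H914.VarClass Pool.Agent.H914.VarClass.Obj
  Pool.Agent.H914.WeilCohomology Pool.Agent.H281R3.HT Pool.Agent.W552 Pool.Agent.TH720.LB

variable {k : Type u} [Field k] {𝒱 : VarClass k} {ops : CycleOps 𝒱}
  {W : WeilCohomology.{u, v} ops} {X Y Z V A B : 𝒱.Obj}

/-- A pair of morphisms which behave like the projections of a product, with frames. -/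
structure PL (W : WeilCohomology.{u, v} ops) {V A B : 𝒱.Obj} (p : V ⟶ A) (q : V ⟶ B)
    (DV : V.Cycles) (fV : Module.End W.K (W.H V)) (DA : A.Cycles) (fA : Module.End W.K (W.H A))
    (DB : B.Cycles) (fB : Module.End W.K (W.H B)) : Prop where
  FV : Fz W V DV fV
  FA : Fz W A DA fA
  FB : Fz W B DB fB
  dim : V.dim = A.dim + B.dim
  hL : W.cl V DV = W.map p (W.cl A DA) + W.map q (W.cl B DB)
  hf : ∀ a b, fV (W.map p a * W.map q b) =
    W.map p (fA a) * W.map q b + W.map p a * W.map q (fB b)
  form : ∀ a b a' b', bf W V DV fV (W.map p a * W.map q b) (W.map p a' * W.map q b') =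
    bf W A DA fA a a' * bf W B DB fB b b'
  tr : ∀ a b, W.tr V (W.map p a * W.map q b) = W.tr A a * W.tr B b
  ind : ∀ {P : W.H V → Prop}, (∀ x y, P x → P y → P (x + y)) →
    (∀ i j, ∀ a ∈ W.gr A i, ∀ b ∈ W.gr B j, P (W.map p a * W.map q b)) → ∀ v, P v

namespace PL

/-- The projections of a product. -/
lemma base {D : X.Cycles} {f : Module.End W.K (W.H X)} (F : Fz W X D f) {E : Y.Cycles}
    {g : Module.End W.K (W.H Y)} (G : Fz W Y E g) :
    PL W (fst X Y) (snd X Y) (sumDiv ops D E) (extSum W f g) D f E g where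
  FV := F.prod G
  FA := F
  FB := G
  dim := dim_prod X Y
  hL := by rw [sumDiv, map_add, W.cl_pull, W.cl_pull]
  hf := extSum_tmul f g
  form := fun a b a' b' => F.bf_ext G a a' b b'
  tr := fun a b => W.tr_prod a b
  ind := fun hadd h v => W.kunneth_induction hadd h v

lemma sgn_sq (n : ℕ) : (-1 : W.K) ^ n * (-1 : W.K) ^ n = 1 := by
  rw [← mul_pow]; simp

lemma commf {DB : B.Cycles} {fB : Module.End W.K (W.H B)} (G : Fz W B DB fB) (q : V ⟶ B)
    {i j : ℕ} {v : W.H V} (hv : v ∈ W.gr V i) {b : W.H B} (hb : b ∈ W.gr B j) :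
    W.map q (fB b) * v = (-1 : W.K) ^ (j * i) • (v * W.map q (fB b)) := by
  have h2 := G.f_gr hb
  rcases lt_or_ge j 2 with hj | hj
  · rw [h2.2 hj]; simp
  · obtain ⟨j', rfl⟩ : ∃ j', j = j' + 2 := ⟨j - 2, by omega⟩
    rw [W.comm (W.map_mem q (h2.1 j' rfl)) hv]
    congr 1
    rw [add_mul, pow_add, pow_mul (-1 : W.K) 2]
    simp

variable {p : V ⟶ A} {q : V ⟶ B} {DV : V.Cycles} {fV : Module.End W.K (W.H V)} {DA : A.Cycles}
  {fA : Module.End W.K (W.H A)} {DB : B.Cycles} {fB : Module.End W.K (W.H B)}

/-- Exchange of the two factors. -/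
lemma symm (h : PL W p q DV fV DA fA DB fB) : PL W q p DV fV DB fB DA fA where
  FV := h.FV
  FA := h.FB
  FB := h.FA
  dim := by rw [h.dim, add_comm]
  hL := by rw [h.hL, add_comm]
  hf := by
    intro b a
    refine gr_induction (W.isInternal B) (p := fun b => fV (W.map q b * W.map p a) =
      W.map q (fB b) * W.map p a + W.map q b * W.map p (fA a)) ?_ ?_ b
    swap
    · intro b b' hb hb'
      rw [map_add, add_mul, map_add, hb, hb', map_add, map_add, add_mul, add_mul]
      abel
    intro j b hb
    refine gr_induction (W.isInternal A) (p := fun a => fV (W.map q b * W.map p a) =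
      W.map q (fB b) * W.map p a + W.map q b * W.map p (fA a)) ?_ ?_ a
    swap
    · intro b b' hb hb'
      rw [map_add, mul_add, map_add, hb, hb', map_add, map_add, mul_add, mul_add]
      abel
    intro i a ha
    have h1 := commf h.FA p (W.map_mem q hb) ha
    rw [W.comm (W.map_mem q hb) (W.map_mem p ha), map_smul, h.hf,
      commf h.FB q (W.map_mem p ha) hb, smul_add, add_comm]
    congr 1
    rw [h1, smul_smul, mul_comm i j, sgn_sq, one_smul]
  form := by
    intro b a b' a'
    refine gr_induction (W.isInternal B) (p := fun b => bf W V DV fV (W.map q b * W.map p a)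
      (W.map q b' * W.map p a') = bf W B DB fB b b' * bf W A DA fA a a') ?_ ?_ b
    swap
    · intro b c hb hc
      rw [map_add, add_mul, map_add, LinearMap.add_apply, hb, hc, map_add, LinearMap.add_apply,
        add_mul]
    intro j b hb
    refine gr_induction (W.isInternal A) (p := fun a => bf W V DV fV (W.map q b * W.map p a)
      (W.map q b' * W.map p a') = bf W B DB fB b b' * bf W A DA fA a a') ?_ ?_ a
    swap
    · intro b c hb hc
      rw [map_add, mul_add, map_add, LinearMap.add_apply, hb, hc, map_add, LinearMap.add_apply,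
        mul_add]
    intro i a ha
    refine gr_induction (W.isInternal B) (p := fun b' => bf W V DV fV (W.map q b * W.map p a)
      (W.map q b' * W.map p a') = bf W B DB fB b b' * bf W A DA fA a a') ?_ ?_ b'
    swap
    · intro b c hb hc
      rw [map_add, add_mul, map_add, hb, hc, map_add, add_mul]
    intro j' b' hb'
    refine gr_induction (W.isInternal A) (p := fun a' => bf W V DV fV (W.map q b * W.map p a)
      (W.map q b' * W.map p a') = bf W B DB fB b b' * bf W A DA fA a a') ?_ ?_ a'
    swap
    · intro b c hb hc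
      rw [map_add, mul_add, map_add, hb, hc, map_add, mul_add]
    intro i' a' ha'
    rw [W.comm (W.map_mem q hb) (W.map_mem p ha), W.comm (W.map_mem q hb') (W.map_mem p ha'),
      map_smul (bf W V DV fV), LinearMap.smul_apply, map_smul, h.form, smul_eq_mul, smul_eq_mul]
    by_cases hi : i = i'
    · by_cases hj : j = j'
      · subst hi hj
        rw [← mul_assoc, sgn_sq, one_mul, mul_comm]
      · rw [h.FB.bf_deg hb hb' hj]; ring
    · rw [h.FA.bf_deg ha ha' hi]; ring
  tr := by
    intro b a
    refine gr_induction (W.isInternal B) (p := fun b => W.tr V (W.map q b * W.map p a) =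
      W.tr B b * W.tr A a) ?_ ?_ b
    swap
    · intro b c hb hc
      rw [map_add, add_mul, map_add, hb, hc, map_add, add_mul]
    intro j b hb
    refine gr_induction (W.isInternal A) (p := fun a => W.tr V (W.map q b * W.map p a) =
      W.tr B b * W.tr A a) ?_ ?_ a
    swap
    · intro b c hb hc
      rw [map_add, mul_add, map_add, hb, hc, map_add, mul_add]
    intro i a ha
    rw [W.comm (W.map_mem q hb) (W.map_mem p ha), map_smul, h.tr, smul_eq_mul]
    by_cases hi : i = 2 * A.dim
    · rw [hi, show j * (2 * A.dim) = 2 * (j * A.dim) by ring, pow_mul]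
      simp [mul_comm]
    · rw [W.tr_eq_zero ha hi]; ring
  ind := by
    intro P hadd hP v
    refine h.ind hadd ?_ v
    intro i j a ha b hb
    have h1 : W.map p a * W.map q b = W.map q ((-1 : W.K) ^ (i * j) • b) * W.map p a := by
      rw [W.comm (W.map_mem p ha) (W.map_mem q hb), map_smul, smul_mul_assoc]
    rw [h1]
    exact hP j i _ (Submodule.smul_mem _ _ hb) a ha

/-- One more factor in front of the first factor. -/
lemma step (h : PL W p q DV fV DA fA DB fB) {D : X.Cycles} {f : Module.End W.K (W.H X)}
    (F : Fz W X D f) : PL W (Obj.lift (fst X V) (snd X V ≫ p)) (snd X V ≫ q)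
      (sumDiv ops D DV) (extSum W f fV) (sumDiv ops D DA) (extSum W f fA) DB fB where
  FV := F.prod h.FV
  FA := F.prod h.FA
  FB := h.FB
  dim := by rw [dim_prod, dim_prod, h.dim, add_assoc]
  hL := by
    rw [sumDiv, sumDiv, map_add, W.cl_pull, W.cl_pull, map_add, W.cl_pull, W.cl_pull, map_add,
      ← W.map_comp, ← W.map_comp, Obj.lift_fst, Obj.lift_snd, h.hL, map_add, W.map_comp,
      W.map_comp]
    abel
  hf := by
    intro y b
    refine W.kunneth_induction (p := fun y => extSum W f fV
      (W.map (Obj.lift (fst X V) (snd X V ≫ p)) y * W.map (snd X V ≫ q) b) =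
      W.map (Obj.lift (fst X V) (snd X V ≫ p)) (extSum W f fA y) * W.map (snd X V ≫ q) b +
      W.map (Obj.lift (fst X V) (snd X V ≫ p)) y * W.map (snd X V ≫ q) (fB b)) ?_ ?_ y
    · intro y y' hy hy'
      rw [map_add, add_mul, map_add, hy, hy', map_add, map_add, add_mul, add_mul]
      abel
    · intro i j x hx a ha
      rw [extSum_tmul]
      simp only [map_add, map_mul, ← W.map_comp, Obj.lift_fst, Obj.lift_snd]
      rw [W.map_comp (snd X V) p, W.map_comp (snd X V) q, mul_assoc, ← map_mul, extSum_tmul,
        h.hf]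
      simp only [map_add, map_mul, W.map_comp, add_mul, mul_add, mul_assoc]
      abel
  form := by
    intro y b y' b'
    refine W.kunneth_induction (p := fun y => bf W (X.prod V) (sumDiv ops D DV) (extSum W f fV)
      (W.map (Obj.lift (fst X V) (snd X V ≫ p)) y * W.map (snd X V ≫ q) b)
      (W.map (Obj.lift (fst X V) (snd X V ≫ p)) y' * W.map (snd X V ≫ q) b') =
      bf W (X.prod A) (sumDiv ops D DA) (extSum W f fA) y y' * bf W B DB fB b b') ?_ ?_ y
    · intro y y' hy hy'
      rw [map_add, add_mul, map_add, LinearMap.add_apply, hy, hy', map_add, LinearMap.add_apply,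
        add_mul]
    intro i j x hx a ha
    refine W.kunneth_induction (p := fun y' => bf W (X.prod V) (sumDiv ops D DV) (extSum W f fV)
      (W.map (Obj.lift (fst X V) (snd X V ≫ p)) (W.map (fst X A) x * W.map (snd X A) a) *
        W.map (snd X V ≫ q) b)
      (W.map (Obj.lift (fst X V) (snd X V ≫ p)) y' * W.map (snd X V ≫ q) b') =
      bf W (X.prod A) (sumDiv ops D DA) (extSum W f fA) (W.map (fst X A) x * W.map (snd X A) a)
        y' * bf W B DB fB b b') ?_ ?_ y'
    · intro y y' hy hy'
      rw [map_add, add_mul, map_add, hy, hy', map_add, add_mul]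
    intro i' j' x' hx' a' ha'
    simp only [map_mul, ← W.map_comp, Obj.lift_fst, Obj.lift_snd]
    rw [W.map_comp (snd X V) p, W.map_comp (snd X V) q, W.map_comp (snd X V) p,
      W.map_comp (snd X V) q, mul_assoc, ← map_mul, mul_assoc, ← map_mul]
    have h1 := F.bf_ext h.FV x x' (W.map p a * W.map q b) (W.map p a' * W.map q b')
    have h2 := F.bf_ext h.FA x x' a a'
    rw [ext, ext] at h1 h2
    rw [sumDiv, sumDiv, h1, h2, h.form]
    ring
  tr := by
    intro y b
    refine W.kunneth_induction (p := fun y => W.tr (X.prod V)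
      (W.map (Obj.lift (fst X V) (snd X V ≫ p)) y * W.map (snd X V ≫ q) b) =
      W.tr (X.prod A) y * W.tr B b) ?_ ?_ y
    · intro y y' hy hy'
      rw [map_add, add_mul, map_add, hy, hy', map_add, add_mul]
    intro i j x hx a ha
    simp only [map_mul, ← W.map_comp, Obj.lift_fst, Obj.lift_snd]
    rw [W.map_comp (snd X V) p, W.map_comp (snd X V) q, mul_assoc, ← map_mul, W.tr_prod, h.tr,
      W.tr_prod, mul_assoc]
  ind := by
    intro P hadd hP v
    refine W.kunneth_induction hadd ?_ v
    intro i j x hx w _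
    refine h.ind (P := fun w => P (W.map (fst X V) x * W.map (snd X V) w)) ?_ ?_ w
    · intro a b ha hb
      rw [map_add, mul_add]
      exact hadd _ _ ha hb
    · intro i' j' a ha b hb
      have h1 := hP (i + i') j' (W.map (fst X A) x * W.map (snd X A) a)
        (W.mul_mem (W.map_mem _ hx) (W.map_mem _ ha)) b hb
      simp only [map_mul, ← W.map_comp, Obj.lift_fst, Obj.lift_snd] at h1
      rw [W.map_comp (snd X V) p, W.map_comp (snd X V) q, mul_assoc, ← map_mul] at h1
      exact h1

/-- One more factor in front of the second factor. -/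
lemma step' (h : PL W p q DV fV DA fA DB fB) {D : X.Cycles} {f : Module.End W.K (W.H X)}
    (F : Fz W X D f) : PL W (snd X V ≫ p) (Obj.lift (fst X V) (snd X V ≫ q))
      (sumDiv ops D DV) (extSum W f fV) DA fA (sumDiv ops D DB) (extSum W f fB) :=
  (h.symm.step F).symm

end PL

end Pool.Agent.H66SG
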