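import Pool.Agent.H66SG.Fam

/-!
# The recursion for the ranks and the signatures
-/

set_option autoImplicit false

open CategoryTheory AlgebraicGeometry Finset

universe u v

namespace Pool.Agent.H66SG

open Pool.Agent.H914 Pool.Agent.H914.VarClass Pool.Agent.H914.VarClass.Obj
  Pool.Agent.H914.WeilCohomology Pool.Agent.H281R3.HT Pool.Agent.W552 Pool.Agent.TH720.LB
  Pool.Agent.X310 Pool.Agent.X310.Mom Pool.Agent.W539.Ker

variable {k : Type u} [Field k] {𝒱 : VarClass k} {ops : CycleOps 𝒱}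
  {W : WeilCohomology.{u, v} ops} {X V A B : 𝒱.Obj} {D : X.Cycles}
  {f : Module.End W.K (W.H X)}

/-- The form is symmetric on the sums of algebraic classes. -/
lemma Fz.symm_as (F : Fz W X D f) {x y : W.H X} (hx : AS W X x) (hy : AS W X y) :
    bf W X D f x y = bf W X D f y x := by
  refine AS.ind (p := fun x => bf W X D f x y = bf W X D f y x) ?_ ?_ hx
  swap
  · intro a b ha hb
    rw [map_add, LinearMap.add_apply, ha, hb, map_add]
  intro i x hx
  refine AS.ind (p := fun y => bf W X D f x y = bf W X D f y x) ?_ ?_ hy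
  swap
  · intro a b ha hb
    rw [map_add, ha, hb, map_add, LinearMap.add_apply]
  intro j y hy
  rw [F.symm (alg_gr hx) (alg_gr hy), pow_mul]
  simp

lemma rf_cl (F : Fz W X D f) : RF (bf W X D f) (CL W X D f) where
  sub := CL.ratSub
  rat := fun x y hx hy => CL.rat F hx.as hy
  symm := fun x y hx hy => F.symm_as hx.as hy.as

/-- The closed classes killed by some linear conditions. -/
lemma rf_sub {β : W.H X →ₗ[W.K] W.H X →ₗ[W.K] W.K} {P Q : W.H X → Prop} (h : RF β P)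
    (h0 : Q 0) (hadd : ∀ x y, Q x → Q y → Q (x + y))
    (hsmul : ∀ (q : ℚ) x, Q x → Q ((q : W.K) • x)) : RF β (fun x => P x ∧ Q x) where
  sub := ⟨⟨h.sub.zero, h0⟩, fun hx hy => ⟨h.sub.add hx.1 hy.1, hadd _ _ hx.2 hy.2⟩,
    fun q _ hx => ⟨h.sub.smul q hx.1, hsmul q _ hx.2⟩⟩
  rat := fun x y hx hy => h.rat x y hx.1 hy.1
  symm := fun x y hx hy => h.symm x y hx.1 hy.1

/-- The weight on an external product. -/
lemma PL.wt_E {p : V ⟶ A} {q : V ⟶ B} {DV : V.Cycles} {fV : Module.End W.K (W.H V)}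
    {DA : A.Cycles} {fA : Module.End W.K (W.H A)} {DB : B.Cycles}
    {fB : Module.End W.K (W.H B)} (h : PL W p q DV fV DA fA DB fB) (a : W.H A) (b : W.H B) :
    wt (W.isInternal V) V.dim (W.map p a * W.map q b) =
      W.map p (wt (W.isInternal A) A.dim a) * W.map q b +
        W.map p a * W.map q (wt (W.isInternal B) B.dim b) := by
  have e : ∀ {Z : 𝒱.Obj} {E : Z.Cycles} {g : Module.End W.K (W.H Z)}, Fz W Z E g →
      ∀ x, wt (W.isInternal Z) Z.dim x = W.cl Z E * g x - g (W.cl Z E * x) := by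
    intro Z E g G x
    exact (congrArg (fun F => F x) G.sl2.ef).symm
  rw [e h.FV, e h.FA, e h.FB, h.he, h.hf, mul_add, h.he, h.he, map_add fV, h.hf, h.hf]
  simp only [map_sub, sub_mul, mul_sub]
  abel

/-- A pair of orthogonal closed classes with squares of opposite signs. -/
structure Pair (W : WeilCohomology.{u, v} ops) {X : 𝒱.Obj} (D : X.Cycles)
    (f : Module.End W.K (W.H X)) (s : ℕ) (b : Bool → W.H (pw X s)) (l : Bool → ℚ) (μ : ℤ) :
    Prop where
  cp : ∀ c, CP W D f s (b c)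
  wt : ∀ c, wt (W.isInternal (pw X s)) (pw X s).dim (b c) = (μ : W.K) • b c
  sq : ∀ c, bp W D f s (b c) (b c) = (l c : W.K)
  orth : ∀ c c', c ≠ c' → bp W D f s (b c) (b c') = 0
  pos : 0 < l true
  neg : l false < 0

/-- The closed classes killed by the contractions of the first `c` blocks. -/
def TS (W : WeilCohomology.{u, v} ops) {X : 𝒱.Obj} (D : X.Cycles)
    (f : Module.End W.K (W.H X)) (s : ℕ) (b : Bool → W.H (pw X s)) (M c : ℕ)
    (w : W.H (pw X M)) : Prop :=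
  CP W D f M w ∧ ∀ N, M = N + s + 1 → ∀ i < c, ∀ ε,
    con W D f M N s (i * (s + 1)) (b ε) w = 0

/-- The classes of weight `m` among them. -/
def TW (W : WeilCohomology.{u, v} ops) {X : 𝒱.Obj} (D : X.Cycles)
    (f : Module.End W.K (W.H X)) (s : ℕ) (b : Bool → W.H (pw X s)) (M c : ℕ) (m : ℤ)
    (w : W.H (pw X M)) : Prop :=
  TS W D f s b M c w ∧ wt (W.isInternal (pw X M)) (pw X M).dim w = (m : W.K) • w

section

variable {s : ℕ} {b : Bool → W.H (pw X s)} {l : Bool → ℚ} {μ : ℤ}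

lemma rf_ts (F : Fz W X D f) (M c : ℕ) : RF (bp W D f M) (TS W D f s b M c) :=
  rf_sub (rf_cl (pw_fz F M)) (fun N _ i _ ε => map_zero _)
    (fun x y hx hy N hN i hi ε => by rw [map_add, hx N hN i hi ε, hy N hN i hi ε, add_zero])
    (fun q x hx N hN i hi ε => by rw [map_smul, hx N hN i hi ε, smul_zero])

lemma rf_tw (F : Fz W X D f) (M c : ℕ) (m : ℤ) : RF (bp W D f M) (TW W D f s b M c m) :=
  rf_sub (rf_ts F M c) (by rw [map_zero, smul_zero])
    (fun x y hx hy => by rw [map_add, hx, hy, smul_add])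
    (fun q x hx => by rw [map_smul, hx, smul_comm])

variable (F : Fz W X D f) (H : Pair W D f s b l μ)

include F H

lemma ins_ts {N c : ℕ} (hc : c * (s + 1) ≤ N) (ε : Bool) {a : W.H (pw X N)}
    (ha : TS W D f s b N c a) :
    TS W D f s b (N + s + 1) c (ins W X (N + s + 1) N s (c * (s + 1)) (b ε) a) := by
  refine ⟨ins_cp F (by omega) (H.cp ε) ha.1, ?_⟩
  intro N' hN' i hi ε'
  obtain rfl : N' = N := by omega
  obtain ⟨c', rfl⟩ : ∃ c', c = c' + 1 := ⟨c - 1, by omega⟩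
  have hcc : (c' + 1) * (s + 1) = c' * (s + 1) + s + 1 := by ring
  obtain ⟨N0, rfl⟩ : ∃ N0, N' = N0 + s + 1 := ⟨N' - (s + 1), by
    have : s + 1 ≤ (c' + 1) * (s + 1) := Nat.le_mul_of_pos_left _ (by omega)
    omega⟩
  have hij : i * (s + 1) ≤ c' * (s + 1) := Nat.mul_le_mul_right _ (by omega)
  have h1 := con_ins_late F hij (by omega : c' * (s + 1) ≤ N0 + 1) (H.cp ε') (b ε) a
  rw [hcc, h1, ha.2 N0 rfl i hi ε', map_zero]

lemma con_ts {N c : ℕ} (hc : c * (s + 1) ≤ N) (ε : Bool) {w : W.H (pw X (N + s + 1))}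
    (hw : TS W D f s b (N + s + 1) c w) :
    TS W D f s b N c (con W D f (N + s + 1) N s (c * (s + 1)) (b ε) w) := by
  refine ⟨con_cp F (by omega) (H.cp ε) hw.1, ?_⟩
  intro N0 hN' i hi ε'
  obtain ⟨c', rfl⟩ : ∃ c', c = c' + 1 := ⟨c - 1, by omega⟩
  have hcc : (c' + 1) * (s + 1) = c' * (s + 1) + s + 1 := by ring
  subst hN'
  have hij : i * (s + 1) ≤ c' * (s + 1) := Nat.mul_le_mul_right _ (by omega)
  have h1 := con_con F hij (by omega : c' * (s + 1) ≤ N0 + 1) (H.cp ε') (H.cp ε) w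
  rw [hcc, h1, hw.2 _ rfl i hi ε', map_zero]

lemma ins_wt {N j : ℕ} (hj : j ≤ N + 1) (ε : Bool) {a : W.H (pw X N)} {m : ℤ}
    (ha : wt (W.isInternal (pw X N)) (pw X N).dim a = (m : W.K) • a) :
    wt (W.isInternal (pw X (N + s + 1))) (pw X (N + s + 1)).dim
      (ins W X (N + s + 1) N s j (b ε) a) =
      ((m + μ : ℤ) : W.K) • ins W X (N + s + 1) N s j (b ε) a := by
  rw [ins_apply, (pl_pw F N s j hj).wt_E, ha, H.wt, map_smul, map_smul, smul_mul_assoc,
    mul_smul_comm, ← add_smul]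
  push_cast
  rfl

lemma con_wt {N j : ℕ} (hj : j ≤ N + 1) (ε : Bool) {w : W.H (pw X (N + s + 1))} {m : ℤ}
    (hw : wt (W.isInternal (pw X (N + s + 1))) (pw X (N + s + 1)).dim w = (m : W.K) • w) :
    wt (W.isInternal (pw X N)) (pw X N).dim (con W D f (N + s + 1) N s j (b ε) w) =
      ((m - μ : ℤ) : W.K) • con W D f (N + s + 1) N s j (b ε) w := by
  rw [← sub_eq_zero]
  apply (pw_fz F N).nondeg'
  intro a
  have h1 := adj_ins F hj (H.cp ε) w (wt (W.isInternal (pw X N)) (pw X N).dim a)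
  have h2 := adj_ins F hj (H.cp ε) w a
  have h3 := (pl_pw F N s j hj).wt_E a (b ε)
  rw [H.wt, map_smul, mul_smul_comm] at h3
  have h4 : ins W X (N + s + 1) N s j (b ε) (wt (W.isInternal (pw X N)) (pw X N).dim a) =
      wt (W.isInternal (pw X (N + s + 1))) (pw X (N + s + 1)).dim
        (ins W X (N + s + 1) N s j (b ε) a) - (μ : W.K) • ins W X (N + s + 1) N s j (b ε) a := by
    rw [eq_sub_iff_add_eq]
    exact h3.symm
  rw [map_sub, LinearMap.sub_apply, (pw_fz F N).wt_self, ← h1, h4, map_sub, map_smul,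
    ← (pw_fz F (N + s + 1)).wt_self, hw, map_smul, LinearMap.smul_apply, map_smul,
    LinearMap.smul_apply, ← h2]
  push_cast
  simp only [smul_eq_mul]
  ring

lemma ts_succ {N c : ℕ} (w : W.H (pw X (N + s + 1))) :
    TS W D f s b (N + s + 1) (c + 1) w ↔ TS W D f s b (N + s + 1) c w ∧
      ∀ ε, con W D f (N + s + 1) N s (c * (s + 1)) (b ε) w = 0 := by
  constructor
  · rintro ⟨h1, h2⟩
    exact ⟨⟨h1, fun N' hN i hi => h2 N' hN i (by omega)⟩, fun ε => h2 N rfl c (by omega) ε⟩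
  · rintro ⟨⟨h1, h2⟩, h3⟩
    refine ⟨h1, fun N' hN i hi ε => ?_⟩
    obtain rfl : N' = N := by omega
    rcases Nat.lt_succ_iff_lt_or_eq.1 hi with h | rfl
    · exact h2 _ rfl i h ε
    · exact h3 ε

/-- **The recursion.** -/
theorem ts_rec {N c : ℕ} (hc : c * (s + 1) ≤ N) {r r' : ℕ} {σ σ' : ℤ}
    (hs : Sz (bp W D f N) (TS W D f s b N c) r σ)
    (hs' : Sz (bp W D f (N + s + 1)) (TS W D f s b (N + s + 1) (c + 1)) r' σ') :
    Sz (bp W D f (N + s + 1)) (TS W D f s b (N + s + 1) c) (2 * r + r') σ' := by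
  have hj : c * (s + 1) ≤ N + 1 := by omega
  refine sz_split (rf_ts F (N + s + 1) c) (rf_ts F N c)
    (fun ε => ins W X (N + s + 1) N s (c * (s + 1)) (b ε))
    (fun ε => con W D f (N + s + 1) N s (c * (s + 1)) (b ε)) l H.pos H.neg
    (fun ε a ha => ins_ts F H hc ε ha) (fun ε w hw => con_ts F H hc ε hw)
    (fun ε w a _ _ => adj_ins F hj (H.cp ε) w a) ?_ ?_ ?_ ?_ (fun w => ts_succ F H w) hs hs'
  · intro ε a a'
    rw [ins_form F hj, H.sq, mul_comm]
  · intro ε ε' a a' hne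
    rw [ins_form F hj, H.orth ε ε' hne, mul_zero]
  · intro ε a
    rw [con_ins F hj (H.cp ε), H.sq]
  · intro ε ε' a hne
    rw [con_ins F hj (H.cp ε), H.orth ε' ε (Ne.symm hne), zero_smul]

/-- **The recursion in a given weight.** -/
theorem tw_rec {N c : ℕ} (hc : c * (s + 1) ≤ N) {m : ℤ} {r r' : ℕ} {σ σ' : ℤ}
    (hs : Sz (bp W D f N) (TW W D f s b N c (m - μ)) r σ)
    (hs' : Sz (bp W D f (N + s + 1)) (TW W D f s b (N + s + 1) (c + 1) m) r' σ') :
    Sz (bp W D f (N + s + 1)) (TW W D f s b (N + s + 1) c m) (2 * r + r') σ' := by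
  have hj : c * (s + 1) ≤ N + 1 := by omega
  refine sz_split (rf_tw F (N + s + 1) c m) (rf_tw F N c (m - μ))
    (fun ε => ins W X (N + s + 1) N s (c * (s + 1)) (b ε))
    (fun ε => con W D f (N + s + 1) N s (c * (s + 1)) (b ε)) l H.pos H.neg
    (fun ε a ha => ⟨ins_ts F H hc ε ha.1, ?_⟩)
    (fun ε w hw => ⟨con_ts F H hc ε hw.1, con_wt F H hj ε hw.2⟩)
    (fun ε w a _ _ => adj_ins F hj (H.cp ε) w a) ?_ ?_ ?_ ?_ (fun w => ?_) hs hs'
  · have := ins_wt F H hj ε ha.2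
    rwa [sub_add_cancel] at this
  · intro ε a a'
    rw [ins_form F hj, H.sq, mul_comm]
  · intro ε ε' a a' hne
    rw [ins_form F hj, H.orth ε ε' hne, mul_zero]
  · intro ε a
    rw [con_ins F hj (H.cp ε), H.sq]
  · intro ε ε' a hne
    rw [con_ins F hj (H.cp ε), H.orth ε' ε (Ne.symm hne), zero_smul]
  · rw [TW, TW, ts_succ F H]
    tauto

end

end Pool.Agent.H66SG
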