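import Pool.Agent.H66SG.PL

/-!
# Projections of the powers of a variety
-/

set_option autoImplicit false

open CategoryTheory AlgebraicGeometry

universe u v w

namespace Pool.Agent.H66SG

open Pool.Agent.H914 Pool.Agent.H914.VarClass Pool.Agent.H914.VarClass.Obj
  Pool.Agent.H914.WeilCohomology Pool.Agent.H281R3.HT Pool.Agent.W552 Pool.Agent.TH720.LB
  Pool.Agent.X310 Pool.Agent.X310.Mom

variable {k : Type u} [Field k] {𝒱 : VarClass k} {ops : CycleOps 𝒱}
  {W : WeilCohomology.{u, v} ops} {X Y T : 𝒱.Obj}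

lemma prod_ext {S : 𝒱.Obj} {f g : S ⟶ X.prod Y} (h1 : f ≫ fst X Y = g ≫ fst X Y)
    (h2 : f ≫ snd X Y = g ≫ snd X Y) : f = g :=
  SmVar.Hom.ext (Limits.pullback.hom_ext (congrArg SmVar.Hom.hom h1) (congrArg SmVar.Hom.hom h2))

/-- The first coordinate. -/
noncomputable def hd (X : 𝒱.Obj) (n : ℕ) : pw X (n + 1) ⟶ X := fst X (pw X n)

/-- The other coordinates. -/
noncomputable def tl (X : 𝒱.Obj) (n : ℕ) : pw X (n + 1) ⟶ pw X n := snd X (pw X n)

/-- The morphism with given first coordinate and other coordinates. -/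
noncomputable def cons {X T : 𝒱.Obj} (n : ℕ) (a : T ⟶ X) (b : T ⟶ pw X n) :
    T ⟶ pw X (n + 1) := Obj.lift a b

lemma cons_hd (n : ℕ) (a : T ⟶ X) (b : T ⟶ pw X n) : cons n a b ≫ hd X n = a :=
  Obj.lift_fst _ _

lemma cons_tl (n : ℕ) (a : T ⟶ X) (b : T ⟶ pw X n) : cons n a b ≫ tl X n = b :=
  Obj.lift_snd _ _

lemma cons_tl_assoc (n : ℕ) (a : T ⟶ X) (b : T ⟶ pw X n) (c : pw X n ⟶ Y) :
    cons n a b ≫ tl X n ≫ c = b ≫ c := by
  rw [← Category.assoc, cons_tl]

lemma cons_ext (n : ℕ) {f g : T ⟶ pw X (n + 1)} (h1 : f ≫ hd X n = g ≫ hd X n)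
    (h2 : f ≫ tl X n = g ≫ tl X n) : f = g := prod_ext h1 h2

/-- The coordinates of the powers. -/
noncomputable def pr (X : 𝒱.Obj) : ∀ m : ℕ, ℕ → (pw X m ⟶ X)
  | 0, _ => 𝟙 X
  | m + 1, 0 => hd X m
  | m + 1, t + 1 => tl X m ≫ pr X m t

lemma pr_succ (m t : ℕ) : pr X (m + 1) (t + 1) = tl X m ≫ pr X m t := rfl

lemma pr_hd (m : ℕ) : pr X (m + 1) 0 = hd X m := rfl

lemma comp_pr_zero (g : T ⟶ pw X 0) (t : ℕ) : g ≫ pr X 0 t = g := Category.comp_id (X := T) _

/-- The morphism to a power with given coordinates. -/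
noncomputable def tup {X T : 𝒱.Obj} : ∀ n : ℕ, (ℕ → (T ⟶ X)) → (T ⟶ pw X n)
  | 0, g => g 0
  | n + 1, g => cons n (g 0) (tup n (fun t => g (t + 1)))

lemma tup_pr (n : ℕ) (g : ℕ → (T ⟶ X)) (t : ℕ) (ht : t ≤ n) : tup n g ≫ pr X n t = g t := by
  induction n generalizing t g with
  | zero =>
    obtain rfl : t = 0 := by omega
    exact comp_pr_zero _ _
  | succ n ih =>
    cases t with
    | zero => exact cons_hd _ _ _
    | succ t =>
      rw [pr_succ, tup, cons_tl_assoc, ih _ _ (by omega)]

lemma pw_ext (n : ℕ) {f g : T ⟶ pw X n} (h : ∀ t ≤ n, f ≫ pr X n t = g ≫ pr X n t) : f = g := by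
  induction n with
  | zero =>
    have := h 0 le_rfl
    rwa [comp_pr_zero, comp_pr_zero] at this
  | succ n ih =>
    apply cons_ext
    · exact h 0 (by omega)
    · apply ih
      intro t ht
      have := h (t + 1) (by omega)
      rw [Category.assoc, Category.assoc]
      exact this

lemma tup_congr (n : ℕ) {g g' : ℕ → (T ⟶ X)} (h : ∀ t ≤ n, g t = g' t) : tup n g = tup n g' := by
  apply pw_ext
  intro t ht
  rw [tup_pr n g t ht, tup_pr n g' t ht, h t ht]

lemma tup_comp (n : ℕ) {S : 𝒱.Obj} (u : S ⟶ T) (g : ℕ → (T ⟶ X)) :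
    tup n (fun t => u ≫ g t) = u ≫ tup n g := by
  apply pw_ext
  intro t ht
  rw [tup_pr _ _ t ht, Category.assoc, tup_pr _ _ t ht]

lemma tup_eta (n : ℕ) : tup n (pr X n) = 𝟙 (pw X n) := by
  apply pw_ext
  intro t ht
  rw [tup_pr _ _ t ht, Category.id_comp]

/-- The projection which forgets the block of `s + 1` coordinates in position `j`. -/
noncomputable def frg (X : 𝒱.Obj) (M N s j : ℕ) : pw X M ⟶ pw X N :=
  tup N (fun t => pr X M (if t < j then t else t + s + 1))

/-- The projection to the block of `s + 1` coordinates in position `j`. -/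
noncomputable def blk (X : 𝒱.Obj) (M s j : ℕ) : pw X M ⟶ pw X s :=
  tup s (fun t => pr X M (t + j))

lemma frg_pr (M N s j t : ℕ) (ht : t ≤ N) : frg X M N s j ≫ pr X N t =
    pr X M (if t < j then t else t + s + 1) := tup_pr _ _ t ht

lemma blk_pr (M s j t : ℕ) (ht : t ≤ s) : blk X M s j ≫ pr X s t = pr X M (t + j) :=
  tup_pr _ _ t ht

/-- The lowering operators of the powers. -/
noncomputable def pwLow (W : WeilCohomology.{u, v} ops) {X : 𝒱.Obj} (f : Module.End W.K (W.H X)) :
    ∀ m, Module.End W.K (W.H (pw X m))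
  | 0 => f
  | m + 1 => extSum W f (pwLow W f m)

variable {D : X.Cycles} {f : Module.End W.K (W.H X)} (F : Fz W X D f)

include F

lemma pw_fz (m : ℕ) : Fz W (pw X m) (pwDiv ops D m) (pwLow W f m) := by
  induction m with
  | zero => exact F
  | succ m ih => exact F.prod ih

/-- The block in front. -/
lemma pl_front (N s : ℕ) : PL W (frg X (N + s + 1) N s 0) (blk X (N + s + 1) s 0)
    (pwDiv ops D (N + s + 1)) (pwLow W f (N + s + 1)) (pwDiv ops D N) (pwLow W f N)
    (pwDiv ops D s) (pwLow W f s) := by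
  induction s with
  | zero =>
    have h1 : frg X (N + 0 + 1) N 0 0 = tl X N := by
      apply pw_ext
      intro t ht
      rw [frg_pr _ _ _ _ _ ht, if_neg (by omega)]
      rfl
    have h2 : blk X (N + 0 + 1) 0 0 = hd X N := by
      apply pw_ext
      intro t ht
      obtain rfl : t = 0 := by omega
      rw [blk_pr _ _ _ _ ht]
      exact (comp_pr_zero _ _).symm
    rw [h1, h2]
    exact (PL.base F (pw_fz F N)).symm
  | succ s ih =>
    have h1 : frg X (N + (s + 1) + 1) N (s + 1) 0 =
        tl X (N + s + 1) ≫ frg X (N + s + 1) N s 0 := by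
      apply pw_ext
      intro t ht
      rw [frg_pr _ _ _ _ _ ht, if_neg (by omega), Category.assoc, frg_pr _ _ _ _ _ ht,
        if_neg (by omega)]
      rfl
    have h2 : blk X (N + (s + 1) + 1) (s + 1) 0 =
        cons s (hd X (N + s + 1)) (tl X (N + s + 1) ≫ blk X (N + s + 1) s 0) := by
      apply pw_ext
      intro t ht
      rw [blk_pr _ _ _ _ ht]
      cases t with
      | zero => exact (cons_hd _ _ _).symm
      | succ t =>
        rw [pr_succ s t, cons_tl_assoc, Category.assoc, blk_pr _ _ _ _ (by omega)]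
        rfl
    rw [h1, h2]
    exact ih.step' F

/-- **The projections of the powers.** -/
theorem pl_pw (N s j : ℕ) (hj : j ≤ N + 1) :
    PL W (frg X (N + s + 1) N s j) (blk X (N + s + 1) s j)
    (pwDiv ops D (N + s + 1)) (pwLow W f (N + s + 1)) (pwDiv ops D N) (pwLow W f N)
    (pwDiv ops D s) (pwLow W f s) := by
  induction N generalizing j with
  | zero =>
    cases j with
    | zero => exact pl_front F 0 s
    | succ j =>
      obtain rfl : j = 0 := by omega
      rw [show 0 + s + 1 = s + 1 by omega]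
      have h1 : frg X (s + 1) 0 s (0 + 1) = hd X s := by
        apply pw_ext
        intro t ht
        obtain rfl : t = 0 := by omega
        rw [frg_pr _ _ _ _ _ ht, if_pos (by omega)]
        exact (comp_pr_zero _ _).symm
      have h2 : blk X (s + 1) s (0 + 1) = tl X s := by
        apply pw_ext
        intro t ht
        rw [blk_pr _ _ _ _ ht]
        rfl
      rw [h1, h2]
      exact PL.base F (pw_fz F s)
  | succ N ih =>
    cases j with
    | zero => exact pl_front F (N + 1) s
    | succ j =>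
      rw [show N + 1 + s + 1 = (N + s + 1) + 1 by omega]
      have h1 : frg X (N + s + 1 + 1) (N + 1) s (j + 1) =
          cons N (hd X (N + s + 1)) (tl X (N + s + 1) ≫ frg X (N + s + 1) N s j) := by
        apply pw_ext
        intro t ht
        rw [frg_pr _ _ _ _ _ ht]
        cases t with
        | zero =>
          rw [if_pos (by omega)]
          exact (cons_hd _ _ _).symm
        | succ t =>
          rw [pr_succ N t, cons_tl_assoc, Category.assoc, frg_pr _ _ _ _ _ (by omega)]
          by_cases htj : t < j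
          · rw [if_pos htj, if_pos (by omega)]; rfl
          · rw [if_neg htj, if_neg (by omega), show t + 1 + s + 1 = (t + s + 1) + 1 by omega]
            rfl
      have h2 : blk X (N + s + 1 + 1) s (j + 1) =
          tl X (N + s + 1) ≫ blk X (N + s + 1) s j := by
        apply pw_ext
        intro t ht
        rw [blk_pr _ _ _ _ ht, Category.assoc, blk_pr _ _ _ _ ht,
          show t + (j + 1) = (t + j) + 1 by omega]
        rfl
      rw [h1, h2]
      exact (ih j (by omega)).step F

omit F in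
/-- Forgetting two blocks, in the two orders. -/
lemma frg_frg (N s i j : ℕ) (hij : i ≤ j) (hj : j ≤ N + 1) :
    frg X (N + s + 1 + s + 1) (N + s + 1) s i ≫ frg X (N + s + 1) N s j =
      frg X (N + s + 1 + s + 1) (N + s + 1) s (j + s + 1) ≫ frg X (N + s + 1) N s i := by
  apply pw_ext
  intro t ht
  rw [Category.assoc, Category.assoc, frg_pr _ _ _ _ _ ht, frg_pr _ _ _ _ _ ht]
  by_cases h1 : t < i
  · rw [if_pos h1, if_pos (by omega), frg_pr _ _ _ _ _ (by omega), frg_pr _ _ _ _ _ (by omega),
      if_pos (by omega), if_pos (by omega)]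
  · by_cases h2 : t < j
    · rw [if_pos h2, if_neg h1, frg_pr _ _ _ _ _ (by omega), frg_pr _ _ _ _ _ (by omega),
        if_neg (by omega), if_pos (by omega)]
    · rw [if_neg h2, if_neg h1, frg_pr _ _ _ _ _ (by omega), frg_pr _ _ _ _ _ (by omega),
        if_neg (by omega), if_neg (by omega)]

omit F in
/-- The later block after forgetting the earlier one. -/
lemma frg_blk_late (N s i j : ℕ) (hij : i ≤ j) (hj : j ≤ N + 1) :
    frg X (N + s + 1 + s + 1) (N + s + 1) s i ≫ blk X (N + s + 1) s j =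
      blk X (N + s + 1 + s + 1) s (j + s + 1) := by
  apply pw_ext
  intro t ht
  rw [Category.assoc, blk_pr _ _ _ _ ht, blk_pr _ _ _ _ ht, frg_pr _ _ _ _ _ (by omega),
    if_neg (by omega)]
  congr 1
  omega

omit F in
/-- The earlier block after forgetting the later one. -/
lemma frg_blk_early (N s i j : ℕ) (hij : i ≤ j) (hj : j ≤ N + 1) :
    frg X (N + s + 1 + s + 1) (N + s + 1) s (j + s + 1) ≫ blk X (N + s + 1) s i =
      blk X (N + s + 1 + s + 1) s i := by
  apply pw_ext
  intro t ht
  rw [Category.assoc, blk_pr _ _ _ _ ht, blk_pr _ _ _ _ ht, frg_pr _ _ _ _ _ (by omega),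
    if_pos (by omega)]

end Pool.Agent.H66SG
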